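import Mathlib

/-!
# Nearest-neighbour Markov chains on `ℤ`: expectations of path functionals
-/

set_option autoImplicit false

namespace Pool.Agent.H646R3.Cop

open Finset

/-- The path that starts at `x` and continues as `s`. -/
def cons (x : ℤ) (s : ℕ → ℤ) : ℕ → ℤ
  | 0 => x
  | n + 1 => s n

@[simp] lemma cons_zero (x : ℤ) (s : ℕ → ℤ) : cons x s 0 = x := rfl
@[simp] lemma cons_succ (x : ℤ) (s : ℕ → ℤ) (n : ℕ) : cons x s (n + 1) = s n := rfl

/-- `expect p N x F` is the expectation of `F (S_0, S_1, ..., S_N, ...)` for the nearest-neighbour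
Markov chain on `ℤ` started at `x`, which jumps from `y` to `y + 1` with probability `p y` and to
`y - 1` with probability `1 - p y` (the path is stopped at time `N`). -/
noncomputable def expect (p : ℤ → ℝ) : ℕ → ℤ → ((ℕ → ℤ) → ℝ) → ℝ
  | 0, x, F => F (fun _ => x)
  | N + 1, x, F => p x * expect p N (x + 1) (fun s => F (cons x s)) +
      (1 - p x) * expect p N (x - 1) (fun s => F (cons x s))

/-- transition probabilities in `(0, 1)` -/
def IsTrans (p : ℤ → ℝ) : Prop := ∀ x, 0 < p x ∧ p x < 1

variable {p : ℤ → ℝ}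

lemma expect_congr : ∀ (N : ℕ) (x : ℤ) {F G : (ℕ → ℤ) → ℝ},
    (∀ s, s 0 = x → F s = G s) → expect p N x F = expect p N x G
  | 0, x, F, G, h => h _ rfl
  | N + 1, x, F, G, h => by
    simp only [expect]
    rw [expect_congr N (x + 1) (fun s _ => h (cons x s) rfl),
      expect_congr N (x - 1) (fun s _ => h (cons x s) rfl)]

lemma expect_mono (hp : IsTrans p) : ∀ (N : ℕ) (x : ℤ) {F G : (ℕ → ℤ) → ℝ},
    (∀ s, s 0 = x → F s ≤ G s) → expect p N x F ≤ expect p N x G
  | 0, x, F, G, h => h _ rfl
  | N + 1, x, F, G, h => by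
    simp only [expect]
    have h1 := expect_mono hp N (x + 1) (fun s _ => h (cons x s) rfl)
    have h2 := expect_mono hp N (x - 1) (fun s _ => h (cons x s) rfl)
    have := (hp x).1
    have := (hp x).2
    gcongr

lemma expect_const : ∀ (N : ℕ) (x : ℤ) (c : ℝ), expect p N x (fun _ => c) = c
  | 0, x, c => rfl
  | N + 1, x, c => by
    simp only [expect, expect_const N]
    ring

lemma expect_add : ∀ (N : ℕ) (x : ℤ) (F G : (ℕ → ℤ) → ℝ),
    expect p N x (fun s => F s + G s) = expect p N x F + expect p N x G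
  | 0, x, F, G => rfl
  | N + 1, x, F, G => by
    simp only [expect]
    rw [expect_add N, expect_add N]
    ring

lemma expect_mul_left : ∀ (N : ℕ) (x : ℤ) (c : ℝ) (F : (ℕ → ℤ) → ℝ),
    expect p N x (fun s => c * F s) = c * expect p N x F
  | 0, x, c, F => rfl
  | N + 1, x, c, F => by
    simp only [expect]
    rw [expect_mul_left N, expect_mul_left N]
    ring

lemma expect_mul_right (N : ℕ) (x : ℤ) (c : ℝ) (F : (ℕ → ℤ) → ℝ) :
    expect p N x (fun s => F s * c) = expect p N x F * c := by
  rw [mul_comm, ← expect_mul_left]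
  exact expect_congr N x fun s _ => mul_comm _ _

lemma expect_sum {ι : Type*} (t : Finset ι) (N : ℕ) (x : ℤ) (F : ι → (ℕ → ℤ) → ℝ) :
    expect p N x (fun s => ∑ i ∈ t, F i s) = ∑ i ∈ t, expect p N x (F i) := by
  classical
  induction t using Finset.induction_on with
  | empty => simp [expect_const]
  | insert a t ha ih =>
    simp only [Finset.sum_insert ha]
    rw [expect_add, ih]

lemma expect_nonneg (hp : IsTrans p) (N : ℕ) (x : ℤ) {F : (ℕ → ℤ) → ℝ}
    (h : ∀ s, s 0 = x → 0 ≤ F s) : 0 ≤ expect p N x F := by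
  have := expect_mono hp N x (F := fun _ => 0) (G := F) h
  rwa [expect_const] at this

lemma expect_pos (hp : IsTrans p) : ∀ (N : ℕ) (x : ℤ) {F : (ℕ → ℤ) → ℝ},
    (∀ s, s 0 = x → 0 < F s) → 0 < expect p N x F
  | 0, x, F, h => h _ rfl
  | N + 1, x, F, h => by
    simp only [expect]
    have h1 := expect_pos hp N (x + 1) (F := fun s => F (cons x s)) (fun s _ => h (cons x s) rfl)
    have h2 := expect_pos hp N (x - 1) (F := fun s => F (cons x s)) (fun s _ => h (cons x s) rfl)
    have := (hp x).1
    have := (hp x).2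
    have h3 : 0 < 1 - p x := by linarith
    positivity

/-- concatenation of a path up to time `a` with a path started at time `a` -/
def splice (a : ℕ) (s s' : ℕ → ℤ) : ℕ → ℤ := fun n => if n < a then s n else s' (n - a)

lemma splice_zero (s s' : ℕ → ℤ) : splice 0 s s' = s' := by
  funext n; simp [splice]

lemma splice_succ (a : ℕ) (x : ℤ) (s s' : ℕ → ℤ) :
    splice (a + 1) (cons x s) s' = cons x (splice a s s') := by
  funext n
  cases n with
  | zero => simp [splice]
  | succ n => simp [splice]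

/-- Markov property at time `a`. -/
lemma expect_markov : ∀ (a b : ℕ) (x : ℤ) (F : (ℕ → ℤ) → ℝ),
    expect p (a + b) x F =
      expect p a x (fun s => expect p b (s a) (fun s' => F (splice a s s')))
  | 0, b, x, F => by
    simp only [expect, Nat.zero_add, splice_zero]
  | a + 1, b, x, F => by
    have e : a + 1 + b = (a + b) + 1 := by omega
    rw [e]
    simp only [expect]
    rw [expect_markov a b, expect_markov a b]
    simp only [cons_succ, splice_succ]

/-- the transition operator -/
noncomputable def Pop (p : ℤ → ℝ) (f : ℤ → ℝ) : ℤ → ℝ :=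
  fun x => p x * f (x + 1) + (1 - p x) * f (x - 1)

lemma expect_iterate : ∀ (n : ℕ) (x : ℤ) (f : ℤ → ℝ),
    expect p n x (fun s => f (s n)) = (Pop p)^[n] f x
  | 0, x, f => rfl
  | n + 1, x, f => by
    simp only [expect, cons_succ]
    rw [expect_iterate n, expect_iterate n, Function.iterate_succ_apply', Pop]

lemma expect_at {n N : ℕ} (h : n ≤ N) (x : ℤ) (f : ℤ → ℝ) :
    expect p N x (fun s => f (s n)) = (Pop p)^[n] f x := by
  obtain ⟨m, rfl⟩ := Nat.exists_eq_add_of_le h
  rw [expect_markov, ← expect_iterate]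
  refine expect_congr n x fun s _ => ?_
  rw [expect_congr m (s n) (G := fun _ => f (s n)) (fun s' hs' => by simp [splice, hs']),
    expect_const]

lemma Pop_mono (hp : IsTrans p) {f g : ℤ → ℝ} (h : ∀ x, f x ≤ g x) (x : ℤ) :
    Pop p f x ≤ Pop p g x := by
  have := (hp x).1
  have := (hp x).2
  unfold Pop
  have h1 := h (x + 1)
  have h2 := h (x - 1)
  gcongr

lemma Pop_nonneg (hp : IsTrans p) {f : ℤ → ℝ} (h : ∀ x, 0 ≤ f x) (x : ℤ) :
    0 ≤ Pop p f x := by
  have := (hp x).1
  have := (hp x).2
  have h3 : 0 < 1 - p x := by linarith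
  have h1 := h (x + 1)
  have h2 := h (x - 1)
  unfold Pop
  positivity

lemma iter_nonneg (hp : IsTrans p) {f : ℤ → ℝ} (h : ∀ x, 0 ≤ f x) (n : ℕ) (x : ℤ) :
    0 ≤ (Pop p)^[n] f x := by
  induction n generalizing x with
  | zero => exact h x
  | succ n ih =>
    rw [Function.iterate_succ_apply']
    exact Pop_nonneg hp ih x

lemma iter_mono (hp : IsTrans p) {f g : ℤ → ℝ} (h : ∀ x, f x ≤ g x) (n : ℕ) (x : ℤ) :
    (Pop p)^[n] f x ≤ (Pop p)^[n] g x := by
  induction n generalizing x with
  | zero => exact h x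
  | succ n ih =>
    rw [Function.iterate_succ_apply', Function.iterate_succ_apply']
    exact Pop_mono hp ih x

lemma Pop_add (f g : ℤ → ℝ) (x : ℤ) : Pop p (fun y => f y + g y) x = Pop p f x + Pop p g x := by
  unfold Pop; ring

lemma Pop_mul_const (f : ℤ → ℝ) (c : ℝ) (x : ℤ) : Pop p (fun y => f y * c) x = Pop p f x * c := by
  unfold Pop; ring

lemma Pop_sum {ι : Type*} (t : Finset ι) (f : ι → ℤ → ℝ) (x : ℤ) :
    Pop p (fun y => ∑ i ∈ t, f i y) x = ∑ i ∈ t, Pop p (f i) x := by
  unfold Pop
  simp only [Finset.mul_sum, Finset.sum_add_distrib]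

/-! ### First passage to `0` -/

/-- probability that the first visit to `0` (at a time `≥ 0`) is at time `n`, start at `x` -/
noncomputable def fp (p : ℤ → ℝ) : ℕ → ℤ → ℝ
  | 0, x => if x = 0 then 1 else 0
  | n + 1, x => if x = 0 then 0 else Pop p (fp p n) x

/-- killed expectation of `f (S_n)` before the first visit to `0` -/
noncomputable def Qk (p : ℤ → ℝ) (f : ℤ → ℝ) : ℕ → ℤ → ℝ
  | 0, x => if x = 0 then 0 else f x
  | n + 1, x => if x = 0 then 0 else Pop p (Qk p f n) x

lemma fp_path : ∀ (n : ℕ) (x : ℤ),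
    expect p n x (fun s => if s n = 0 ∧ ∀ k < n, s k ≠ 0 then 1 else 0) = fp p n x
  | 0, x => by simp [expect, fp]
  | n + 1, x => by
    simp only [expect, fp]
    by_cases hx : x = 0
    · subst hx
      rw [if_pos rfl]
      have h : ∀ s : ℕ → ℤ, ¬ (cons 0 s (n + 1) = 0 ∧ ∀ k < n + 1, cons 0 s k ≠ 0) := by
        intro s hs
        exact hs.2 0 (by omega) rfl
      simp only [h, if_false, expect_const]
      ring
    · rw [if_neg hx]
      have h : ∀ s : ℕ → ℤ, (cons x s (n + 1) = 0 ∧ ∀ k < n + 1, cons x s k ≠ 0) ↔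
          (s n = 0 ∧ ∀ k < n, s k ≠ 0) := by
        intro s
        constructor
        · rintro ⟨h1, h2⟩
          exact ⟨h1, fun k hk => h2 (k + 1) (by omega)⟩
        · rintro ⟨h1, h2⟩
          refine ⟨h1, fun k hk => ?_⟩
          cases k with
          | zero => exact hx
          | succ k => exact h2 k (by omega)
      simp only [h, fp_path n, Pop]

/-- `firstReturn p n` is the probability that the first return time `τ_1` to `0` equals `n`. -/
noncomputable def firstReturn (p : ℤ → ℝ) (n : ℕ) : ℝ :=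
  open Classical in
  expect p n 0 (fun s => if 1 ≤ n ∧ s n = 0 ∧ ∀ k, 1 ≤ k → k < n → s k ≠ 0 then 1 else 0)

lemma firstReturn_zero : firstReturn p 0 = 0 := by
  unfold firstReturn
  simp [expect]

lemma firstReturn_succ (n : ℕ) : firstReturn p (n + 1) = Pop p (fp p n) 0 := by
  unfold firstReturn
  simp only [expect, Pop]
  have h : ∀ s : ℕ → ℤ, (1 ≤ n + 1 ∧ cons 0 s (n + 1) = 0 ∧ ∀ k, 1 ≤ k → k < n + 1 →
      cons 0 s k ≠ 0) ↔ (s n = 0 ∧ ∀ k < n, s k ≠ 0) := by
    intro s
    constructor
    · rintro ⟨-, h1, h2⟩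
      exact ⟨h1, fun k hk => h2 (k + 1) (by omega) (by omega)⟩
    · rintro ⟨h1, h2⟩
      refine ⟨by omega, h1, fun k hk1 hk => ?_⟩
      cases k with
      | zero => omega
      | succ k => exact h2 k (by omega)
  rw [← fp_path, ← fp_path]
  simp only [h]

lemma fp_nonneg (hp : IsTrans p) : ∀ (n : ℕ) (x : ℤ), 0 ≤ fp p n x
  | 0, x => by simp only [fp]; split_ifs <;> norm_num
  | n + 1, x => by
    simp only [fp]
    split_ifs
    · exact le_rfl
    · exact Pop_nonneg hp (fp_nonneg hp n) x

lemma Qk_nonneg (hp : IsTrans p) {f : ℤ → ℝ} (hf : ∀ x, 0 ≤ f x) :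
    ∀ (n : ℕ) (x : ℤ), 0 ≤ Qk p f n x
  | 0, x => by simp only [Qk]; split_ifs; exacts [le_rfl, hf x]
  | n + 1, x => by
    simp only [Qk]
    split_ifs
    · exact le_rfl
    · exact Pop_nonneg hp (Qk_nonneg hp hf n) x

/-- First passage decomposition. -/
lemma iter_decomp (f : ℤ → ℝ) : ∀ (n : ℕ) (x : ℤ),
    (Pop p)^[n] f x = Qk p f n x + ∑ m ∈ range (n + 1), fp p m x * (Pop p)^[n - m] f 0
  | 0, x => by
    simp only [Function.iterate_zero, id_eq, Qk, zero_add, Finset.sum_range_one, fp, Nat.sub_self]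
    by_cases hx : x = 0
    · subst hx; simp
    · simp [hx]
  | n + 1, x => by
    by_cases hx : x = 0
    · subst hx
      rw [Finset.sum_range_succ']
      have h1 : ∀ m, fp p (m + 1) 0 = 0 := fun m => by simp [fp]
      have h2 : fp p 0 0 = 1 := by simp [fp]
      have h3 : Qk p f (n + 1) 0 = 0 := by simp [Qk]
      simp only [h1, h2, h3, zero_mul, Finset.sum_const_zero, zero_add, one_mul, Nat.sub_zero]
    · rw [Function.iterate_succ_apply']
      have ih : (Pop p)^[n] f = fun y => Qk p f n y +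
          ∑ m ∈ range (n + 1), fp p m y * (Pop p)^[n - m] f 0 := by
        funext y; exact iter_decomp f n y
      conv_lhs => rw [ih]
      rw [Pop_add, Pop_sum]
      conv_rhs => rw [Finset.sum_range_succ']
      have h2 : fp p 0 x = 0 := by simp [fp, hx]
      rw [h2, zero_mul, add_zero]
      congr 1
      · simp [Qk, hx]
      · refine Finset.sum_congr rfl fun m hm => ?_
        rw [Pop_mul_const]
        have : fp p (m + 1) x = Pop p (fp p m) x := by simp [fp, hx]
        rw [this, Nat.add_sub_add_right]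

/-- total probability -/
lemma fp_sum_add_surv (n : ℕ) (x : ℤ) :
    ∑ m ∈ range (n + 1), fp p m x + Qk p (fun _ => 1) n x = 1 := by
  have h := iter_decomp (p := p) (fun _ => 1) n x
  have h1 : ∀ (k : ℕ) (y : ℤ), (Pop p)^[k] (fun _ => (1 : ℝ)) y = 1 := by
    intro k
    induction k with
    | zero => intro y; rfl
    | succ k ih =>
      intro y
      rw [Function.iterate_succ_apply']
      simp only [Pop, ih]
      ring
  simp only [h1, mul_one] at h
  linarith

end Pool.Agent.H646R3.Cop
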