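import Pool.Agent.H646R3.Cop.Second

/-!
# Integration over the i.i.d. charges
-/

set_option autoImplicit false

namespace Pool.Agent.H646R3.Cop

open Finset MeasureTheory ProbabilityTheory

/-- law of a sequence of i.i.d. charges with law `ν` -/
noncomputable abbrev PP (ν : Measure ℝ) [IsProbabilityMeasure ν] : Measure (ℕ → ℝ) :=
  Measure.infinitePi (fun _ : ℕ => ν)

/-- all exponential moments -/
def ExpMom (ν : Measure ℝ) : Prop := ∀ t : ℝ, Integrable (fun x => Real.exp (t * x)) ν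

variable {ν : Measure ℝ} [IsProbabilityMeasure ν]

lemma exp_lin (hexp : ExpMom ν) (c : ℕ → ℝ) (N : ℕ) :
    Integrable (fun ω : ℕ → ℝ => Real.exp (∑ n ∈ range N, c n * ω (n + 1))) (PP ν) ∧
    ∫ ω, Real.exp (∑ n ∈ range N, c n * ω (n + 1)) ∂(PP ν) = ∏ n ∈ range N, mgf id ν (c n) := by
  set X : ℕ → (ℕ → ℝ) → ℝ := fun n ω => c n * ω (n + 1) with hX
  have h1 : iIndepFun (fun (n : ℕ) (ω : ℕ → ℝ) => ω n) (PP ν) :=
    iIndepFun_infinitePi (X := fun _ x => x) (fun _ => measurable_id)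
  have h2 : iIndepFun (fun (n : ℕ) (ω : ℕ → ℝ) => ω (n + 1)) (PP ν) :=
    h1.precomp (g := fun n => n + 1) (fun a b h => by simpa using h)
  have h3 : iIndepFun X (PP ν) :=
    h2.comp (fun n x => c n * x) (fun n => by fun_prop)
  have hmeas : ∀ n, Measurable (X n) := fun n => by rw [hX]; fun_prop
  have hmp : ∀ n, MeasurePreserving (fun ω : ℕ → ℝ => ω (n + 1)) (PP ν) ν := fun n =>
    measurePreserving_eval_infinitePi (fun _ : ℕ => ν) (n + 1)
  have hint : ∀ n, Integrable (fun ω => Real.exp (1 * X n ω)) (PP ν) := by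
    intro n
    have := (hmp n).integrable_comp_of_integrable (hexp (c n))
    simpa [hX, Function.comp_def] using this
  have hmgf : ∀ n, mgf (X n) (PP ν) 1 = mgf id ν (c n) := by
    intro n
    unfold mgf
    have h5 := integral_map (μ := PP ν) (hmp n).measurable.aemeasurable
      (f := fun x : ℝ => Real.exp (c n * x)) (by fun_prop)
    rw [(hmp n).map_eq] at h5
    simp only [id_eq]
    rw [h5]
    simp [hX]
  have e : (fun ω : ℕ → ℝ => Real.exp (∑ n ∈ range N, c n * ω (n + 1))) =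
      fun ω => Real.exp (1 * (∑ n ∈ range N, X n) ω) := by
    funext ω
    simp [hX]
  constructor
  · rw [e]
    exact h3.integrable_exp_mul_sum hmeas (s := range N) (fun i _ => hint i)
  · have h5 := h3.mgf_sum hmeas (t := 1) (range N)
    rw [e]
    refine Eq.trans h5 ?_
    exact Finset.prod_congr rfl fun n _ => hmgf n

/-- Boltzmann weight with interaction pattern `a` -/
noncomputable def bw (β h : ℝ) (N : ℕ) (a : ℕ → ℝ) (ω : ℕ → ℝ) : ℝ :=
  Real.exp (∑ n ∈ range N, (β * ω (n + 1) - h) * a n)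

lemma bw_pos (β h : ℝ) (N : ℕ) (a : ℕ → ℝ) (ω : ℕ → ℝ) : 0 < bw β h N a ω := Real.exp_pos _

lemma bw_eq (β h : ℝ) (N : ℕ) (a : ℕ → ℝ) (ω : ℕ → ℝ) : bw β h N a ω =
    Real.exp (∑ n ∈ range N, (β * a n) * ω (n + 1)) * Real.exp (-h * ∑ n ∈ range N, a n) := by
  unfold bw
  rw [← Real.exp_add]
  congr 1
  rw [Finset.mul_sum, ← Finset.sum_add_distrib]
  exact Finset.sum_congr rfl fun n _ => by ring

lemma bw_integrable (hexp : ExpMom ν) (β h : ℝ) (N : ℕ) (a : ℕ → ℝ) :
    Integrable (bw β h N a) (PP ν) := by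
  have : bw β h N a = fun ω => Real.exp (∑ n ∈ range N, (β * a n) * ω (n + 1)) *
      Real.exp (-h * ∑ n ∈ range N, a n) := funext (bw_eq β h N a)
  rw [this]
  exact (exp_lin hexp (fun n => β * a n) N).1.mul_const _

lemma integral_bw (hexp : ExpMom ν) (β h : ℝ) (N : ℕ) (a : ℕ → ℝ) :
    ∫ ω, bw β h N a ω ∂(PP ν) = ∏ n ∈ range N, (mgf id ν (β * a n) * Real.exp (-h * a n)) := by
  simp only [bw_eq]
  rw [integral_mul_const, (exp_lin hexp (fun n => β * a n) N).2, Finset.prod_mul_distrib,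
    ← Real.exp_sum, Finset.mul_sum]

lemma mgf_pos' (hexp : ExpMom ν) (t : ℝ) : 0 < mgf id ν t :=
  mgf_pos (hexp t)

lemma integral_bw01 (hexp : ExpMom ν) (β h : ℝ) (N : ℕ) (a : ℕ → ℝ)
    (ha : ∀ n, a n = 0 ∨ a n = 1) :
    ∫ ω, bw β h N a ω ∂(PP ν) = Real.exp ((cgf id ν β - h) * ∑ n ∈ range N, a n) := by
  rw [integral_bw hexp, Finset.mul_sum, Real.exp_sum]
  refine Finset.prod_congr rfl fun n _ => ?_
  rcases ha n with h' | h'
  · rw [h']; simp
  · rw [h', mul_one, mul_one, mul_one, sub_eq_add_neg, Real.exp_add]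
    congr 1
    exact (Real.exp_log (mgf_pos' hexp β)).symm

lemma bw_mul (β h : ℝ) (N : ℕ) (a a' : ℕ → ℝ) (ω : ℕ → ℝ) :
    bw β h N a ω * bw β h N a' ω = bw β h N (fun n => a n + a' n) ω := by
  unfold bw
  rw [← Real.exp_add, ← Finset.sum_add_distrib]
  congr 1
  exact Finset.sum_congr rfl fun n _ => by ring

lemma integral_bw_pair (hexp : ExpMom ν) (β : ℝ) (N : ℕ) (a a' : ℕ → ℝ)
    (ha : ∀ n, a n = 0 ∨ a n = 1) (ha' : ∀ n, a' n = 0 ∨ a' n = 1) :
    ∫ ω, bw β (cgf id ν β) N a ω * bw β (cgf id ν β) N a' ω ∂(PP ν) =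
      Real.exp ((cgf id ν (2 * β) - 2 * cgf id ν β) * ∑ n ∈ range N, a n * a' n) := by
  simp only [bw_mul]
  rw [integral_bw hexp, Finset.mul_sum, Real.exp_sum]
  refine Finset.prod_congr rfl fun n _ => ?_
  have e1 : mgf id ν β = Real.exp (cgf id ν β) := (Real.exp_log (mgf_pos' hexp β)).symm
  have e2 : mgf id ν (2 * β) = Real.exp (cgf id ν (2 * β)) :=
    (Real.exp_log (mgf_pos' hexp (2 * β))).symm
  rcases ha n with h | h <;> rcases ha' n with h' | h' <;> rw [h, h']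
  · simp
  · simp only [zero_add, mul_one, mul_zero, Real.exp_zero]
    rw [e1, ← Real.exp_add]; simp
  · simp only [add_zero, mul_one, mul_zero, Real.exp_zero]
    rw [e1, ← Real.exp_add]; simp
  · rw [show β * (1 + 1) = 2 * β by ring, e2, ← Real.exp_add]
    congr 1; ring

lemma integral_expect {p : ℤ → ℝ} {Ω : Type*} [MeasurableSpace Ω] {P : Measure Ω}
    (N : ℕ) : ∀ (x : ℤ) (F : (ℕ → ℤ) → Ω → ℝ), (∀ s, Integrable (F s) P) →
    Integrable (fun ω => expect p N x (fun s => F s ω)) P ∧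
    ∫ ω, expect p N x (fun s => F s ω) ∂P = expect p N x (fun s => ∫ ω, F s ω ∂P) := by
  induction N with
  | zero =>
    intro x F hF
    exact ⟨hF _, rfl⟩
  | succ N ih =>
    intro x F hF
    have h1 := ih (x + 1) (fun s => F (cons x s)) (fun s => hF _)
    have h2 := ih (x - 1) (fun s => F (cons x s)) (fun s => hF _)
    constructor
    · exact (h1.1.const_mul _).add (h2.1.const_mul _)
    · simp only [expect]
      rw [integral_add (h1.1.const_mul _) (h2.1.const_mul _), integral_const_mul,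
        integral_const_mul, h1.2, h2.2]

/-! ### The random variable `Y` -/

/-- `1` if `θ ≤ N_j`, `0` otherwise, at zeros of the path -/
noncomputable def gg (θ : ℝ) (s : ℕ → ℤ) (j : ℕ) : ℝ := if θ ≤ NN s j then dl (s j) else 0

lemma gg_nonneg (θ : ℝ) (s : ℕ → ℤ) (j : ℕ) : 0 ≤ gg θ s j := by
  unfold gg; split_ifs; exacts [dl_nonneg _, le_rfl]

lemma gg_le (θ : ℝ) (s : ℕ → ℤ) (j : ℕ) : gg θ s j ≤ dl (s j) := by
  unfold gg; split_ifs; exacts [le_rfl, dl_nonneg _]

lemma sum_gg_ge {θ : ℝ} (hθ : 0 ≤ θ) (s : ℕ → ℤ) (M : ℕ) :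
    NN s M - θ ≤ ∑ j ∈ range (M + 1), gg θ s j := by
  have h : ∀ K : ℕ, ∑ j ∈ range K, (dl (s j) - gg θ s j) ≤ θ ∧
      ∑ j ∈ range K, (dl (s j) - gg θ s j) ≤ ∑ j ∈ range K, dl (s j) := by
    intro K
    induction K with
    | zero => simpa using hθ
    | succ K ih =>
      rw [Finset.sum_range_succ, Finset.sum_range_succ]
      have hg := gg_nonneg θ s K
      have hd := dl_nonneg (s K)
      refine ⟨?_, by linarith [ih.2]⟩
      have hgK : gg θ s K = if θ ≤ NN s K then dl (s K) else 0 := rfl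
      rw [hgK]
      split_ifs with hc
      · linarith [ih.1]
      · have : NN s K = ∑ j ∈ range K, dl (s j) + dl (s K) := by
          unfold NN; rw [Finset.sum_range_succ]
        rw [this] at hc
        push Not at hc
        linarith [ih.2]
  have h1 := (h (M + 1)).1
  rw [Finset.sum_sub_distrib] at h1
  unfold NN
  linarith

/-- interaction pattern of the path `s` up to time `j` -/
noncomputable def pat (s : ℕ → ℤ) (j : ℕ) (n : ℕ) : ℝ := if n < j then ind (s (n + 1)) else 0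

lemma pat01 (s : ℕ → ℤ) (j n : ℕ) : pat s j n = 0 ∨ pat s j n = 1 := by
  unfold pat ind; split_ifs <;> simp

lemma pat_nonneg (s : ℕ → ℤ) (j n : ℕ) : 0 ≤ pat s j n := by
  rcases pat01 s j n with h | h <;> rw [h]; norm_num

lemma pat_le (s : ℕ → ℤ) (j n : ℕ) : pat s j n ≤ ind (s (n + 1)) := by
  unfold pat; split_ifs; exacts [le_rfl, ind_nonneg _]

/-- the weighted number of late zeros -/
noncomputable def YY (p : ℤ → ℝ) (β h θ : ℝ) (M : ℕ) (ω : ℕ → ℝ) : ℝ :=
  expect p M 0 (fun s => ∑ j ∈ range (M + 1), gg θ s j * bw β h M (pat s j) ω)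

lemma YY_nonneg {p : ℤ → ℝ} (hp : IsTrans p) (β h θ : ℝ) (M : ℕ) (ω : ℕ → ℝ) :
    0 ≤ YY p β h θ M ω :=
  expect_nonneg hp M 0 fun s _ => Finset.sum_nonneg fun j _ =>
    mul_nonneg (gg_nonneg _ _ _) (bw_pos _ _ _ _ _).le

lemma YY_integrable {p : ℤ → ℝ} (hexp : ExpMom ν) (β h θ : ℝ) (M : ℕ) :
    Integrable (YY p β h θ M) (PP ν) :=
  (integral_expect M 0 _ fun s => integrable_finsetSum _ fun j _ =>
    (bw_integrable hexp β h M (pat s j)).const_mul _).1

lemma YY_mean {p : ℤ → ℝ} (hp : IsTrans p) (hexp : ExpMom ν) (β : ℝ) {θ : ℝ} (hθ : 0 ≤ θ) (M : ℕ) :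
    ∑ i ∈ range (M + 1), uu p i - θ ≤ ∫ ω, YY p β (cgf id ν β) θ M ω ∂(PP ν) := by
  have h1 := (integral_expect (p := p) (P := PP ν) M 0
    (fun s ω => ∑ j ∈ range (M + 1), gg θ s j * bw β (cgf id ν β) M (pat s j) ω)
    fun s => integrable_finsetSum _ fun j _ =>
    (bw_integrable hexp β (cgf id ν β) M (pat s j)).const_mul _).2
  have h2 : ∀ s : ℕ → ℤ, ∫ ω, ∑ j ∈ range (M + 1),
      gg θ s j * bw β (cgf id ν β) M (pat s j) ω ∂(PP ν) = ∑ j ∈ range (M + 1), gg θ s j := by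
    intro s
    rw [integral_finsetSum _ fun j _ =>
      (bw_integrable hexp β (cgf id ν β) M (pat s j)).const_mul _]
    refine Finset.sum_congr rfl fun j _ => ?_
    rw [integral_const_mul, integral_bw01 hexp _ _ _ _ (pat01 s j)]
    simp
  unfold YY
  rw [h1]
  simp only [h2]
  have h3 : expect p M 0 (fun s => NN s M + -θ) ≤
      expect p M 0 (fun s => ∑ j ∈ range (M + 1), gg θ s j) :=
    expect_mono hp M 0 fun s _ => by
      have := sum_gg_ge hθ s M
      linarith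
  rw [expect_add, expect_NN, expect_const] at h3
  linarith

lemma expect_sq_eq {p : ℤ → ℝ} (N : ℕ) (x : ℤ) (F : (ℕ → ℤ) → ℝ) :
    expect p N x F ^ 2 = expect2 p N x x (fun s s' => F s * F s') := by
  unfold expect2
  simp only [expect_mul_left]
  rw [expect_mul_right, sq]

lemma exp_overlap (lam : ℝ) (M : ℕ) (s s' : ℕ → ℤ) :
    Real.exp (lam * ∑ n ∈ range M, ind (s (n + 1)) * ind (s' (n + 1))) =
      ∏ n ∈ range M, (1 + (Real.exp lam - 1) * (ind (s (n + 1)) * ind (s' (n + 1)))) := by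
  rw [Finset.mul_sum, Real.exp_sum]
  refine Finset.prod_congr rfl fun n _ => ?_
  unfold ind
  split_ifs <;> simp

lemma YY_sq {α : ℝ} (h0 : 0 < α) (h1 : α < 1) {U2 : ℝ}
    (hU : ∀ N, ∑ m ∈ range N, uu (tr α) m ^ 2 ≤ U2) (hexp : ExpMom ν) (β : ℝ) {lam : ℝ}
    (hlam : |cgf id ν (2 * β) - 2 * cgf id ν β| ≤ lam)
    (hlam2 : (Real.exp (2 * lam) - 1) * (4 + 50 * U2) ≤ 1 / 2) (θ : ℝ) (M : ℕ) :
    Integrable (fun ω => YY (tr α) β (cgf id ν β) θ M ω ^ 2) (PP ν) ∧
    ∫ ω, YY (tr α) β (cgf id ν β) θ M ω ^ 2 ∂(PP ν) ≤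
      3 * (∑ i ∈ range (M + 1), uu (tr α) i) ^ 2 := by
  have hp := tr_isTrans h0 h1
  have hlam0 : 0 ≤ lam := (abs_nonneg _).trans hlam
  set h := cgf id ν β with hh
  set A := ∑ i ∈ range (M + 1), uu (tr α) i with hA
  have hApos : 0 < A := by
    rw [hA, Finset.sum_range_succ']
    have : 0 ≤ ∑ k ∈ range M, uu (tr α) (k + 1) := Finset.sum_nonneg fun k _ => uu_nonneg hp _
    rw [uu_zero]; linarith
  have e1 : ∀ ω, YY (tr α) β h θ M ω ^ 2 = expect2 (tr α) M 0 0 (fun s s' =>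
      ∑ j ∈ range (M + 1), ∑ j' ∈ range (M + 1), (gg θ s j * gg θ s' j') *
        (bw β h M (pat s j) ω * bw β h M (pat s' j') ω)) := by
    intro ω
    unfold YY
    rw [expect_sq_eq]
    refine expect2_congr M 0 0 fun s s' _ _ => ?_
    rw [Finset.sum_mul_sum]
    exact Finset.sum_congr rfl fun j _ => Finset.sum_congr rfl fun j' _ => by ring
  have hint : ∀ (s s' : ℕ → ℤ) (j j' : ℕ),
      Integrable (fun ω => bw β h M (pat s j) ω * bw β h M (pat s' j') ω) (PP ν) := by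
    intro s s' j j'
    simp only [bw_mul]
    exact bw_integrable hexp _ _ _ _
  have hint2 : ∀ s s' : ℕ → ℤ, Integrable (fun ω => ∑ j ∈ range (M + 1), ∑ j' ∈ range (M + 1),
      (gg θ s j * gg θ s' j') * (bw β h M (pat s j) ω * bw β h M (pat s' j') ω)) (PP ν) :=
    fun s s' => integrable_finsetSum _ fun j _ => integrable_finsetSum _ fun j' _ =>
      (hint s s' j j').const_mul _
  have r1 : ∀ s : ℕ → ℤ, Integrable (fun ω => expect (tr α) M 0 (fun s' =>
      ∑ j ∈ range (M + 1), ∑ j' ∈ range (M + 1), (gg θ s j * gg θ s' j') *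
        (bw β h M (pat s j) ω * bw β h M (pat s' j') ω))) (PP ν) ∧ _ := fun s =>
    integral_expect (p := tr α) M 0 (fun s' ω =>
      ∑ j ∈ range (M + 1), ∑ j' ∈ range (M + 1), (gg θ s j * gg θ s' j') *
        (bw β h M (pat s j) ω * bw β h M (pat s' j') ω)) (fun s' => hint2 s s')
  have r2 := integral_expect (p := tr α) M 0 (fun s ω => expect (tr α) M 0 (fun s' =>
      ∑ j ∈ range (M + 1), ∑ j' ∈ range (M + 1), (gg θ s j * gg θ s' j') *
        (bw β h M (pat s j) ω * bw β h M (pat s' j') ω))) (fun s => (r1 s).1)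
  have e2 : (fun ω => YY (tr α) β h θ M ω ^ 2) = fun ω => expect2 (tr α) M 0 0 (fun s s' =>
      ∑ j ∈ range (M + 1), ∑ j' ∈ range (M + 1), (gg θ s j * gg θ s' j') *
        (bw β h M (pat s j) ω * bw β h M (pat s' j') ω)) := funext e1
  refine ⟨by rw [e2]; exact r2.1, ?_⟩
  rw [e2]
  unfold expect2
  rw [r2.2]
  have e3 : ∀ s, (∫ ω, expect (tr α) M 0 (fun s' =>
      ∑ j ∈ range (M + 1), ∑ j' ∈ range (M + 1), (gg θ s j * gg θ s' j') *
        (bw β h M (pat s j) ω * bw β h M (pat s' j') ω)) ∂(PP ν)) =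
      expect (tr α) M 0 (fun s' => ∫ ω, ∑ j ∈ range (M + 1), ∑ j' ∈ range (M + 1),
        (gg θ s j * gg θ s' j') *
        (bw β h M (pat s j) ω * bw β h M (pat s' j') ω) ∂(PP ν)) := fun s => (r1 s).2
  simp only [e3]
  have e4 : ∀ s s' : ℕ → ℤ, (∫ ω, ∑ j ∈ range (M + 1), ∑ j' ∈ range (M + 1),
        (gg θ s j * gg θ s' j') *
        (bw β h M (pat s j) ω * bw β h M (pat s' j') ω) ∂(PP ν)) ≤
      NN s M * NN s' M *
        Real.exp (lam * ∑ n ∈ range M, ind (s (n + 1)) * ind (s' (n + 1))) := by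
    intro s s'
    rw [integral_finsetSum _ fun j _ => integrable_finsetSum _ fun j' _ =>
      (hint s s' j j').const_mul _]
    have e5 : ∀ j ∈ range (M + 1), (∫ ω, ∑ j' ∈ range (M + 1), (gg θ s j * gg θ s' j') *
        (bw β h M (pat s j) ω * bw β h M (pat s' j') ω) ∂(PP ν)) ≤
        ∑ j' ∈ range (M + 1), (dl (s j) * dl (s' j')) *
          Real.exp (lam * ∑ n ∈ range M, ind (s (n + 1)) * ind (s' (n + 1))) := by
      intro j _
      rw [integral_finsetSum _ fun j' _ => (hint s s' j j').const_mul _]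
      refine Finset.sum_le_sum fun j' _ => ?_
      rw [integral_const_mul, integral_bw_pair hexp _ _ _ _ (pat01 s j) (pat01 s' j')]
      have a1 := gg_nonneg θ s j
      have a2 := gg_nonneg θ s' j'
      have a3 := gg_le θ s j
      have a4 := gg_le θ s' j'
      have a5 : (cgf id ν (2 * β) - 2 * cgf id ν β) * ∑ n ∈ range M, pat s j n * pat s' j' n ≤
          lam * ∑ n ∈ range M, ind (s (n + 1)) * ind (s' (n + 1)) := by
        have b1 : 0 ≤ ∑ n ∈ range M, pat s j n * pat s' j' n :=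
          Finset.sum_nonneg fun n _ => mul_nonneg (pat_nonneg _ _ _) (pat_nonneg _ _ _)
        have b2 : ∑ n ∈ range M, pat s j n * pat s' j' n ≤
            ∑ n ∈ range M, ind (s (n + 1)) * ind (s' (n + 1)) :=
          Finset.sum_le_sum fun n _ => mul_le_mul (pat_le _ _ _) (pat_le _ _ _)
            (pat_nonneg _ _ _) (ind_nonneg _)
        calc _ ≤ lam * ∑ n ∈ range M, pat s j n * pat s' j' n :=
              mul_le_mul_of_nonneg_right ((le_abs_self _).trans hlam) b1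
          _ ≤ _ := mul_le_mul_of_nonneg_left b2 hlam0
      have a6 := Real.exp_le_exp.2 a5
      have a7 := dl_nonneg (s j)
      have a8 := dl_nonneg (s' j')
      gcongr
    refine (Finset.sum_le_sum e5).trans (le_of_eq ?_)
    unfold NN
    rw [Finset.sum_mul_sum, Finset.sum_mul]
    exact Finset.sum_congr rfl fun j _ => by rw [Finset.sum_mul]
  have e6 : ∀ s s' : ℕ → ℤ, NN s M * NN s' M *
        Real.exp (lam * ∑ n ∈ range M, ind (s (n + 1)) * ind (s' (n + 1))) ≤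
      (1 / (2 * A ^ 2)) * (NN s M ^ 2 * NN s' M ^ 2) + (A ^ 2 / 2) *
        ∏ n ∈ range M, (1 + (Real.exp (2 * lam) - 1) * (ind (s (n + 1)) * ind (s' (n + 1)))) := by
    intro s s'
    rw [← exp_overlap]
    set E := Real.exp (lam * ∑ n ∈ range M, ind (s (n + 1)) * ind (s' (n + 1))) with hE
    have e7 : Real.exp (2 * lam * ∑ n ∈ range M, ind (s (n + 1)) * ind (s' (n + 1))) = E ^ 2 := by
      rw [hE, ← Real.exp_nat_mul]; congr 1; push_cast; ring
    rw [e7]
    have e8 : (1 / (2 * A ^ 2)) * (NN s M ^ 2 * NN s' M ^ 2) + (A ^ 2 / 2) * E ^ 2 -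
        NN s M * NN s' M * E = (NN s M * NN s' M - A ^ 2 * E) ^ 2 / (2 * A ^ 2) := by
      field_simp
      ring
    have : 0 ≤ (NN s M * NN s' M - A ^ 2 * E) ^ 2 / (2 * A ^ 2) := by positivity
    linarith
  have hfin : expect2 (tr α) M 0 0 (fun s s' => ∫ ω, ∑ j ∈ range (M + 1), ∑ j' ∈ range (M + 1),
        (gg θ s j * gg θ s' j') *
        (bw β h M (pat s j) ω * bw β h M (pat s' j') ω) ∂(PP ν)) ≤ 3 * A ^ 2 := by
    refine (expect2_mono hp M 0 0 fun s s' _ _ => (e4 s s').trans (e6 s s')).trans ?_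
    rw [expect2_add, expect2_mul_left, expect2_mul_left]
    have e9 : expect2 (tr α) M 0 0 (fun s s' => NN s M ^ 2 * NN s' M ^ 2) =
        (expect (tr α) M 0 (fun s => NN s M ^ 2)) ^ 2 := (expect_sq_eq M 0 _).symm
    have e10 : expect2 (tr α) M 0 0 (fun s s' => ∏ n ∈ range M,
        (1 + (Real.exp (2 * lam) - 1) * (ind (s (n + 1)) * ind (s' (n + 1))))) ≤ 2 := by
      have := Phi_le h0 h1 hU (κ := Real.exp (2 * lam) - 1)
        (by have := Real.add_one_le_exp (2 * lam); linarith) hlam2 M 0 0 le_rfl le_rfl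
      rw [ww_zero] at this
      norm_num at this
      exact this
    have e11 := expect_NN_sq hp M
    have e12 : 0 ≤ expect (tr α) M 0 (fun s => NN s M ^ 2) :=
      expect_nonneg hp M 0 fun s _ => sq_nonneg _
    rw [e9]
    have e13 : (expect (tr α) M 0 (fun s => NN s M ^ 2)) ^ 2 ≤ (2 * A ^ 2) ^ 2 := by
      gcongr
    calc 1 / (2 * A ^ 2) * (expect (tr α) M 0 (fun s => NN s M ^ 2)) ^ 2 + A ^ 2 / 2 *
          expect2 (tr α) M 0 0 (fun s s' => ∏ n ∈ range M,
          (1 + (Real.exp (2 * lam) - 1) * (ind (s (n + 1)) * ind (s' (n + 1)))))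
        ≤ 1 / (2 * A ^ 2) * (2 * A ^ 2) ^ 2 + A ^ 2 / 2 * 2 := by
          gcongr
      _ = 3 * A ^ 2 := by field_simp; ring
  exact hfin

end Pool.Agent.H646R3.Cop
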