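import Pool.Agent.H646R3.Cop.Chain

/-!
# The chain: explicit first passage probabilities on the positive side
-/

set_option autoImplicit false

namespace Pool.Agent.H646R3.Cop

open Finset

/-- The up-probabilities of the chain: `9/10` at `x < 0`, `1/2` at even `x ≥ 0`, and
`((x + 1) / 2 - α) / x` at odd `x ≥ 1`. -/
noncomputable def tr (α : ℝ) (x : ℤ) : ℝ :=
  if x < 0 then 9 / 10 else if x % 2 = 0 then 1 / 2 else (((x : ℝ) + 1) / 2 - α) / x

lemma tr_neg (α : ℝ) {x : ℤ} (h : x < 0) : tr α x = 9 / 10 := by simp [tr, h]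

lemma tr_even (α : ℝ) (m : ℕ) : tr α (2 * m) = 1 / 2 := by
  have h1 : ¬ ((2 : ℤ) * m < 0) := by omega
  have h2 : (2 : ℤ) * m % 2 = 0 := by omega
  simp [tr, h1]

lemma tr_zero (α : ℝ) : tr α 0 = 1 / 2 := by simp [tr]

lemma tr_odd (α : ℝ) (m : ℕ) : tr α (2 * m + 1) = (m + 1 - α) / (2 * m + 1) := by
  have h1 : ¬ ((2 : ℤ) * m + 1 < 0) := by omega
  have h2 : ¬ ((2 : ℤ) * m + 1) % 2 = 0 := by omega
  simp only [tr, h1, h2, if_false]
  push_cast
  congr 1
  ring

lemma tr_isTrans {α : ℝ} (h0 : 0 < α) (h1 : α < 1) : IsTrans (tr α) := by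
  intro x
  rcases lt_or_ge x 0 with hx | hx
  · rw [tr_neg α hx]; norm_num
  · obtain ⟨n, rfl⟩ := Int.eq_ofNat_of_zero_le hx
    rcases Nat.even_or_odd' n with ⟨m, rfl | rfl⟩
    · have := tr_even α m
      push_cast
      rw [this]; norm_num
    · have := tr_odd α m
      push_cast
      rw [this]
      have hm : (0 : ℝ) ≤ m := Nat.cast_nonneg m
      constructor
      · apply div_pos <;> linarith
      · rw [div_lt_one (by linarith)]; linarith

/-- Pochhammer symbol -/
noncomputable def poch (a : ℝ) (k : ℕ) : ℝ := ∏ i ∈ range k, (a + i)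

lemma poch_zero (a : ℝ) : poch a 0 = 1 := by simp [poch]

lemma poch_succ (a : ℝ) (k : ℕ) : poch a (k + 1) = poch a k * (a + k) := by
  simp [poch, Finset.prod_range_succ]

lemma poch_succ' (a : ℝ) (k : ℕ) : poch a (k + 1) = a * poch (a + 1) k := by
  simp only [poch, Finset.prod_range_succ']
  rw [mul_comm]
  congr 1
  · simp
  · refine Finset.prod_congr rfl fun i _ => ?_
    push_cast; ring

lemma poch_pos {a : ℝ} (ha : 0 < a) (k : ℕ) : 0 < poch a k := by
  unfold poch
  exact Finset.prod_pos fun i _ => by positivity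

/-- constants -/
noncomputable def CC (α : ℝ) : ℕ → ℝ
  | 0 => 1
  | m + 1 => CC α m * ((m + α) / (2 * m + 1)) / 2

/-- first passage probability from `2 m` at time `2 (m + k)` -/
noncomputable def FF (α : ℝ) (m k : ℕ) : ℝ :=
  CC α m * poch (m + 1 - α) k * poch m k / (poch (2 * m + 1) k * k.factorial)

/-- first passage probability from `2 m + 1` at time `2 (m + k) + 1` -/
noncomputable def HH (α : ℝ) (m k : ℕ) : ℝ :=
  CC α m * ((m + α) / (2 * m + 1)) * poch (m + 1 - α) k * poch (m + 1) k /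
    (poch (2 * m + 2) k * k.factorial)

lemma HH_zero (α : ℝ) (m : ℕ) : HH α m 0 = ((m + α) / (2 * m + 1)) * FF α m 0 := by
  simp only [HH, FF, poch_zero, Nat.factorial_zero, Nat.cast_one]
  ring

lemma FF_zero (α : ℝ) (m : ℕ) : FF α (m + 1) 0 = 1 / 2 * HH α m 0 := by
  simp only [HH, FF, poch_zero, Nat.factorial_zero, Nat.cast_one, CC]
  ring

lemma HH_succ (α : ℝ) (m k : ℕ) : HH α m (k + 1) =
    ((m + 1 - α) / (2 * m + 1)) * FF α (m + 1) k + ((m + α) / (2 * m + 1)) * FF α m (k + 1) := by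
  have hm : (0 : ℝ) ≤ m := Nat.cast_nonneg m
  have hk : (0 : ℝ) ≤ k := Nat.cast_nonneg k
  have e1 : poch (m + 1 - α) (k + 1) = (m + 1 - α) * poch (m + 2 - α) k := by
    rw [poch_succ']; congr 2; ring
  have e2 : poch (m + 1 : ℝ) (k + 1) = poch (m + 1) k * (m + 1 + k) := poch_succ _ _
  have e3 : poch (m : ℝ) (k + 1) = m * poch (m + 1) k := poch_succ' _ _
  have e4 : poch (2 * m + 2 : ℝ) (k + 1) = (2 * m + 2) * poch (2 * m + 3) k := by
    rw [poch_succ']; congr 2; ring
  have e5 : poch (2 * m + 1 : ℝ) (k + 1) = (2 * m + 1) * poch (2 * m + 2) k := by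
    rw [poch_succ']; congr 2; ring
  have e6 : poch (2 * m + 2 : ℝ) k = (2 * m + 2) * poch (2 * m + 3) k / (2 * m + 2 + k) := by
    rw [eq_div_iff (by positivity), ← poch_succ, e4]
  have hD : 0 < poch (2 * m + 3 : ℝ) k := poch_pos (by positivity) k
  have hB : 0 < poch (m + 1 : ℝ) k := poch_pos (by positivity) k
  have hf : (0 : ℝ) < k.factorial := by exact_mod_cast Nat.factorial_pos k
  have c1 : ((m + 1 : ℕ) : ℝ) + 1 - α = m + 2 - α := by push_cast; ring
  have c2 : 2 * ((m + 1 : ℕ) : ℝ) + 1 = 2 * m + 3 := by push_cast; ring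
  simp only [HH, FF, CC, c1, c2]
  rw [e1, e2, e3, e4, e5, e6, Nat.factorial_succ]
  push_cast
  generalize poch (m + 2 - α) k = A
  generalize poch (2 * m + 3 : ℝ) k = D at *
  generalize poch (m + 1 : ℝ) k = B at *
  generalize CC α m = c
  generalize (k.factorial : ℝ) = f at *
  generalize (m : ℝ) = m at *
  generalize (k : ℝ) = k at *
  field_simp
  ring

lemma FF_succ (α : ℝ) (m k : ℕ) : FF α (m + 1) (k + 1) =
    1 / 2 * HH α (m + 1) k + 1 / 2 * HH α m (k + 1) := by
  have hm : (0 : ℝ) ≤ m := Nat.cast_nonneg m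
  have hk : (0 : ℝ) ≤ k := Nat.cast_nonneg k
  have e1 : poch (m + 1 - α) (k + 1) = (m + 1 - α) * poch (m + 2 - α) k := by
    rw [poch_succ']; congr 2; ring
  have e1' : poch (m + 2 - α) (k + 1) = poch (m + 2 - α) k * (m + 2 - α + k) := poch_succ _ _
  have e2 : poch (m + 1 : ℝ) (k + 1) = (m + 1) * poch (m + 2) k := by
    rw [poch_succ']; congr 2; ring
  have e4 : poch (2 * m + 3 : ℝ) (k + 1) = (2 * m + 3) * poch (2 * m + 4) k := by
    rw [poch_succ']; congr 2; ring
  have e5 : poch (2 * m + 2 : ℝ) (k + 1) = (2 * m + 2) * poch (2 * m + 3) k := by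
    rw [poch_succ']; congr 2; ring
  have e6 : poch (2 * m + 3 : ℝ) k = (2 * m + 3) * poch (2 * m + 4) k / (2 * m + 3 + k) := by
    rw [eq_div_iff (by positivity), ← poch_succ, e4]
  have hD : 0 < poch (2 * m + 4 : ℝ) k := poch_pos (by positivity) k
  have hB : 0 < poch (m + 2 : ℝ) k := poch_pos (by positivity) k
  have hf : (0 : ℝ) < k.factorial := by exact_mod_cast Nat.factorial_pos k
  have c1 : ((m + 1 : ℕ) : ℝ) + 1 - α = m + 2 - α := by push_cast; ring
  have c2 : 2 * ((m + 1 : ℕ) : ℝ) + 1 = 2 * m + 3 := by push_cast; ring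
  have c3 : 2 * ((m + 1 : ℕ) : ℝ) + 2 = 2 * m + 4 := by push_cast; ring
  have c4 : ((m + 1 : ℕ) : ℝ) + 1 = m + 2 := by push_cast; ring
  have c5 : ((m + 1 : ℕ) : ℝ) = m + 1 := by push_cast; ring
  simp only [HH, FF, CC, c2, c3, c4]
  rw [c5, e1, e1', e2, e4, e5, e6, Nat.factorial_succ]
  push_cast
  generalize poch (m + 2 - α) k = A
  generalize poch (2 * m + 4 : ℝ) k = D at *
  generalize poch (m + 2 : ℝ) k = B at *
  generalize CC α m = c
  generalize (k.factorial : ℝ) = f at *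
  generalize (m : ℝ) = m at *
  generalize (k : ℝ) = k at *
  field_simp
  ring

lemma fp_eq_zero_of_lt {p : ℤ → ℝ} : ∀ (n : ℕ) (x : ℤ), (n : ℤ) < |x| → fp p n x = 0
  | 0, x, h => by
    have : x ≠ 0 := by intro h0; subst h0; simp at h
    simp [fp, this]
  | n + 1, x, h => by
    have h0 : x ≠ 0 := by intro h0; subst h0; simp at h; omega
    have h1 : (n : ℤ) < |x + 1| := by
      push_cast at h
      have : |x| ≤ |x + 1| + 1 := by
        have := abs_sub (x + 1) 1
        simpa using this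
      omega
    have h2 : (n : ℤ) < |x - 1| := by
      push_cast at h
      have : |x| ≤ |x - 1| + 1 := by
        have := abs_add_le (x - 1) 1
        simpa using this
      omega
    simp [fp, h0, Pop, fp_eq_zero_of_lt n _ h1, fp_eq_zero_of_lt n _ h2]

lemma fp_eq_zero_of_parity {p : ℤ → ℝ} : ∀ (n : ℕ) (x : ℤ), ((n : ℤ) + x) % 2 = 1 → fp p n x = 0
  | 0, x, h => by
    have : x ≠ 0 := by intro h0; subst h0; simp at h
    simp [fp, this]
  | n + 1, x, h => by
    have h1 : ((n : ℤ) + (x + 1)) % 2 = 1 := by push_cast at h; omega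
    have h2 : ((n : ℤ) + (x - 1)) % 2 = 1 := by push_cast at h; omega
    simp only [fp, Pop, fp_eq_zero_of_parity n _ h1, fp_eq_zero_of_parity n _ h2]
    split_ifs <;> simp

lemma fp_explicit (α : ℝ) : ∀ N : ℕ,
    (∀ m k : ℕ, m + k = N → fp (tr α) (2 * N) (2 * (m : ℤ)) = FF α m k) ∧
    (∀ m k : ℕ, m + k = N → fp (tr α) (2 * N + 1) (2 * (m : ℤ) + 1) = HH α m k) := by
  intro N
  induction N with
  | zero =>
    have hF : ∀ m k : ℕ, m + k = 0 → fp (tr α) (2 * 0) (2 * (m : ℤ)) = FF α m k := by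
      intro m k h
      obtain rfl : m = 0 := by omega
      obtain rfl : k = 0 := by omega
      simp [fp, FF, CC, poch_zero]
    refine ⟨hF, ?_⟩
    intro m k h
    obtain rfl : m = 0 := by omega
    obtain rfl : k = 0 := by omega
    have e1 := tr_odd α 0
    simp only [mul_zero, zero_add, CharP.cast_eq_zero] at e1 ⊢
    simp only [fp, Pop, e1]
    norm_num [HH, CC, poch_zero]
  | succ N ih =>
    have hF : ∀ m k : ℕ, m + k = N + 1 → fp (tr α) (2 * (N + 1)) (2 * (m : ℤ)) = FF α m k := by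
      intro m k h
      cases m with
      | zero =>
        obtain rfl : k = N + 1 := by omega
        have h0 : poch (0 : ℝ) (N + 1) = 0 := by rw [poch_succ']; simp
        have : 2 * (N + 1) = (2 * N + 1) + 1 := by ring
        rw [this]
        simp [fp, FF, h0]
      | succ m =>
        have e : 2 * (N + 1) = (2 * N + 1) + 1 := by ring
        have hx : (2 * ((m + 1 : ℕ) : ℤ)) ≠ 0 := by push_cast; omega
        rw [e]
        rw [show fp (tr α) (2 * N + 1 + 1) (2 * ((m + 1 : ℕ) : ℤ)) =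
          Pop (tr α) (fp (tr α) (2 * N + 1)) (2 * ((m + 1 : ℕ) : ℤ)) from if_neg hx]
        unfold Pop
        rw [tr_even α (m + 1)]
        have hx2 : (2 * ((m + 1 : ℕ) : ℤ)) - 1 = 2 * (m : ℤ) + 1 := by push_cast; ring
        rw [hx2]
        rw [(ih.2 m k (by omega))]
        cases k with
        | zero =>
          have : fp (tr α) (2 * N + 1) (2 * ((m + 1 : ℕ) : ℤ) + 1) = 0 := by
            apply fp_eq_zero_of_lt
            rw [abs_of_nonneg (by positivity)]
            push_cast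
            omega
          rw [this, FF_zero]
          ring
        | succ k =>
          rw [ih.2 (m + 1) k (by omega), FF_succ]
          ring
    refine ⟨hF, ?_⟩
    intro m k h
    have hx : (2 * (m : ℤ) + 1) ≠ 0 := by omega
    have e : 2 * (N + 1) + 1 = (2 * (N + 1)) + 1 := rfl
    rw [e]
    rw [show fp (tr α) (2 * (N + 1) + 1) (2 * (m : ℤ) + 1) =
      Pop (tr α) (fp (tr α) (2 * (N + 1))) (2 * (m : ℤ) + 1) from if_neg hx]
    unfold Pop
    rw [tr_odd α m]
    have hx2 : (2 * (m : ℤ)) + 1 - 1 = 2 * (m : ℤ) := by ring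
    have hx3 : (2 * (m : ℤ)) + 1 + 1 = 2 * ((m + 1 : ℕ) : ℤ) := by push_cast; ring
    rw [hx2, hx3, hF m k h]
    have hm : (2 * (m : ℝ) + 1) ≠ 0 := by positivity
    have e1 : 1 - ((m : ℝ) + 1 - α) / (2 * m + 1) = (m + α) / (2 * m + 1) := by
      field_simp; ring
    rw [e1]
    cases k with
    | zero =>
      have : fp (tr α) (2 * (N + 1)) (2 * ((m + 1 : ℕ) : ℤ)) = 0 := by
        apply fp_eq_zero_of_lt
        rw [abs_of_nonneg (by positivity)]
        push_cast
        omega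
      rw [this, HH_zero]
      ring
    | succ k =>
      rw [hF (m + 1) k (by omega), HH_succ]

/-- tail -/
noncomputable def tl (α : ℝ) (k : ℕ) : ℝ := poch (1 - α) k / k.factorial

lemma tl_zero (α : ℝ) : tl α 0 = 1 := by simp [tl, poch_zero]

lemma tl_succ (α : ℝ) (k : ℕ) : tl α (k + 1) = tl α k * (1 - α / (k + 1)) := by
  unfold tl
  rw [poch_succ, Nat.factorial_succ]
  have hf : (0 : ℝ) < k.factorial := by exact_mod_cast Nat.factorial_pos k
  have hk : (0 : ℝ) ≤ k := Nat.cast_nonneg k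
  push_cast
  field_simp
  ring

lemma poch_one (k : ℕ) : poch 1 k = k.factorial := by
  induction k with
  | zero => simp [poch_zero]
  | succ k ih => rw [poch_succ, ih, Nat.factorial_succ]; push_cast; ring

lemma poch_two (k : ℕ) : poch 2 k = (k + 1).factorial := by
  have h := poch_succ' 1 k
  rw [poch_one, one_mul] at h
  rw [h]; norm_num

lemma fp_one (α : ℝ) (k : ℕ) : fp (tr α) (2 * k + 1) 1 = tl α k * (α / (k + 1)) := by
  have h := (fp_explicit α k).2 0 k (by omega)
  simp only [Nat.cast_zero, mul_zero, zero_add] at h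
  rw [h]
  simp only [HH, CC, tl, Nat.cast_zero, mul_zero, zero_add]
  rw [poch_one, poch_two, Nat.factorial_succ]
  have hf : (0 : ℝ) < k.factorial := by exact_mod_cast Nat.factorial_pos k
  have hk : (0 : ℝ) ≤ k := Nat.cast_nonneg k
  push_cast
  field_simp

lemma tl_pos {α : ℝ} (h1 : α < 1) (k : ℕ) : 0 < tl α k := by
  unfold tl
  have := poch_pos (a := 1 - α) (by linarith) k
  positivity

lemma tl_upper {α : ℝ} (h0 : 0 < α) (h1 : α < 1) (k : ℕ) : tl α k ≤ ((k : ℝ) + 1) ^ (-α) := by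
  induction k with
  | zero => simp [tl_zero]
  | succ k ih =>
    rw [tl_succ]
    have hk : (0 : ℝ) < (k : ℝ) + 1 := by positivity
    have hk2 : (0 : ℝ) < (k : ℝ) + 2 := by positivity
    have hb : (1 + 1 / ((k : ℝ) + 1)) ^ α ≤ 1 + α * (1 / ((k : ℝ) + 1)) :=
      rpow_one_add_le_one_add_mul_self (by
        have : (0 : ℝ) ≤ 1 / ((k : ℝ) + 1) := by positivity
        linarith) h0.le h1.le
    have e1 : (1 + 1 / ((k : ℝ) + 1)) = (k + 2) / (k + 1) := by field_simp; ring
    have hfrac : α / ((k : ℝ) + 1) < 1 := by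
      rw [div_lt_one hk]
      have : (0 : ℝ) ≤ k := Nat.cast_nonneg k
      linarith
    have hc : ((k + 1 : ℕ) : ℝ) + 1 = k + 2 := by push_cast; ring
    rw [hc]
    have e2 : ((k : ℝ) + 2) ^ (-α) = ((k : ℝ) + 1) ^ (-α) * (((k : ℝ) + 2) / (k + 1)) ^ (-α) := by
      rw [← Real.mul_rpow hk.le (by positivity)]
      congr 1
      field_simp
    rw [e2]
    have e3 : 1 - α / ((k : ℝ) + 1) ≤ (((k : ℝ) + 2) / (k + 1)) ^ (-α) := by
      rw [Real.rpow_neg (by positivity), ← e1]
      have hpos : 0 < (1 + 1 / ((k : ℝ) + 1)) ^ α := by positivity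
      rw [le_inv_comm₀ (by linarith) hpos]
      refine hb.trans ?_
      rw [← one_div, le_div_iff₀ (by linarith)]
      have : (1 + α * (1 / ((k : ℝ) + 1))) * (1 - α / (k + 1)) = 1 - (α / (k + 1)) ^ 2 := by ring
      rw [this]
      have := sq_nonneg (α / ((k : ℝ) + 1))
      linarith
    have h3 : 0 ≤ 1 - α / ((k : ℝ) + 1) := by linarith
    gcongr

lemma tl_lower {α : ℝ} (h0 : 0 < α) (h1 : α < 1) (k : ℕ) :
    (1 - α) * ((k : ℝ) + 1) ^ (-α) ≤ tl α (k + 1) := by
  induction k with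
  | zero => simp [tl_succ, tl_zero]
  | succ k ih =>
    rw [tl_succ]
    have hk : (0 : ℝ) < (k : ℝ) + 1 := by positivity
    have hk2 : (0 : ℝ) < (k : ℝ) + 2 := by positivity
    have hb : (1 + (- (1 / ((k : ℝ) + 2)))) ^ α ≤ 1 + α * (-(1 / ((k : ℝ) + 2))) :=
      rpow_one_add_le_one_add_mul_self (by
        have : 1 / ((k : ℝ) + 2) ≤ 1 := by
          rw [div_le_one hk2]
          have : (0 : ℝ) ≤ k := Nat.cast_nonneg k
          linarith
        linarith) h0.le h1.le
    have e1 : (1 + (-(1 / ((k : ℝ) + 2)))) = (k + 1) / (k + 2) := by field_simp; ring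
    have hc : ((k + 1 : ℕ) : ℝ) + 1 = k + 2 := by push_cast; ring
    rw [hc]
    have e2 : ((k : ℝ) + 2) ^ (-α) = ((k : ℝ) + 1) ^ (-α) * (((k : ℝ) + 1) / (k + 2)) ^ α := by
      rw [Real.rpow_neg hk2.le, Real.rpow_neg hk.le, Real.div_rpow hk.le hk2.le]
      have : 0 < ((k : ℝ) + 1) ^ α := by positivity
      field_simp
    rw [e2]
    have e3 : (((k : ℝ) + 1) / (k + 2)) ^ α ≤ 1 - α / ((k : ℝ) + 2) := by
      rw [← e1]
      refine hb.trans (le_of_eq ?_)
      ring
    have hpos : 0 ≤ (1 - α) * ((k : ℝ) + 1) ^ (-α) := by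
      have : 0 ≤ 1 - α := by linarith
      positivity
    calc (1 - α) * (((k : ℝ) + 1) ^ (-α) * (((k : ℝ) + 1) / (k + 2)) ^ α)
        = ((1 - α) * ((k : ℝ) + 1) ^ (-α)) * (((k : ℝ) + 1) / (k + 2)) ^ α := by ring
      _ ≤ tl α (k + 1) * (1 - α / ((k : ℝ) + 2)) := by
        have : 0 ≤ (((k : ℝ) + 1) / (k + 2)) ^ α := by positivity
        gcongr
        exact (tl_pos h1 _).le

end Pool.Agent.H646R3.Cop
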