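import Pool.Agent.H646R3.Cop.Upper

/-!
# Assembling the estimates
-/

set_option autoImplicit false

namespace Pool.Agent.H646R3.Cop

open Finset MeasureTheory ProbabilityTheory Filter Topology

/-- potential `φ = 1_{x ≤ 0}` of the copolymer model -/
noncomputable def copolymerPotential (x : ℤ) : ℝ := if x ≤ 0 then 1 else 0

/-- partition function `Z_{N,β,h}^ω = E [exp (∑_{n=1}^N (β ω_n - h) φ(S_n))]`, `S_0 = 0` -/
noncomputable def partitionFn (p : ℤ → ℝ) (φ : ℤ → ℝ) (β h : ℝ) (N : ℕ) (ω : ℕ → ℝ) : ℝ :=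
  expect p N 0 (fun s => Real.exp (∑ n ∈ Finset.Icc 1 N, (β * ω n - h) * φ (s n)))

/-- finite-volume quenched free energy `(1/N) E log Z_{N,β,h}^ω`, i.i.d. charges with law `ν` -/
noncomputable def quenched (p : ℤ → ℝ) (φ : ℤ → ℝ) (ν : Measure ℝ) [IsProbabilityMeasure ν]
    (β h : ℝ) (N : ℕ) : ℝ :=
  (∫ ω, Real.log (partitionFn p φ β h N ω) ∂(Measure.infinitePi (fun _ : ℕ => ν))) / N

lemma partitionFn_eq (p : ℤ → ℝ) (β h : ℝ) (N : ℕ) (ω : ℕ → ℝ) :
    partitionFn p copolymerPotential β h N ω = Zg p β h N 0 (fun _ => 1) ω := by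
  unfold partitionFn Zg
  refine expect_congr N 0 fun s _ => ?_
  rw [one_mul]
  congr 1
  have e : Finset.Icc 1 N = Finset.Ico 1 (N + 1) := by ext; simp
  rw [e, Finset.sum_Ico_eq_sum_range]
  refine Finset.sum_congr (by simp) fun n _ => ?_
  rw [add_comm 1 n]
  rfl

lemma recurrent_tr {α : ℝ} (h0 : 0 < α) (h1 : α < 1) : HasSum (firstReturn (tr α)) 1 := by
  have hp := tr_isTrans h0 h1
  rw [hasSum_iff_tendsto_nat_of_nonneg (firstReturn_nonneg hp)]
  rw [← tendsto_add_atTop_iff_nat 1]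
  have hT : Tendsto (TT (tr α)) atTop (𝓝 0) := by
    have hb : Tendsto (fun n : ℕ => 8 * ((n : ℝ) + 1) ^ (-α)) atTop (𝓝 0) := by
      have h2 : Tendsto (fun x : ℝ => x ^ (-α)) atTop (𝓝 0) := tendsto_rpow_neg_atTop h0
      have h3 : Tendsto (fun n : ℕ => (n : ℝ) + 1) atTop atTop :=
        tendsto_atTop_add_const_right _ _ tendsto_natCast_atTop_atTop
      have := (h2.comp h3).const_mul 8
      simpa using this
    exact squeeze_zero (fun n => TT_nonneg hp n) (fun n => TT_upper h0 h1 n) hb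
  have h2 : (fun n => ∑ m ∈ range (n + 1), firstReturn (tr α) m) = fun n => 1 - TT (tr α) n := by
    funext n; unfold TT; ring
  rw [h2]
  simpa using hT.const_sub 1

lemma firstReturn_bounds {α : ℝ} (h0 : 0 < α) (h1 : α < 1) : ∃ c C : ℝ, 0 < c ∧
    ∀ n : ℕ, 1 ≤ n → c * (n : ℝ) ^ (-(1 + α)) ≤ firstReturn (tr α) (2 * n) ∧
      firstReturn (tr α) (2 * n) ≤ C * (n : ℝ) ^ (-(1 + α)) := by
  have hα : 0 < 1 - α := by linarith
  refine ⟨α * (1 - α) / 2, 3, by positivity, ?_⟩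
  intro n hn
  obtain ⟨k, rfl⟩ : ∃ k, n = k + 1 := ⟨n - 1, by omega⟩
  have e : 2 * (k + 1) = (2 * k + 1) + 1 := by ring
  rw [e, firstReturn_succ]
  unfold Pop
  rw [tr_zero, zero_add, fp_one]
  have hk : (0 : ℝ) ≤ k := Nat.cast_nonneg k
  have hk1 : (0 : ℝ) < (k : ℝ) + 1 := by positivity
  have e2 : ((k + 1 : ℕ) : ℝ) ^ (-(1 + α)) = ((k : ℝ) + 1) ^ (-α) / ((k : ℝ) + 1) := by
    rw [show -(1 + α) = -α - 1 by ring]
    push_cast
    rw [Real.rpow_sub hk1, Real.rpow_one]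
  rw [e2]
  have h2 := fp_nonneg (tr_isTrans h0 h1) (2 * k + 1) (0 - 1)
  have h3 := (tl_lower h0 h1 k).trans (tl_anti h0 h1 k)
  have h4 := tl_upper h0 h1 k
  have h5 := fp_neg (α := α) (2 * k + 1) (0 - 1) (by norm_num)
  have e3 : ww (0 - 1) = 3 := by simp [ww]
  rw [e3] at h5
  have hx : 0 < ((k : ℝ) + 1) ^ (-α) := by positivity
  constructor
  · calc α * (1 - α) / 2 * (((k : ℝ) + 1) ^ (-α) / ((k : ℝ) + 1))
        = 1 / 2 * (((1 - α) * ((k : ℝ) + 1) ^ (-α)) * (α / ((k : ℝ) + 1))) := by ring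
      _ ≤ 1 / 2 * (tl α k * (α / ((k : ℝ) + 1))) := by gcongr
      _ ≤ _ := le_add_of_nonneg_right (mul_nonneg (by norm_num) h2)
  · have h6 : (3 / 5 : ℝ) ^ k ≤ (3 / 2) / ((k : ℝ) + 1) := by
      have h7 := one_add_mul_le_pow (a := (2 / 3 : ℝ)) (by norm_num) k
      have h8 : (3 / 5 : ℝ) ^ k = ((5 / 3 : ℝ) ^ k)⁻¹ := by rw [← inv_pow]; norm_num
      have h9 : (2 / 3 : ℝ) * ((k : ℝ) + 1) ≤ (5 / 3 : ℝ) ^ k := by
        calc (2 / 3 : ℝ) * ((k : ℝ) + 1) ≤ 1 + k * (2 / 3) := by linarith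
          _ ≤ (1 + 2 / 3) ^ k := h7
          _ = _ := by norm_num
      rw [h8]
      calc ((5 / 3 : ℝ) ^ k)⁻¹ ≤ ((2 / 3 : ℝ) * ((k : ℝ) + 1))⁻¹ := by
            apply inv_anti₀ (by positivity) h9
        _ = _ := by field_simp
    have h7 : (3 / 5 : ℝ) ^ (2 * k + 1) ≤ 3 / 5 * ((9 / 4) * (((k : ℝ) + 1) ^ (-α) / ((k : ℝ) + 1))) := by
      have h8 : ((k : ℝ) + 1)⁻¹ ≤ ((k : ℝ) + 1) ^ (-α) := by
        rw [← Real.rpow_neg_one]
        apply Real.rpow_le_rpow_of_exponent_le (by linarith) (by linarith)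
      calc (3 / 5 : ℝ) ^ (2 * k + 1) = 3 / 5 * ((3 / 5 : ℝ) ^ k * (3 / 5 : ℝ) ^ k) := by ring
        _ ≤ 3 / 5 * (((3 / 2) / ((k : ℝ) + 1)) * ((3 / 2) / ((k : ℝ) + 1))) := by gcongr
        _ = 3 / 5 * ((9 / 4) * (((k : ℝ) + 1)⁻¹ / ((k : ℝ) + 1))) := by ring
        _ ≤ _ := by gcongr
    have h8 : tl α k * (α / ((k : ℝ) + 1)) ≤ ((k : ℝ) + 1) ^ (-α) / ((k : ℝ) + 1) := by
      calc tl α k * (α / ((k : ℝ) + 1)) ≤ ((k : ℝ) + 1) ^ (-α) * (1 / ((k : ℝ) + 1)) := by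
            gcongr
        _ = _ := by ring
    have hX : 0 < ((k : ℝ) + 1) ^ (-α) / ((k : ℝ) + 1) := by positivity
    linarith

lemma exists_beta0 {ν : Measure ℝ} [IsProbabilityMeasure ν] (hexp : ExpMom ν) (D : ℝ) : ∃ β₀ > 0, ∀ β : ℝ, 0 < β → β < β₀ →
      (Real.exp (2 * |cgf id ν (2 * β) - 2 * cgf id ν β|) - 1) * D ≤ 1 / 2 := by
  have hc : Continuous (mgf id ν) := continuous_mgf hexp
  have hcg : Continuous (cgf id ν) := hc.log fun t => (mgf_pos' hexp t).ne'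
  have hF : Continuous fun β : ℝ =>
      (Real.exp (2 * |cgf id ν (2 * β) - 2 * cgf id ν β|) - 1) * D := by fun_prop
  have h0 : (fun β : ℝ =>
      (Real.exp (2 * |cgf id ν (2 * β) - 2 * cgf id ν β|) - 1) * D) 0 < 1 / 2 := by simp
  have h1 := hF.continuousAt.eventually_lt (continuousAt_const (y := (1 / 2 : ℝ))) h0
  rw [Metric.eventually_nhds_iff] at h1
  obtain ⟨ε, hε, h2⟩ := h1
  refine ⟨ε, hε, fun β hβ hβε => (h2 ?_).le⟩
  simp [abs_of_pos hβ, hβε]

section main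

variable {α : ℝ} (h0 : 0 < α) (h1 : α < 1) {ν : Measure ℝ} [IsProbabilityMeasure ν]
  (hexp : ExpMom ν)

include h0 h1 hexp

lemma quenched_zero (β h : ℝ) (hh : cgf id ν β ≤ h) :
    Tendsto (quenched (tr α) copolymerPotential ν β h) atTop (𝓝 0) := by
  have hp := tr_isTrans h0 h1
  have hα : 0 < 1 - α := by linarith
  have hup : ∀ N : ℕ, quenched (tr α) copolymerPotential ν β h N ≤ 0 := by
    intro N
    unfold quenched
    simp only [partitionFn_eq]
    apply div_nonpos_of_nonpos_of_nonneg _ (Nat.cast_nonneg N)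
    have := log_mean_le (ν := ν) hp hexp β h N (t := 1) (by
      refine (expect_mono hp N 0 (G := fun _ => 1) fun s _ => ?_).trans (by rw [expect_const])
      rw [Real.exp_le_one_iff]
      apply mul_nonpos_of_nonpos_of_nonneg (by linarith)
      exact Finset.sum_nonneg fun n _ => ind_nonneg _)
    rwa [Real.log_one] at this
  have hlow : ∀ N : ℕ, (Real.log ((1 - α) / 2) - Real.log ((N : ℝ) + 1)) / N ≤
      quenched (tr α) copolymerPotential ν β h N := by
    intro N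
    unfold quenched
    simp only [partitionFn_eq]
    apply div_le_div_of_nonneg_right _ (Nat.cast_nonneg N)
    have h2 := log_Z_blocks (ν := ν) h0 h1 hexp β h 0 rfl 0 N
    simp only [Nat.cast_zero, zero_mul, zero_add] at h2
    refine le_trans (le_of_eq ?_) h2
    rw [← Real.log_div (by positivity) (by positivity), div_div]
  have hlim : Tendsto (fun N : ℕ => (Real.log ((1 - α) / 2) - Real.log ((N : ℝ) + 1)) / N)
      atTop (𝓝 0) := by
    have a1 : Tendsto (fun N : ℕ => Real.log ((1 - α) / 2) / (N : ℝ)) atTop (𝓝 0) :=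
      tendsto_const_div_atTop_nhds_zero_nat _
    have a2 : Tendsto (fun N : ℕ => Real.log ((N : ℝ) + 1) / (N : ℝ)) atTop (𝓝 0) := by
      have b1 : Tendsto (fun x : ℝ => Real.log x / x) atTop (𝓝 0) := by
        have := Real.isLittleO_log_id_atTop.tendsto_div_nhds_zero
        simpa using this
      have b2 : Tendsto (fun N : ℕ => ((N : ℝ) + 1)) atTop atTop :=
        tendsto_atTop_add_const_right _ _ tendsto_natCast_atTop_atTop
      have b3 := b1.comp b2
      have b4 : Tendsto (fun N : ℕ => ((N : ℝ) + 1) / (N : ℝ)) atTop (𝓝 1) := by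
        have c1 : Tendsto (fun N : ℕ => 1 + 1 / (N : ℝ)) atTop (𝓝 (1 + 0)) :=
          tendsto_const_nhds.add tendsto_one_div_atTop_nhds_zero_nat
        rw [add_zero] at c1
        refine c1.congr' ?_
        filter_upwards [eventually_gt_atTop 0] with N hN
        have : (0 : ℝ) < N := by exact_mod_cast hN
        field_simp
      have b5 := b3.mul b4
      rw [zero_mul] at b5
      refine b5.congr' ?_
      filter_upwards [eventually_gt_atTop 0] with N hN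
      have : (0 : ℝ) < N := by exact_mod_cast hN
      simp only [Function.comp]
      field_simp
    have := a1.sub a2
    simp only [sub_zero, ← sub_div] at this
    exact this
  exact tendsto_of_tendsto_of_tendsto_of_le_of_le hlim tendsto_const_nhds hlow hup

lemma quenched_anti (β : ℝ) {h h' : ℝ} (hh : h ≤ h') (N : ℕ) :
    quenched (tr α) copolymerPotential ν β h' N ≤ quenched (tr α) copolymerPotential ν β h N := by
  have hp := tr_isTrans h0 h1
  unfold quenched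
  simp only [partitionFn_eq]
  apply div_le_div_of_nonneg_right _ (Nat.cast_nonneg N)
  have hi : ∀ h, Integrable (fun ω => Real.log (Zg (tr α) β h N 0 (fun _ => 1) ω)) (PP ν) :=
    fun h => log_Zg_integrable hexp hp β h N 0 (fun _ => zero_le_one) (by rw [one_iter]; norm_num)
  refine integral_mono (hi h') (hi h) fun ω => ?_
  have hpos : 0 < Zg (tr α) β h' N 0 (fun _ => 1) ω :=
    expect_pos hp N 0 fun s _ => by rw [one_mul]; exact Real.exp_pos _
  apply Real.log_le_log hpos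
  unfold Zg
  refine expect_mono hp N 0 fun s _ => ?_
  rw [one_mul, one_mul]
  apply Real.exp_le_exp.2
  refine Finset.sum_le_sum fun n _ => ?_
  have := ind_nonneg (s (n + 1))
  nlinarith

lemma quenched_upper (β : ℝ) : ∃ C δ₁ : ℝ, 0 < C ∧ 0 < δ₁ ∧ ∀ δ : ℝ, 0 < δ → δ < δ₁ →
    ∀ᶠ N in atTop, quenched (tr α) copolymerPotential ν β (cgf id ν β - δ) N ≤ C * δ ^ (1 / α) := by
  have hp := tr_isTrans h0 h1
  have hα : 0 < 1 - α := by linarith
  set c := (36 / (1 - α)) with hc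
  have hc0 : 0 < c := by positivity
  refine ⟨2 * c ^ (1 / α), min (1 / 10) (1 / c), by positivity, by positivity, ?_⟩
  intro δ hδ hδ1
  have hδ10 : δ ≤ 1 / 10 := (hδ1.trans_le (min_le_left _ _)).le
  have hδc : δ ≤ 1 / c := (hδ1.trans_le (min_le_right _ _)).le
  set f := (c * δ) ^ (1 / α) with hf
  have hcδ : 0 < c * δ := by positivity
  have hf0 : 0 < f := by positivity
  have hf1 : f ≤ 1 := by
    apply Real.rpow_le_one hcδ.le _ (by positivity)
    rw [le_div_iff₀ hc0] at hδc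
    linarith
  have hfα : f ^ α = c * δ := by
    rw [hf, ← Real.rpow_mul hcδ.le, one_div, inv_mul_cancel₀ h0.ne', Real.rpow_one]
  have hfδ : 6 * δ ≤ (1 - α) / 6 * f ^ α := by
    rw [hfα, hc]
    apply le_of_eq
    field_simp
    ring
  have hfe : f = c ^ (1 / α) * δ ^ (1 / α) := by rw [hf, Real.mul_rpow hc0.le hδ.le]
  have hlog : ∀ᶠ N : ℕ in atTop, Real.log ((N : ℝ) + 1) ≤ f * N := by
    have b1 : Tendsto (fun x : ℝ => Real.log x / x) atTop (𝓝 0) := by
      have := Real.isLittleO_log_id_atTop.tendsto_div_nhds_zero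
      simpa using this
    have b2 : Tendsto (fun N : ℕ => ((N : ℝ) + 1)) atTop atTop :=
      tendsto_atTop_add_const_right _ _ tendsto_natCast_atTop_atTop
    have b3 := (b1.comp b2).eventually (eventually_le_nhds (show (0 : ℝ) < f / 2 by positivity))
    filter_upwards [b3, eventually_ge_atTop 1] with N hN hN1
    simp only [Function.comp] at hN
    have hN1' : (1 : ℝ) ≤ N := by exact_mod_cast hN1
    rw [div_le_iff₀ (by positivity)] at hN
    nlinarith
  filter_upwards [hlog, eventually_ge_atTop 1] with N hN hN1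
  have hN1' : (1 : ℝ) ≤ N := by exact_mod_cast hN1
  unfold quenched
  simp only [partitionFn_eq]
  rw [div_le_iff₀ (by linarith)]
  have h2 := annealed_upper h0 h1 hδ hδ10 hf0 hf1 hfδ N
  have h3 := log_mean_le (ν := ν) hp hexp β (cgf id ν β - δ) N
    (t := ((N : ℝ) + 1) * Real.exp (f * N)) (by
      have e : cgf id ν β - (cgf id ν β - δ) = δ := by ring
      rw [e]; exact h2)
  rw [Real.log_mul (by positivity) (Real.exp_pos _).ne', Real.log_exp] at h3
  refine h3.trans ?_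
  have e : 2 * c ^ (1 / α) * δ ^ (1 / α) * (N : ℝ) = 2 * (f * N) := by rw [hfe]; ring
  rw [e]
  linarith

/-- finite-volume criterion -/
lemma quenched_criterion (hmean : ∫ x, x ∂ν = 0) {U2 : ℝ}
    (hU : ∀ N, ∑ m ∈ range N, uu (tr α) m ^ 2 ≤ U2) (β : ℝ)
    (hβ : (Real.exp (2 * |cgf id ν (2 * β) - 2 * cgf id ν β|) - 1) * (4 + 50 * U2) ≤ 1 / 2)
    (M : ℕ) (hM : M % 2 = 0) {δ : ℝ} (hδ : 0 ≤ δ)
    (hA : 4 ≤ (1 - α) / 8 * ((M : ℝ) + 1) ^ α)
    (hbig : 1 ≤ δ * ((1 - α) / 8 * ((M : ℝ) + 1) ^ α) / 256 + Real.log (α * (1 - α) / 2) -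
      3 * Real.log ((M : ℝ) + 2) - (cgf id ν β - δ)) :
    ∀ᶠ N in atTop, 1 / (2 * ((M : ℝ) + 2)) ≤
      quenched (tr α) copolymerPotential ν β (cgf id ν β - δ) N := by
  have hp := tr_isTrans h0 h1
  have hα : 0 < 1 - α := by linarith
  have hS := sum_uu_ge h0 h1 M
  have h2 := log_WW_mean (ν := ν) h0 h1 hU hexp β le_rfl hβ M hδ (hA.trans hS)
  have h3 := log_Zc_mean (ν := ν) h0 h1 hexp hmean β (cgf id ν β - δ) M hM
  have h4 : 1 ≤ ∫ ω, Real.log (Zg (tr α) β (cgf id ν β - δ) (M + 2) 0 dl ω) ∂(PP ν) := by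
    have : δ * ((1 - α) / 8 * ((M : ℝ) + 1) ^ α) / 256 ≤
        δ * (∑ i ∈ range (M + 1), uu (tr α) i) / 256 := by gcongr
    linarith
  set I := ∫ ω, Real.log (Zg (tr α) β (cgf id ν β - δ) (M + 2) 0 dl ω) ∂(PP ν) with hI
  set L : ℝ := (M : ℝ) + 2 with hL
  have hL0 : 0 < L := by rw [hL]; positivity
  set c := Real.log ((1 - α) / (2 * L)) with hc
  -- eventually N / (2 L) - 1 + c ≥ 0
  have hev : ∀ᶠ N : ℕ in atTop, 2 * L * (1 - c) ≤ (N : ℝ) :=
    tendsto_natCast_atTop_atTop.eventually_ge_atTop _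
  filter_upwards [hev, eventually_ge_atTop 1] with N hN hN1
  have hN1' : (1 : ℝ) ≤ N := by exact_mod_cast hN1
  unfold quenched
  simp only [partitionFn_eq]
  rw [le_div_iff₀ (by linarith)]
  have hdm := Nat.div_add_mod N (M + 2)
  have hr := Nat.mod_lt N (by omega : 0 < M + 2)
  have h5 := log_Z_blocks (ν := ν) h0 h1 hexp β (cgf id ν β - δ) (M + 2) (by omega)
    (N / (M + 2)) (N % (M + 2))
  rw [hdm, ← hI] at h5
  refine le_trans ?_ h5
  have h6 : c ≤ Real.log ((1 - α) / (2 * (((N % (M + 2) : ℕ) : ℝ) + 1))) := by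
    apply Real.log_le_log (by positivity)
    have : ((N % (M + 2) : ℕ) : ℝ) + 1 ≤ L := by
      rw [hL]
      exact_mod_cast hr
    gcongr
  have h7 : (N : ℝ) / L - 1 ≤ ((N / (M + 2) : ℕ) : ℝ) := by
    have h8 : (N : ℝ) = ((M + 2 : ℕ) : ℝ) * ((N / (M + 2) : ℕ) : ℝ) + ((N % (M + 2) : ℕ) : ℝ) := by
      exact_mod_cast hdm.symm
    have h9 : ((N % (M + 2) : ℕ) : ℝ) ≤ L := by
      rw [hL]
      exact_mod_cast hr.le
    have h10 : ((M + 2 : ℕ) : ℝ) = L := by rw [hL]; push_cast; ring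
    rw [h10] at h8
    have h11 : (N : ℝ) / L ≤ ((N / (M + 2) : ℕ) : ℝ) + 1 := by
      rw [div_le_iff₀ hL0]
      linarith
    linarith
  have h12 : ((N / (M + 2) : ℕ) : ℝ) ≤ ((N / (M + 2) : ℕ) : ℝ) * I := by
    have : (0 : ℝ) ≤ ((N / (M + 2) : ℕ) : ℝ) := Nat.cast_nonneg _
    nlinarith
  have h13 : 1 / (2 * L) * (N : ℝ) ≤ (N : ℝ) / L - 1 + c := by
    have e : (N : ℝ) / L = 2 * (1 / (2 * L) * (N : ℝ)) := by field_simp
    have h14 : 1 - c ≤ 1 / (2 * L) * (N : ℝ) := by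
      rw [div_mul_eq_mul_div, one_mul, le_div_iff₀ (by positivity)]
      linarith
    rw [e]
    linarith
  linarith

set_option maxHeartbeats 4000000 in
lemma quenched_lower (hmean : ∫ x, x ∂ν = 0) {U2 : ℝ}
    (hU : ∀ N, ∑ m ∈ range N, uu (tr α) m ^ 2 ≤ U2) (β : ℝ)
    (hβ : (Real.exp (2 * |cgf id ν (2 * β) - 2 * cgf id ν β|) - 1) * (4 + 50 * U2) ≤ 1 / 2)
    {r : ℝ} (hr : 1 / α < r) : ∃ δ₀ > 0, ∀ δ : ℝ, 0 < δ → δ < δ₀ →
    ∀ᶠ N in atTop, δ ^ r ≤ quenched (tr α) copolymerPotential ν β (cgf id ν β - δ) N := by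
  have hα : 0 < 1 - α := by linarith
  set s := (r + 1 / α) / 2 with hs
  have hs1 : 1 / α < s := by rw [hs]; linarith
  have hs2 : s < r := by rw [hs]; linarith
  have hs0 : 0 < s := lt_trans (by positivity) hs1
  have hαs : 1 < α * s := by
    rw [div_lt_iff₀ h0] at hs1
    linarith
  set η := (α * s - 1) / 2 with hη
  have hη0 : 0 < η := by rw [hη]; linarith
  set a := (1 - α) / 2048 with ha
  have ha0 : 0 < a := by rw [ha]; positivity
  set b := 3 * s / η with hb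
  have hb0 : 0 < b := by positivity
  set Cc := 1 - Real.log (α * (1 - α) / 2) + 3 * Real.log 6 + |cgf id ν β| with hCc
  have hinv : Tendsto (fun δ : ℝ => δ⁻¹) (𝓝[>] 0) atTop := tendsto_inv_nhdsGT_zero
  have E1 : ∀ᶠ δ : ℝ in 𝓝[>] 0, (b + |Cc| + 1) / a + 1 ≤ (δ⁻¹) ^ η :=
    ((tendsto_rpow_atTop hη0).comp hinv).eventually_ge_atTop _
  have E2 : ∀ᶠ δ : ℝ in 𝓝[>] 0, 12 ≤ (δ⁻¹) ^ (r - s) :=
    ((tendsto_rpow_atTop (by linarith : 0 < r - s)).comp hinv).eventually_ge_atTop _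
  have E3 : ∀ᶠ δ : ℝ in 𝓝[>] 0, 32 / (1 - α) ≤ (δ⁻¹) ^ (α * s) :=
    ((tendsto_rpow_atTop (by linarith : 0 < α * s)).comp hinv).eventually_ge_atTop _
  have E4 : ∀ᶠ δ : ℝ in 𝓝[>] 0, 1 ≤ δ⁻¹ := hinv.eventually_ge_atTop _
  have E := (E1.and (E2.and (E3.and E4)))
  rw [eventually_nhdsWithin_iff, Metric.eventually_nhds_iff] at E
  obtain ⟨δ₀, hδ₀, hE⟩ := E
  refine ⟨δ₀, hδ₀, fun δ hδ hδδ => ?_⟩
  obtain ⟨e1, e2, e3, e4⟩ := hE (by simpa [abs_of_pos hδ] using hδδ) hδ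
  set t := δ⁻¹ with ht
  have ht0 : 0 < t := by rw [ht]; positivity
  have hδt : δ = t⁻¹ := by rw [ht, inv_inv]
  set k := ⌈t ^ s⌉₊ with hk
  have hk1 : t ^ s ≤ k := Nat.le_ceil _
  have hk2 : (k : ℝ) < t ^ s + 1 := Nat.ceil_lt_add_one (by positivity)
  have hts1 : 1 ≤ t ^ s := Real.one_le_rpow e4 hs0.le
  set M := 2 * k with hM
  have hMr : (M : ℝ) = 2 * k := by rw [hM]; push_cast; ring
  have hM1 : t ^ s ≤ (M : ℝ) + 1 := by rw [hMr]; linarith
  have hM2 : (M : ℝ) + 2 ≤ 6 * t ^ s := by rw [hMr]; linarith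
  have hMα : t ^ (α * s) ≤ ((M : ℝ) + 1) ^ α := by
    calc t ^ (α * s) = (t ^ s) ^ α := by rw [← Real.rpow_mul ht0.le]; congr 1; ring
      _ ≤ ((M : ℝ) + 1) ^ α := by gcongr
  have hA : 4 ≤ (1 - α) / 8 * ((M : ℝ) + 1) ^ α := by
    rw [div_le_iff₀ hα] at e3
    nlinarith
  have hlogt : Real.log t ≤ t ^ η / η := Real.log_le_rpow_div ht0.le hη0
  have hlogM : Real.log ((M : ℝ) + 2) ≤ Real.log 6 + s * Real.log t := by
    have h2 : Real.log ((M : ℝ) + 2) ≤ Real.log (6 * t ^ s) :=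
      Real.log_le_log (by positivity) hM2
    rwa [Real.log_mul (by norm_num) (by positivity), Real.log_rpow ht0] at h2
  have hmain : a * (t ^ η) ^ 2 ≤ δ * ((1 - α) / 8 * ((M : ℝ) + 1) ^ α) / 256 := by
    have e5 : (t ^ η) ^ 2 = t⁻¹ * t ^ (α * s) := by
      rw [← Real.rpow_natCast, ← Real.rpow_mul ht0.le, ← Real.rpow_neg_one, ← Real.rpow_add ht0]
      congr 1
      rw [hη]; push_cast; ring
    rw [e5, ← hδt, ha]
    have : δ * t ^ (α * s) ≤ δ * ((M : ℝ) + 1) ^ α := by gcongr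
    nlinarith
  have hbig : 1 ≤ δ * ((1 - α) / 8 * ((M : ℝ) + 1) ^ α) / 256 + Real.log (α * (1 - α) / 2) -
      3 * Real.log ((M : ℝ) + 2) - (cgf id ν β - δ) := by
    set T := t ^ η with hT
    have hT1 : 1 ≤ T := Real.one_le_rpow e4 hη0.le
    have q1 : b + |Cc| + 1 ≤ a * T := by
      have : (b + |Cc| + 1) / a ≤ T := by linarith
      rw [div_le_iff₀ ha0] at this
      linarith
    have q2 : 3 * (s * Real.log t) ≤ b * T := by
      rw [hb]
      calc 3 * (s * Real.log t) ≤ 3 * (s * (T / η)) := by gcongr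
        _ = _ := by ring
    have q3 : b * T + |Cc| * T + T ≤ a * T ^ 2 := by
      calc b * T + |Cc| * T + T = (b + |Cc| + 1) * T := by ring
        _ ≤ a * T * T := mul_le_mul_of_nonneg_right q1 (by linarith)
        _ = a * T ^ 2 := by ring
    have q4 := le_abs_self Cc
    have q5 := le_abs_self (cgf id ν β)
    have q6 : |Cc| ≤ |Cc| * T := le_mul_of_one_le_right (abs_nonneg _) hT1
    have q7 : 3 * Real.log ((M : ℝ) + 2) ≤ 3 * Real.log 6 + b * T := by linarith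
    have q8 : 1 ≤ |Cc| + T + Real.log (α * (1 - α) / 2) - 3 * Real.log 6 - |cgf id ν β| := by
      linarith
    linarith
  have hcr := quenched_criterion h0 h1 hexp hmean hU β hβ M (by omega) hδ.le hA hbig
  filter_upwards [hcr] with N hN
  refine le_trans ?_ hN
  have h14 : δ ^ r = (t ^ r)⁻¹ := by rw [hδt, Real.inv_rpow ht0.le]
  rw [h14, one_div]
  apply inv_anti₀ (by positivity)
  have h15 : t ^ r = t ^ s * t ^ (r - s) := by rw [← Real.rpow_add ht0]; congr 1; ring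
  rw [h15]
  have : 0 < t ^ s := by positivity
  nlinarith

end main

end Pool.Agent.H646R3.Cop
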