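import Pool.Agent.H646R3.Cop.Disorder

/-!
# Partition functions
-/

set_option autoImplicit false

namespace Pool.Agent.H646R3.Cop

open Finset MeasureTheory ProbabilityTheory

/-- partition function with boundary function `g` -/
noncomputable def Zg (p : ℤ → ℝ) (β h : ℝ) (N : ℕ) (x : ℤ) (g : ℤ → ℝ) (ω : ℕ → ℝ) : ℝ :=
  expect p N x (fun s => g (s N) *
    Real.exp (∑ n ∈ range N, (β * ω (n + 1) - h) * ind (s (n + 1))))

/-- shift -/
def sh (a : ℕ) (ω : ℕ → ℝ) : ℕ → ℝ := fun n => ω (n + a)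

lemma sh_sh (a b : ℕ) (ω : ℕ → ℝ) : sh a (sh b ω) = sh (a + b) ω := by
  funext n; simp only [sh]; congr 1; ring

lemma splice_le {a : ℕ} {s s' : ℕ → ℤ} (h : s' 0 = s a) {n : ℕ} (hn : n ≤ a) :
    splice a s s' n = s n := by
  unfold splice
  rcases Nat.lt_or_ge n a with h1 | h1
  · rw [if_pos h1]
  · obtain rfl : n = a := by omega
    rw [if_neg (lt_irrefl _), Nat.sub_self, h]

lemma splice_add {a : ℕ} {s s' : ℕ → ℤ} (n : ℕ) : splice a s s' (a + n) = s' n := by
  unfold splice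
  rw [if_neg (by omega), Nat.add_sub_cancel_left]

lemma Zg_zero (p : ℤ → ℝ) (β h : ℝ) (x : ℤ) (g : ℤ → ℝ) (ω : ℕ → ℝ) :
    Zg p β h 0 x g ω = g x := by simp [Zg, expect]

lemma Zg_succ (p : ℤ → ℝ) (β h : ℝ) (N : ℕ) (x : ℤ) (g : ℤ → ℝ) (ω : ℕ → ℝ) :
    Zg p β h (N + 1) x g ω =
      p x * (Real.exp ((β * ω 1 - h) * ind (x + 1)) * Zg p β h N (x + 1) g (sh 1 ω)) +
      (1 - p x) * (Real.exp ((β * ω 1 - h) * ind (x - 1)) * Zg p β h N (x - 1) g (sh 1 ω)) := by
  have hA : ∀ y : ℤ, expect p N y (fun s => g (cons x s (N + 1)) *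
      Real.exp (∑ n ∈ range (N + 1), (β * ω (n + 1) - h) * ind (cons x s (n + 1)))) =
      Real.exp ((β * ω 1 - h) * ind y) * Zg p β h N y g (sh 1 ω) := by
    intro y
    unfold Zg
    rw [← expect_mul_left]
    refine expect_congr N _ fun s hs => ?_
    rw [cons_succ, Finset.sum_range_succ', Real.exp_add]
    simp only [cons_succ, hs, sh]
    ring
  conv_lhs => unfold Zg
  rw [expect, hA, hA]

lemma Zg_nonneg {p : ℤ → ℝ} (hp : IsTrans p) (β h : ℝ) (N : ℕ) (x : ℤ) {g : ℤ → ℝ}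
    (hg : ∀ x, 0 ≤ g x) (ω : ℕ → ℝ) : 0 ≤ Zg p β h N x g ω :=
  expect_nonneg hp N x fun s _ => mul_nonneg (hg _) (Real.exp_pos _).le

lemma Zg_superadd {p : ℤ → ℝ} (hp : IsTrans p) (β h : ℝ) (a b : ℕ) {g : ℤ → ℝ}
    (hg : ∀ x, 0 ≤ g x) (ω : ℕ → ℝ) :
    Zg p β h a 0 dl ω * Zg p β h b 0 g (sh a ω) ≤ Zg p β h (a + b) 0 g ω := by
  unfold Zg
  rw [expect_markov, ← expect_mul_right]
  refine expect_mono hp a 0 fun s _ => ?_
  set E : ℝ := Real.exp (∑ n ∈ range a, (β * ω (n + 1) - h) * ind (s (n + 1))) with hE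
  have key : ∀ s' : ℕ → ℤ, s' 0 = s a → g (splice a s s' (a + b)) * Real.exp
      (∑ n ∈ range (a + b), (β * ω (n + 1) - h) * ind (splice a s s' (n + 1))) =
      E * (g (s' b) * Real.exp (∑ n ∈ range b, (β * sh a ω (n + 1) - h) * ind (s' (n + 1)))) := by
    intro s' hs'
    rw [splice_add, Finset.sum_range_add, Real.exp_add]
    have e1 : ∑ n ∈ range a, (β * ω (n + 1) - h) * ind (splice a s s' (n + 1)) =
        ∑ n ∈ range a, (β * ω (n + 1) - h) * ind (s (n + 1)) := by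
      refine Finset.sum_congr rfl fun n hn => ?_
      rw [splice_le hs' (by have := Finset.mem_range.1 hn; omega)]
    have e2 : ∑ n ∈ range b, (β * ω (a + n + 1) - h) * ind (splice a s s' (a + n + 1)) =
        ∑ n ∈ range b, (β * sh a ω (n + 1) - h) * ind (s' (n + 1)) := by
      refine Finset.sum_congr rfl fun n _ => ?_
      rw [add_assoc, splice_add]
      simp only [sh]
      congr 4
      ring
    rw [e1, e2, ← hE]
    ring
  rw [expect_congr b (s a) key, expect_mul_left]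
  by_cases h0 : s a = 0
  · rw [h0]
    simp [dl]
  · have h1 : dl (s a) = 0 := by simp [dl, h0]
    rw [h1, zero_mul, zero_mul]
    exact mul_nonneg (Real.exp_pos _).le
      (expect_nonneg hp b _ fun s' _ => mul_nonneg (hg _) (Real.exp_pos _).le)

/-- single excursion lower bound -/
lemma Zg_fp {p : ℤ → ℝ} (hp : IsTrans p) (β h : ℝ) : ∀ (m : ℕ) (x : ℤ), 1 ≤ x →
    ∀ ω : ℕ → ℝ, fp p m x * Real.exp (β * ω m - h) ≤ Zg p β h m x dl ω
  | 0, x, hx, ω => by
    have h1 : x ≠ 0 := by omega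
    rw [Zg_zero]
    simp [fp, dl, h1]
  | m + 1, x, hx, ω => by
    have h1 : x ≠ 0 := by omega
    rw [Zg_succ]
    have e : fp p (m + 1) x = p x * fp p m (x + 1) + (1 - p x) * fp p m (x - 1) := by
      simp [fp, h1, Pop]
    have hx1 : ¬ x + 1 ≤ 0 := by omega
    have i1 : ind (x + 1) = 0 := by simp [ind, hx1]
    have hpx := hp x
    have e2 : sh 1 ω m = ω (m + 1) := rfl
    have h2 := Zg_fp hp β h m (x + 1) (by omega) (sh 1 ω)
    rw [e2] at h2
    have h3 : fp p m (x - 1) * Real.exp (β * ω (m + 1) - h) ≤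
        Real.exp ((β * ω 1 - h) * ind (x - 1)) * Zg p β h m (x - 1) dl (sh 1 ω) := by
      rcases eq_or_lt_of_le hx with h4 | h4
      · subst h4
        cases m with
        | zero => simp [fp, Zg_zero, dl, ind]
        | succ m =>
          have : fp p (m + 1) (1 - 1) = 0 := by simp [fp]
          rw [this, zero_mul]
          exact mul_nonneg (Real.exp_pos _).le (Zg_nonneg hp β h _ _ dl_nonneg _)
      · have hx2 : ¬ x - 1 ≤ 0 := by omega
        have i2 : ind (x - 1) = 0 := by simp [ind, hx2]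
        rw [i2, mul_zero, Real.exp_zero, one_mul]
        have h5 := Zg_fp hp β h m (x - 1) (by omega) (sh 1 ω)
        rw [e2] at h5
        exact h5
    rw [i1, mul_zero, Real.exp_zero, one_mul, e, add_mul, mul_assoc, mul_assoc]
    have : 0 ≤ 1 - p x := by linarith [hpx.2]
    have := hpx.1.le
    gcongr

/-- staying positive lower bound -/
lemma Zg_surv {p : ℤ → ℝ} (hp : IsTrans p) (β h : ℝ) : ∀ (m : ℕ) (x : ℤ), 1 ≤ x →
    ∀ ω : ℕ → ℝ, Qk p (fun _ => 1) m x ≤ Zg p β h m x (fun _ => 1) ω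
  | 0, x, hx, ω => by
    have h1 : x ≠ 0 := by omega
    rw [Zg_zero]
    simp [Qk, h1]
  | m + 1, x, hx, ω => by
    have h1 : x ≠ 0 := by omega
    rw [Zg_succ]
    have e : Qk p (fun _ => 1) (m + 1) x =
        p x * Qk p (fun _ => 1) m (x + 1) + (1 - p x) * Qk p (fun _ => 1) m (x - 1) := by
      simp [Qk, h1, Pop]
    have hx1 : ¬ x + 1 ≤ 0 := by omega
    have i1 : ind (x + 1) = 0 := by simp [ind, hx1]
    have hpx := hp x
    have h2 := Zg_surv hp β h m (x + 1) (by omega) (sh 1 ω)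
    have h3 : Qk p (fun _ => 1) m (x - 1) ≤
        Real.exp ((β * ω 1 - h) * ind (x - 1)) * Zg p β h m (x - 1) (fun _ => 1) (sh 1 ω) := by
      rcases eq_or_lt_of_le hx with h4 | h4
      · subst h4
        have : Qk p (fun _ => 1) m (1 - 1) = 0 := by cases m <;> simp [Qk]
        rw [this]
        exact mul_nonneg (Real.exp_pos _).le (Zg_nonneg hp β h _ _ (fun _ => zero_le_one) _)
      · have hx2 : ¬ x - 1 ≤ 0 := by omega
        have i2 : ind (x - 1) = 0 := by simp [ind, hx2]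
        rw [i2, mul_zero, Real.exp_zero, one_mul]
        exact Zg_surv hp β h m (x - 1) (by omega) (sh 1 ω)
    rw [i1, mul_zero, Real.exp_zero, one_mul, e]
    have : 0 ≤ 1 - p x := by linarith [hpx.2]
    have := hpx.1.le
    gcongr

section tr

variable {α : ℝ} (h0 : 0 < α) (h1 : α < 1)

include h0 h1

lemma tl_ge (k : ℕ) : (1 - α) / ((k : ℝ) + 1) ≤ tl α (k + 1) := by
  refine le_trans ?_ (tl_lower h0 h1 k)
  have : 0 ≤ 1 - α := by linarith
  rw [div_eq_mul_inv, ← Real.rpow_neg_one]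
  refine mul_le_mul_of_nonneg_left ?_ this
  apply Real.rpow_le_rpow_of_exponent_le
  · have : (0 : ℝ) ≤ k := Nat.cast_nonneg k
    linarith
  · linarith

lemma tl_anti (k : ℕ) : tl α (k + 1) ≤ tl α k := by
  rw [tl_succ]
  have h2 := (tl_pos h1 k).le
  have : 0 ≤ α / ((k : ℝ) + 1) := by positivity
  nlinarith

lemma Zfree_ge (β h : ℝ) (r : ℕ) (ω : ℕ → ℝ) :
    (1 - α) / (2 * ((r : ℝ) + 1)) ≤ Zg (tr α) β h r 0 (fun _ => 1) ω := by
  have hp := tr_isTrans h0 h1
  have hα : 0 < 1 - α := by linarith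
  cases r with
  | zero =>
    rw [Zg_zero]
    simp only [Nat.cast_zero, zero_add, mul_one]
    rw [div_le_one (by norm_num)]
    linarith
  | succ m =>
    have h2 := Zg_surv hp β h m 1 le_rfl (sh 1 ω)
    have h3 : (1 - α) / ((m : ℝ) + 1) ≤ Qk (tr α) (fun _ => 1) m 1 := by
      rcases Nat.even_or_odd' m with ⟨k, rfl | rfl⟩
      · rw [(surv_one_odd α k).1]
        refine le_trans ?_ ((tl_ge h0 h1 k).trans (tl_anti h0 h1 k))
        push_cast
        have : (0 : ℝ) ≤ k := Nat.cast_nonneg k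
        gcongr
        linarith
      · rw [(surv_one_odd α k).2]
        refine le_trans ?_ (tl_ge h0 h1 k)
        push_cast
        have : (0 : ℝ) ≤ k := Nat.cast_nonneg k
        gcongr
        linarith
    rw [Zg_succ]
    have i1 : ind (0 + 1) = 0 := by simp [ind]
    rw [i1, mul_zero, Real.exp_zero, one_mul, tr_zero]
    have h4 : 0 ≤ Real.exp ((β * ω 1 - h) * ind (0 - 1)) *
        Zg (tr α) β h m (0 - 1) (fun _ => 1) (sh 1 ω) :=
      mul_nonneg (Real.exp_pos _).le (Zg_nonneg hp β h _ _ (fun _ => zero_le_one) _)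
    have h5 : (1 - α) / (2 * (((m + 1 : ℕ) : ℝ) + 1)) ≤ 1 / 2 * ((1 - α) / ((m : ℝ) + 1)) := by
      rw [← div_div, div_eq_mul_one_div (1 - α) 2, mul_comm (1 - α) (1 / 2), mul_div_assoc]
      have : (0 : ℝ) ≤ m := Nat.cast_nonneg m
      push_cast
      gcongr
      linarith
    have h6 := h3.trans h2
    rw [zero_add]
    calc (1 - α) / (2 * (((m + 1 : ℕ) : ℝ) + 1)) ≤ 1 / 2 * ((1 - α) / ((m : ℝ) + 1)) := h5
      _ ≤ 1 / 2 * Zg (tr α) β h m 1 (fun _ => 1) (sh 1 ω) := by gcongr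
      _ ≤ _ := le_add_of_nonneg_right (mul_nonneg (by norm_num) h4)

lemma Zc_excursion (β h : ℝ) (n : ℕ) (hn : 2 ≤ n) (he : n % 2 = 0) (ω : ℕ → ℝ) :
    α * (1 - α) / (2 * ((n : ℝ)) ^ 2) * Real.exp (β * ω n - h) ≤ Zg (tr α) β h n 0 dl ω := by
  have hp := tr_isTrans h0 h1
  have hα : 0 < 1 - α := by linarith
  obtain ⟨k, rfl⟩ : ∃ k, n = (2 * k + 1) + 1 := ⟨n / 2 - 1, by omega⟩
  have h2 := Zg_fp hp β h (2 * k + 1) 1 le_rfl (sh 1 ω)
  rw [Zg_succ]
  have i1 : ind (0 + 1) = 0 := by simp [ind]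
  rw [i1, mul_zero, Real.exp_zero, one_mul, tr_zero]
  have h4 : 0 ≤ Real.exp ((β * ω 1 - h) * ind (0 - 1)) *
      Zg (tr α) β h (2 * k + 1) (0 - 1) dl (sh 1 ω) :=
    mul_nonneg (Real.exp_pos _).le (Zg_nonneg hp β h _ _ dl_nonneg _)
  have e2 : sh 1 ω (2 * k + 1) = ω (2 * k + 1 + 1) := rfl
  rw [e2, fp_one] at h2
  have hk : (0 : ℝ) ≤ k := Nat.cast_nonneg k
  have h5 : α * (1 - α) / ((((2 * k + 1 + 1 : ℕ) : ℝ)) ^ 2) ≤ tl α k * (α / (k + 1)) := by
    have h6 := (tl_ge h0 h1 k).trans (tl_anti h0 h1 k)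
    calc α * (1 - α) / ((((2 * k + 1 + 1 : ℕ) : ℝ)) ^ 2)
        ≤ α * (1 - α) / (((k : ℝ) + 1) ^ 2) := by
          push_cast
          gcongr
          linarith
      _ = (1 - α) / ((k : ℝ) + 1) * (α / (k + 1)) := by field_simp
      _ ≤ _ := by gcongr
  have h7 := mul_le_mul_of_nonneg_right h5 (Real.exp_pos (β * ω (2 * k + 1 + 1) - h)).le
  have h8 := h7.trans h2
  rw [zero_add]
  have e3 : α * (1 - α) / (2 * (((2 * k + 1 + 1 : ℕ) : ℝ)) ^ 2) *
      Real.exp (β * ω (2 * k + 1 + 1) - h) = 1 / 2 * (α * (1 - α) / ((((2 * k + 1 + 1 : ℕ) : ℝ)) ^ 2) *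
      Real.exp (β * ω (2 * k + 1 + 1) - h)) := by
    field_simp
  rw [e3]
  calc _ ≤ 1 / 2 * Zg (tr α) β h (2 * k + 1) 1 dl (sh 1 ω) := by gcongr
    _ ≤ _ := le_add_of_nonneg_right (mul_nonneg (by norm_num) h4)

end tr

lemma Zg_dl_odd {p : ℤ → ℝ} (β h : ℝ) : ∀ (m : ℕ) (x : ℤ), ((m : ℤ) + x) % 2 = 1 →
    ∀ ω : ℕ → ℝ, Zg p β h m x dl ω = 0
  | 0, x, hx, ω => by
    have : x ≠ 0 := by intro h0; subst h0; simp at hx
    rw [Zg_zero]; simp [dl, this]
  | m + 1, x, hx, ω => by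
    rw [Zg_succ, Zg_dl_odd β h m (x + 1) (by push_cast at hx; omega),
      Zg_dl_odd β h m (x - 1) (by push_cast at hx; omega)]
    simp

/-! ### Logarithms -/

lemma measurable_expect {p : ℤ → ℝ} (N : ℕ) : ∀ (x : ℤ) (F : (ℕ → ℤ) → (ℕ → ℝ) → ℝ),
    (∀ s, Measurable (F s)) → Measurable (fun ω => expect p N x (fun s => F s ω)) := by
  induction N with
  | zero => intro x F hF; exact hF _
  | succ N ih =>
    intro x F hF
    exact ((ih (x + 1) (fun s => F (cons x s)) (fun s => hF _)).const_mul _).add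
      ((ih (x - 1) (fun s => F (cons x s)) (fun s => hF _)).const_mul _)

lemma Zg_measurable {p : ℤ → ℝ} (β h : ℝ) (N : ℕ) (x : ℤ) (g : ℤ → ℝ) :
    Measurable (Zg p β h N x g) := by
  unfold Zg
  apply measurable_expect
  intro s
  fun_prop

/-- total strength of the charges -/
noncomputable def RR (β h : ℝ) (N : ℕ) (ω : ℕ → ℝ) : ℝ := ∑ n ∈ range N, |β * ω (n + 1) - h|

lemma RR_nonneg (β h : ℝ) (N : ℕ) (ω : ℕ → ℝ) : 0 ≤ RR β h N ω :=
  Finset.sum_nonneg fun _ _ => abs_nonneg _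

lemma RR_mono (β h : ℝ) {N M : ℕ} (hNM : N ≤ M) (ω : ℕ → ℝ) : RR β h N ω ≤ RR β h M ω :=
  Finset.sum_le_sum_of_subset_of_nonneg
    (fun x hx => Finset.mem_range.2 (by have := Finset.mem_range.1 hx; omega))
    (fun _ _ _ => abs_nonneg _)

lemma Zg_upper {p : ℤ → ℝ} (hp : IsTrans p) (β h : ℝ) (N : ℕ) (x : ℤ) {g : ℤ → ℝ}
    (hg : ∀ x, 0 ≤ g x) (ω : ℕ → ℝ) :
    Zg p β h N x g ω ≤ (Pop p)^[N] g x * Real.exp (RR β h N ω) := by
  unfold Zg
  rw [← expect_iterate, ← expect_mul_right]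
  refine expect_mono hp N x fun s _ => ?_
  refine mul_le_mul_of_nonneg_left (Real.exp_le_exp.2 ?_) (hg _)
  refine Finset.sum_le_sum fun n _ => ?_
  have h1 := ind_nonneg (s (n + 1))
  have h2 := ind_le_one (s (n + 1))
  have h3 := le_abs_self (β * ω (n + 1) - h)
  have h4 := abs_nonneg (β * ω (n + 1) - h)
  nlinarith

lemma Zg_lower {p : ℤ → ℝ} (hp : IsTrans p) (β h : ℝ) (N : ℕ) (x : ℤ) {g : ℤ → ℝ}
    (hg : ∀ x, 0 ≤ g x) (ω : ℕ → ℝ) :
    (Pop p)^[N] g x * Real.exp (-RR β h N ω) ≤ Zg p β h N x g ω := by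
  unfold Zg
  rw [← expect_iterate, ← expect_mul_right]
  refine expect_mono hp N x fun s _ => ?_
  refine mul_le_mul_of_nonneg_left (Real.exp_le_exp.2 ?_) (hg _)
  unfold RR
  rw [← Finset.sum_neg_distrib]
  refine Finset.sum_le_sum fun n _ => ?_
  have h1 := ind_nonneg (s (n + 1))
  have h2 := ind_le_one (s (n + 1))
  have h3 := neg_abs_le (β * ω (n + 1) - h)
  have h4 := abs_nonneg (β * ω (n + 1) - h)
  nlinarith

variable {ν : Measure ℝ} [IsProbabilityMeasure ν]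

lemma integrable_id_of_exp (hexp : ExpMom ν) : Integrable (fun x : ℝ => x) ν := by
  have h1 := (hexp 1).add (hexp (-1))
  refine h1.mono' (by fun_prop) (Filter.Eventually.of_forall fun x => ?_)
  simp only [one_mul, Real.norm_eq_abs, Pi.add_apply]
  have h2 := Real.add_one_le_exp x
  have h3 := Real.add_one_le_exp (-x)
  have h4 := Real.exp_pos x
  have h5 := Real.exp_pos (-x)
  rw [abs_le]
  constructor <;> norm_num <;> linarith

lemma integrable_coord (hexp : ExpMom ν) (n : ℕ) : Integrable (fun ω : ℕ → ℝ => ω n) (PP ν) :=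
  (measurePreserving_eval_infinitePi (fun _ : ℕ => ν) n).integrable_comp_of_integrable
    (integrable_id_of_exp hexp)

lemma integral_coord (n : ℕ) : ∫ ω : ℕ → ℝ, ω n ∂(PP ν) = ∫ x, x ∂ν := by
  have hmp := measurePreserving_eval_infinitePi (fun _ : ℕ => ν) n
  have h5 := integral_map (μ := PP ν) hmp.measurable.aemeasurable
    (f := fun x : ℝ => x) (by fun_prop)
  rw [hmp.map_eq] at h5
  rw [h5]

lemma RR_integrable (hexp : ExpMom ν) (β h : ℝ) (N : ℕ) : Integrable (RR β h N) (PP ν) := by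
  unfold RR
  refine integrable_finsetSum _ fun n _ => ?_
  exact (((integrable_coord hexp (n + 1)).const_mul β).sub (integrable_const h)).abs

lemma log_integrable_of_bounds (hexp : ExpMom ν) (β h : ℝ) (N : ℕ) {G : (ℕ → ℝ) → ℝ}
    (hG : Measurable G) {c C : ℝ} (hc : 0 < c) (hC : 0 < C)
    (h1 : ∀ ω, c * Real.exp (-RR β h N ω) ≤ G ω) (h2 : ∀ ω, G ω ≤ C * Real.exp (RR β h N ω)) :
    Integrable (fun ω => Real.log (G ω)) (PP ν) := by
  have hb : Integrable (fun ω => |Real.log c| + |Real.log C| + RR β h N ω) (PP ν) :=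
    (integrable_const _).add (RR_integrable hexp β h N)
  refine hb.mono' (hG.log.aestronglyMeasurable) (Filter.Eventually.of_forall fun ω => ?_)
  have hR := RR_nonneg β h N ω
  have h3 : 0 < c * Real.exp (-RR β h N ω) := by positivity
  have h4 : 0 < G ω := lt_of_lt_of_le h3 (h1 ω)
  have h5 := Real.log_le_log h3 (h1 ω)
  have h6 := Real.log_le_log h4 (h2 ω)
  rw [Real.log_mul hc.ne' (Real.exp_pos _).ne', Real.log_exp] at h5
  rw [Real.log_mul hC.ne' (Real.exp_pos _).ne', Real.log_exp] at h6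
  rw [Real.norm_eq_abs, abs_le]
  have := neg_abs_le (Real.log c)
  have := le_abs_self (Real.log C)
  have := abs_nonneg (Real.log C)
  have := abs_nonneg (Real.log c)
  constructor <;> linarith

lemma log_Zg_integrable (hexp : ExpMom ν) {p : ℤ → ℝ} (hp : IsTrans p) (β h : ℝ) (N : ℕ) (x : ℤ)
    {g : ℤ → ℝ} (hg : ∀ x, 0 ≤ g x) (hpos : 0 < (Pop p)^[N] g x) :
    Integrable (fun ω => Real.log (Zg p β h N x g ω)) (PP ν) :=
  log_integrable_of_bounds hexp β h N (Zg_measurable β h N x g) hpos hpos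
    (Zg_lower hp β h N x hg) (Zg_upper hp β h N x hg)

lemma sh_mp (a : ℕ) : MeasurePreserving (sh a) (PP ν) (PP ν) := by
  refine ⟨?_, ?_⟩
  · unfold sh; fun_prop
  · exact Measure.map_infinitePi_infinitePi_of_inj (P := fun _ : ℕ => ν)
      (f := fun n : ℕ => n + a) (fun x y h => by simpa using h)

lemma integral_sh (a : ℕ) {G : (ℕ → ℝ) → ℝ} (hG : Measurable G) :
    ∫ ω, G (sh a ω) ∂(PP ν) = ∫ ω, G ω ∂(PP ν) := by
  have h1 := sh_mp (ν := ν) a
  have h2 := integral_map (μ := PP ν) h1.measurable.aemeasurable (f := G)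
    hG.aestronglyMeasurable
  rw [h1.map_eq] at h2
  exact h2.symm

lemma uu_even_pos {p : ℤ → ℝ} (hp : IsTrans p) (k : ℕ) : 0 < uu p (2 * k) := by
  induction k with
  | zero => rw [mul_zero, uu_zero]; norm_num
  | succ k ih =>
    have h2 : 0 < firstReturn p 2 := by
      rw [firstReturn_succ]
      have e1 : fp p 1 (0 + 1) = 1 - p 1 := by simp [fp, Pop]
      have e2 := fp_nonneg hp 1 (0 - 1)
      unfold Pop
      rw [e1]
      have h3 := (hp 0).1
      have h4 := (hp 0).2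
      have h5 := (hp 1).2
      have : 0 < p 0 * (1 - p 1) := mul_pos h3 (by linarith)
      have : 0 ≤ (1 - p 0) * fp p 1 (0 - 1) := mul_nonneg (by linarith) e2
      linarith
    have e : 2 * (k + 1) = (2 * k + 1) + 1 := by ring
    have h3 : firstReturn p 2 * uu p (2 * k) ≤ uu p (2 * (k + 1)) := by
      rw [e]
      unfold uu
      rw [return_decomp]
      have h4 : Qk p dl (2 * k + 1) = fun _ => 0 := funext (Qk_dl _)
      have h5 : Pop p (Qk p dl (2 * k + 1)) 0 = 0 := by rw [h4]; simp [Pop]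
      rw [h5, zero_add]
      have h6 := Finset.single_le_sum (f := fun m => firstReturn p (m + 1) *
        (Pop p)^[2 * k + 1 - m] dl 0) (s := range (2 * k + 1 + 1)) (fun m _ =>
          mul_nonneg (firstReturn_nonneg hp _) (uu_nonneg hp _))
        (Finset.mem_range.2 (by omega : 1 < 2 * k + 1 + 1))
      simpa using h6
    exact lt_of_lt_of_le (mul_pos h2 ih) h3

end Pool.Agent.H646R3.Cop
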