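import Pool.Agent.H646R3.Cop.LogZ

/-!
# Lower bound on the quenched free energy
-/

set_option autoImplicit false

namespace Pool.Agent.H646R3.Cop

open Finset MeasureTheory ProbabilityTheory

lemma expect_extend {p : ℤ → ℝ} {j b : ℕ} {x : ℤ} {F : (ℕ → ℤ) → ℝ}
    (hF : ∀ s s' : ℕ → ℤ, (∀ i ≤ j, s i = s' i) → F s = F s') :
    expect p (j + b) x F = expect p j x F := by
  rw [expect_markov]
  refine expect_congr j x fun s _ => ?_
  rw [expect_congr b (s j) (G := fun _ => F s) (fun s' hs' =>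
    hF _ _ fun i hi => splice_le hs' hi), expect_const]

lemma Zg_extend {p : ℤ → ℝ} (β h : ℝ) {j M : ℕ} (hj : j ≤ M) (g : ℤ → ℝ) (ω : ℕ → ℝ) :
    Zg p β h j 0 g ω = expect p M 0 (fun s => g (s j) *
      Real.exp (∑ n ∈ range j, (β * ω (n + 1) - h) * ind (s (n + 1)))) := by
  obtain ⟨b, rfl⟩ := Nat.exists_eq_add_of_le hj
  unfold Zg
  rw [expect_extend]
  intro s s' hs
  rw [hs j le_rfl]
  congr 2
  refine Finset.sum_congr rfl fun n hn => ?_
  rw [hs (n + 1) (by have := Finset.mem_range.1 hn; omega)]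

/-- sum of the constrained partition functions -/
noncomputable def WW (p : ℤ → ℝ) (β h : ℝ) (M : ℕ) (ω : ℕ → ℝ) : ℝ :=
  ∑ j ∈ range (M + 1), Zg p β h j 0 dl ω

lemma dl_zero : dl 0 = 1 := by simp [dl]

lemma WW_one_le {p : ℤ → ℝ} (hp : IsTrans p) (β h : ℝ) (M : ℕ) (ω : ℕ → ℝ) :
    1 ≤ WW p β h M ω := by
  unfold WW
  rw [Finset.sum_range_succ', Zg_zero, dl_zero]
  have : 0 ≤ ∑ k ∈ range M, Zg p β h (k + 1) 0 dl ω :=
    Finset.sum_nonneg fun k _ => Zg_nonneg hp β h _ _ dl_nonneg _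
  linarith

lemma NN_le (s : ℕ → ℤ) (j : ℕ) : NN s j ≤ 1 + ∑ n ∈ range j, ind (s (n + 1)) := by
  unfold NN
  rw [Finset.sum_range_succ', add_comm]
  have h1 : dl (s 0) ≤ 1 := by unfold dl; split_ifs <;> norm_num
  have h2 : ∑ k ∈ range j, dl (s (k + 1)) ≤ ∑ n ∈ range j, ind (s (n + 1)) := by
    refine Finset.sum_le_sum fun n _ => ?_
    unfold dl ind
    by_cases h : s (n + 1) = 0
    · simp [h]
    · rw [if_neg h]; split_ifs <;> norm_num
  linarith

lemma WW_ge_YY {p : ℤ → ℝ} (hp : IsTrans p) (β h : ℝ) {δ θ : ℝ} (hδ : 0 ≤ δ) (M : ℕ)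
    (ω : ℕ → ℝ) :
    Real.exp (δ * (θ - 1)) * YY p β h θ M ω ≤ WW p β (h - δ) M ω := by
  unfold YY WW
  have e1 : ∑ j ∈ range (M + 1), Zg p β (h - δ) j 0 dl ω = expect p M 0 (fun s =>
      ∑ j ∈ range (M + 1), dl (s j) *
        Real.exp (∑ n ∈ range j, (β * ω (n + 1) - (h - δ)) * ind (s (n + 1)))) := by
    rw [expect_sum]
    refine Finset.sum_congr rfl fun j hj => ?_
    have hjM : j ≤ M := by have := Finset.mem_range.1 hj; omega
    rw [Zg_extend β (h - δ) hjM dl ω]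
  rw [e1, ← expect_mul_left]
  refine expect_mono hp M 0 fun s _ => ?_
  rw [Finset.mul_sum]
  refine Finset.sum_le_sum fun j hj => ?_
  have hj' := Finset.mem_range.1 hj
  have e2 : bw β h M (pat s j) ω =
      Real.exp (∑ n ∈ range j, (β * ω (n + 1) - h) * ind (s (n + 1))) := by
    unfold bw
    congr 1
    obtain ⟨b, hb⟩ := Nat.exists_eq_add_of_le (by omega : j ≤ M)
    rw [hb, Finset.sum_range_add]
    have z : ∑ x ∈ range b, (β * ω (j + x + 1) - h) * pat s j (j + x) = 0 := by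
      refine Finset.sum_eq_zero fun x _ => ?_
      unfold pat
      rw [if_neg (by omega), mul_zero]
    rw [z, add_zero]
    refine Finset.sum_congr rfl fun n hn => ?_
    unfold pat
    rw [if_pos (Finset.mem_range.1 hn)]
  rw [e2]
  have e3 : ∑ n ∈ range j, (β * ω (n + 1) - (h - δ)) * ind (s (n + 1)) =
      ∑ n ∈ range j, (β * ω (n + 1) - h) * ind (s (n + 1)) +
        δ * ∑ n ∈ range j, ind (s (n + 1)) := by
    rw [Finset.mul_sum, ← Finset.sum_add_distrib]
    exact Finset.sum_congr rfl fun n _ => by ring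
  rw [e3, Real.exp_add]
  unfold gg
  split_ifs with hc
  · have h1 := NN_le s j
    have h2 : Real.exp (δ * (θ - 1)) ≤ Real.exp (δ * ∑ n ∈ range j, ind (s (n + 1))) := by
      apply Real.exp_le_exp.2
      apply mul_le_mul_of_nonneg_left _ hδ
      linarith
    have h3 := dl_nonneg (s j)
    have h4 := (Real.exp_pos (∑ n ∈ range j, (β * ω (n + 1) - h) * ind (s (n + 1)))).le
    calc Real.exp (δ * (θ - 1)) * (dl (s j) *
          Real.exp (∑ n ∈ range j, (β * ω (n + 1) - h) * ind (s (n + 1))))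
        ≤ Real.exp (δ * ∑ n ∈ range j, ind (s (n + 1))) * (dl (s j) *
          Real.exp (∑ n ∈ range j, (β * ω (n + 1) - h) * ind (s (n + 1)))) := by gcongr
      _ = _ := by ring
  · rw [zero_mul, mul_zero]
    have h3 := dl_nonneg (s j)
    positivity

variable {ν : Measure ℝ} [IsProbabilityMeasure ν]

lemma WW_measurable {p : ℤ → ℝ} (β h : ℝ) (M : ℕ) : Measurable (WW p β h M) := by
  unfold WW
  exact Finset.measurable_sum _ fun j _ => Zg_measurable β h j 0 dl

lemma iter_le_one {p : ℤ → ℝ} (hp : IsTrans p) {f : ℤ → ℝ} (hf : ∀ x, f x ≤ 1) (n : ℕ) (x : ℤ) :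
    (Pop p)^[n] f x ≤ 1 := by
  have h := iter_mono hp (g := fun _ => 1) hf n x
  have h1 : ∀ (k : ℕ) (y : ℤ), (Pop p)^[k] (fun _ => (1 : ℝ)) y = 1 := by
    intro k
    induction k with
    | zero => intro y; rfl
    | succ k ih =>
      intro y
      rw [Function.iterate_succ_apply']
      simp only [Pop, ih]
      ring
  rwa [h1] at h

lemma dl_le_one (x : ℤ) : dl x ≤ 1 := by unfold dl; split_ifs <;> norm_num

lemma log_WW_integrable (hexp : ExpMom ν) {p : ℤ → ℝ} (hp : IsTrans p) (β h : ℝ) (M : ℕ) :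
    Integrable (fun ω => Real.log (WW p β h M ω)) (PP ν) := by
  refine log_integrable_of_bounds hexp β h M (WW_measurable β h M) (c := 1) (C := (M : ℝ) + 1)
    one_pos (by positivity) (fun ω => ?_) (fun ω => ?_)
  · have h1 := WW_one_le hp β h M ω
    have h2 : Real.exp (-RR β h M ω) ≤ 1 := by
      rw [Real.exp_le_one_iff]
      have := RR_nonneg β h M ω
      linarith
    linarith
  · unfold WW
    have h3 : ∀ j ∈ range (M + 1), Zg p β h j 0 dl ω ≤ Real.exp (RR β h M ω) := by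
      intro j hj
      have hj' := Finset.mem_range.1 hj
      refine (Zg_upper hp β h j 0 dl_nonneg ω).trans ?_
      have h4 : Real.exp (RR β h j ω) ≤ Real.exp (RR β h M ω) :=
        Real.exp_le_exp.2 (RR_mono β h (by omega) ω)
      have h5 := iter_le_one hp dl_le_one j 0
      have h6 := (Real.exp_pos (RR β h j ω)).le
      nlinarith
    refine (Finset.sum_le_sum h3).trans (le_of_eq ?_)
    simp

lemma log_WW_mean {α : ℝ} (h0 : 0 < α) (h1 : α < 1) {U2 : ℝ}
    (hU : ∀ N, ∑ m ∈ range N, uu (tr α) m ^ 2 ≤ U2) (hexp : ExpMom ν) (β : ℝ) {lam : ℝ}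
    (hlam : |cgf id ν (2 * β) - 2 * cgf id ν β| ≤ lam)
    (hlam2 : (Real.exp (2 * lam) - 1) * (4 + 50 * U2) ≤ 1 / 2) (M : ℕ) {δ : ℝ} (hδ : 0 ≤ δ)
    (hA : 4 ≤ ∑ i ∈ range (M + 1), uu (tr α) i) :
    δ * (∑ i ∈ range (M + 1), uu (tr α) i) / 256 ≤
      ∫ ω, Real.log (WW (tr α) β (cgf id ν β - δ) M ω) ∂(PP ν) := by
  have hp := tr_isTrans h0 h1
  set A := ∑ i ∈ range (M + 1), uu (tr α) i with hAdef
  set Y := YY (tr α) β (cgf id ν β) (A / 2) M with hY
  have hm1 := YY_mean hp hexp β (θ := A / 2) (by linarith) M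
  have hm2 := YY_sq h0 h1 hU hexp β hlam hlam2 (A / 2) M
  have hi := YY_integrable (p := tr α) hexp β (cgf id ν β) (A / 2) M
  rw [← hY] at hm1 hm2 hi
  set B := δ * (A / 2 - 1) with hB
  have hB0 : 0 ≤ B := mul_nonneg hδ (by linarith)
  set K := 16 * A with hK
  have hK0 : 0 < K := by rw [hK]; linarith
  have hpt : ∀ ω, B * ((2 * K * (Y ω - 1) - (Y ω ^ 2 - 2 * Y ω + 1)) / K ^ 2) ≤
      Real.log (WW (tr α) β (cgf id ν β - δ) M ω) := by
    intro ω
    have w1 := WW_one_le hp β (cgf id ν β - δ) M ω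
    have w2 := WW_ge_YY hp β (cgf id ν β) (θ := A / 2) hδ M ω
    have w3 := Real.log_nonneg w1
    rcases le_or_gt 1 (Y ω) with hy | hy
    · have g1 : B ≤ Real.log (WW (tr α) β (cgf id ν β - δ) M ω) := by
        rw [Real.le_log_iff_exp_le (by linarith)]
        refine le_trans ?_ w2
        have := (Real.exp_pos (δ * (A / 2 - 1))).le
        rw [← hY, hB]
        nlinarith
      have g2 : (2 * K * (Y ω - 1) - (Y ω ^ 2 - 2 * Y ω + 1)) / K ^ 2 ≤ 1 := by
        rw [div_le_one (by positivity)]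
        nlinarith [sq_nonneg (K - (Y ω - 1))]
      calc _ ≤ B * 1 := mul_le_mul_of_nonneg_left g2 hB0
        _ ≤ _ := by rw [mul_one]; exact g1
    · have g2 : (2 * K * (Y ω - 1) - (Y ω ^ 2 - 2 * Y ω + 1)) / K ^ 2 ≤ 0 := by
        apply div_nonpos_of_nonpos_of_nonneg _ (by positivity)
        nlinarith [sq_nonneg (Y ω - 1)]
      calc _ ≤ B * 0 := mul_le_mul_of_nonneg_left g2 hB0
        _ ≤ _ := by rw [mul_zero]; exact w3
  have hint : Integrable (fun ω => B * ((2 * K * (Y ω - 1) - (Y ω ^ 2 - 2 * Y ω + 1)) / K ^ 2))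
      (PP ν) := by
    apply Integrable.const_mul
    apply Integrable.div_const
    exact ((hi.sub (integrable_const 1)).const_mul _).sub
      ((hm2.1.sub (hi.const_mul 2)).add (integrable_const 1))
  have h3 := integral_mono hint (log_WW_integrable hexp hp β (cgf id ν β - δ) M) hpt
  refine le_trans ?_ h3
  rw [integral_const_mul, integral_div]
  have hI : ∫ ω, (2 * K * (Y ω - 1) - (Y ω ^ 2 - 2 * Y ω + 1)) ∂(PP ν) =
      (2 * K + 2) * ∫ ω, Y ω ∂(PP ν) - ∫ ω, Y ω ^ 2 ∂(PP ν) - (2 * K + 1) := by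
    have e1 : ∫ ω, (2 * K * (Y ω - 1) - (Y ω ^ 2 - 2 * Y ω + 1)) ∂(PP ν) =
        ∫ ω, ((2 * K + 2) * Y ω - Y ω ^ 2 - (2 * K + 1)) ∂(PP ν) :=
      integral_congr_ae (Filter.Eventually.of_forall fun ω => by ring)
    rw [e1, integral_sub (f := fun ω => (2 * K + 2) * Y ω - Y ω ^ 2)
      ((hi.const_mul _).sub hm2.1) (integrable_const _),
      integral_sub (f := fun ω => (2 * K + 2) * Y ω) (hi.const_mul _) hm2.1, integral_const_mul]
    simp
  rw [hI]
  set m1 := ∫ ω, Y ω ∂(PP ν) with hm1def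
  set m2 := ∫ ω, Y ω ^ 2 ∂(PP ν) with hm2def
  have q1 : A / 2 ≤ m1 := by linarith
  have q2 : m2 ≤ 3 * A ^ 2 := hm2.2
  have q3 : 1 / 64 ≤ ((2 * K + 2) * m1 - m2 - (2 * K + 1)) / K ^ 2 := by
    rw [le_div_iff₀ (by positivity), hK]
    nlinarith
  calc δ * A / 256 ≤ B * (1 / 64) := by
        rw [hB]
        nlinarith
    _ ≤ _ := mul_le_mul_of_nonneg_left q3 hB0

lemma Zc_ge_WW {α : ℝ} (h0 : 0 < α) (h1 : α < 1) (β h : ℝ) (M : ℕ) (hM : M % 2 = 0)
    (ω : ℕ → ℝ) :
    α * (1 - α) / (2 * ((M : ℝ) + 2) ^ 3) * Real.exp (β * ω (M + 2) - h) * WW (tr α) β h M ω ≤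
      Zg (tr α) β h (M + 2) 0 dl ω := by
  have hp := tr_isTrans h0 h1
  have hα : 0 < 1 - α := by linarith
  set κ := α * (1 - α) / (2 * ((M : ℝ) + 2) ^ 2) * Real.exp (β * ω (M + 2) - h) with hκ
  have hκ0 : 0 ≤ κ := by positivity
  have h2 : ∀ j ∈ range (M + 1), Zg (tr α) β h j 0 dl ω * κ ≤ Zg (tr α) β h (M + 2) 0 dl ω := by
    intro j hj
    have hj' := Finset.mem_range.1 hj
    have hn := Zg_nonneg hp β h j 0 dl_nonneg ω
    rcases Nat.even_or_odd' j with ⟨k, hk | hk⟩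
    · obtain ⟨b, hb⟩ := Nat.exists_eq_add_of_le (by omega : j ≤ M + 2)
      have h3 := Zg_superadd hp β h j b dl_nonneg ω
      rw [← hb] at h3
      refine le_trans (mul_le_mul_of_nonneg_left ?_ hn) h3
      have h4 := Zc_excursion h0 h1 β h b (by omega) (by omega) (sh j ω)
      have e1 : sh j ω b = ω (M + 2) := by
        simp only [sh]; congr 1; omega
      rw [e1] at h4
      refine le_trans ?_ h4
      rw [hκ]
      have hb2 : (b : ℝ) ≤ (M : ℝ) + 2 := by
        have : b ≤ M + 2 := by omega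
        exact_mod_cast this
      have hb0 : (0 : ℝ) < b := by
        have : 0 < b := by omega
        exact_mod_cast this
      gcongr
    · rw [Zg_dl_odd β h j 0 (by rw [hk]; push_cast; omega), zero_mul]
      exact Zg_nonneg hp β h _ 0 dl_nonneg ω
  have h3 := Finset.sum_le_sum h2
  rw [← Finset.sum_mul] at h3
  simp only [Finset.sum_const, Finset.card_range, nsmul_eq_mul] at h3
  have hZ := Zg_nonneg hp β h (M + 2) 0 dl_nonneg ω
  have hMp : (0 : ℝ) < (M : ℝ) + 2 := by positivity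
  have h4 : WW (tr α) β h M ω * κ ≤ ((M : ℝ) + 2) * Zg (tr α) β h (M + 2) 0 dl ω := by
    refine le_trans h3 ?_
    push_cast
    nlinarith
  have e2 : α * (1 - α) / (2 * ((M : ℝ) + 2) ^ 3) * Real.exp (β * ω (M + 2) - h) *
      WW (tr α) β h M ω = WW (tr α) β h M ω * κ / ((M : ℝ) + 2) := by
    rw [hκ]; field_simp
  rw [e2, div_le_iff₀ hMp]
  linarith

lemma log_Zc_mean {α : ℝ} (h0 : 0 < α) (h1 : α < 1) (hexp : ExpMom ν) (hmean : ∫ x, x ∂ν = 0)
    (β h : ℝ) (M : ℕ) (hM : M % 2 = 0) :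
    ∫ ω, Real.log (WW (tr α) β h M ω) ∂(PP ν) + Real.log (α * (1 - α) / 2) -
      3 * Real.log ((M : ℝ) + 2) - h ≤
      ∫ ω, Real.log (Zg (tr α) β h (M + 2) 0 dl ω) ∂(PP ν) := by
  have hp := tr_isTrans h0 h1
  have hα : 0 < 1 - α := by linarith
  have hpos : 0 < (Pop (tr α))^[M + 2] dl 0 := by
    obtain ⟨k, hk⟩ : ∃ k, M + 2 = 2 * k := ⟨(M + 2) / 2, by omega⟩
    rw [hk]
    exact uu_even_pos hp k
  have hi1 := log_WW_integrable hexp hp β h M
  have hi2 := log_Zg_integrable (ν := ν) hexp hp β h (M + 2) 0 dl_nonneg hpos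
  have hpt : ∀ ω, Real.log (WW (tr α) β h M ω) + (Real.log (α * (1 - α) / 2) -
      3 * Real.log ((M : ℝ) + 2) - h) + β * ω (M + 2) ≤
      Real.log (Zg (tr α) β h (M + 2) 0 dl ω) := by
    intro ω
    have h2 := Zc_ge_WW h0 h1 β h M hM ω
    have hW : 0 < WW (tr α) β h M ω := lt_of_lt_of_le one_pos (WW_one_le hp β h M ω)
    have hMp : (0 : ℝ) < (M : ℝ) + 2 := by positivity
    have hpos2 : 0 < α * (1 - α) / (2 * ((M : ℝ) + 2) ^ 3) * Real.exp (β * ω (M + 2) - h) *
      WW (tr α) β h M ω := by positivity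
    have h3 := Real.log_le_log hpos2 h2
    have e : α * (1 - α) / (2 * ((M : ℝ) + 2) ^ 3) = α * (1 - α) / 2 / ((M : ℝ) + 2) ^ 3 := by
      field_simp
    rw [Real.log_mul (by positivity) hW.ne', Real.log_mul (by positivity) (Real.exp_pos _).ne',
      Real.log_exp, e, Real.log_div (by positivity) (by positivity), Real.log_pow] at h3
    push_cast at h3
    linarith
  have h3 := integral_mono ((hi1.add (integrable_const (Real.log (α * (1 - α) / 2) -
      3 * Real.log ((M : ℝ) + 2) - h))).add ((integrable_coord hexp (M + 2)).const_mul β)) hi2 hpt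
  refine le_trans (le_of_eq ?_) h3
  have e4 : ∫ ω, (Real.log (WW (tr α) β h M ω) + (Real.log (α * (1 - α) / 2) -
      3 * Real.log ((M : ℝ) + 2) - h) + β * ω (M + 2)) ∂(PP ν) =
      ∫ ω, Real.log (WW (tr α) β h M ω) ∂(PP ν) + (Real.log (α * (1 - α) / 2) -
      3 * Real.log ((M : ℝ) + 2) - h) + β * 0 := by
    rw [integral_add (f := fun ω => Real.log (WW (tr α) β h M ω) +
      (Real.log (α * (1 - α) / 2) - 3 * Real.log ((M : ℝ) + 2) - h)) (hi1.add (integrable_const _))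
      ((integrable_coord hexp (M + 2)).const_mul β), integral_add hi1 (integrable_const _),
      integral_const_mul, integral_coord, hmean]
    simp
  exact (by linarith [e4] : ∫ ω, Real.log (WW (tr α) β h M ω) ∂(PP ν) +
    Real.log (α * (1 - α) / 2) - 3 * Real.log ((M : ℝ) + 2) - h = ∫ ω, (Real.log (WW (tr α) β h M ω) +
      (Real.log (α * (1 - α) / 2) - 3 * Real.log ((M : ℝ) + 2) - h) + β * ω (M + 2)) ∂(PP ν))

/-- blocks -/
lemma log_Z_blocks {α : ℝ} (h0 : 0 < α) (h1 : α < 1) (hexp : ExpMom ν)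
    (β h : ℝ) (l : ℕ) (hl : l % 2 = 0) (k r : ℕ) :
    k * ∫ ω, Real.log (Zg (tr α) β h l 0 dl ω) ∂(PP ν) +
      Real.log ((1 - α) / (2 * ((r : ℝ) + 1))) ≤
      ∫ ω, Real.log (Zg (tr α) β h (l * k + r) 0 (fun _ => 1) ω) ∂(PP ν) := by
  have hp := tr_isTrans h0 h1
  have hα : 0 < 1 - α := by linarith
  have hpos : 0 < (Pop (tr α))^[l] dl 0 := by
    obtain ⟨k, hk⟩ : ∃ k, l = 2 * k := ⟨l / 2, by omega⟩
    rw [hk]
    exact uu_even_pos hp k
  have hone : ∀ N : ℕ, 0 < (Pop (tr α))^[N] (fun _ => (1 : ℝ)) 0 := by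
    intro N
    have h1 : ∀ (k : ℕ) (y : ℤ), (Pop (tr α))^[k] (fun _ => (1 : ℝ)) y = 1 := by
      intro k
      induction k with
      | zero => intro y; rfl
      | succ k ih =>
        intro y
        rw [Function.iterate_succ_apply']
        simp only [Pop, ih]
        ring
    rw [h1]; norm_num
  have hi : ∀ N : ℕ, Integrable (fun ω => Real.log (Zg (tr α) β h N 0 (fun _ => 1) ω)) (PP ν) :=
    fun N => log_Zg_integrable hexp hp β h N 0 (fun _ => zero_le_one) (hone N)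
  have hic := log_Zg_integrable (ν := ν) hexp hp β h l 0 dl_nonneg hpos
  induction k with
  | zero =>
    simp only [Nat.cast_zero, zero_mul, mul_zero, zero_add]
    have hb : ∀ ω, Real.log ((1 - α) / (2 * ((r : ℝ) + 1))) ≤
        Real.log (Zg (tr α) β h r 0 (fun _ => 1) ω) := fun ω =>
      Real.log_le_log (by positivity) (Zfree_ge h0 h1 β h r ω)
    have h3 := integral_mono (integrable_const _) (hi r) hb
    simpa using h3
  | succ k ih =>
    have e : l * (k + 1) + r = l + (l * k + r) := by ring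
    have hsh : Measurable (fun ω => Real.log (Zg (tr α) β h (l * k + r) 0 (fun _ => 1) ω)) :=
      (Zg_measurable β h _ 0 _).log
    have e2 := integral_sh (ν := ν) l hsh
    have hpt : ∀ ω, Real.log (Zg (tr α) β h l 0 dl ω) +
        Real.log (Zg (tr α) β h (l * k + r) 0 (fun _ => 1) (sh l ω)) ≤
        Real.log (Zg (tr α) β h (l * (k + 1) + r) 0 (fun _ => 1) ω) := by
      intro ω
      have h3 := Zg_superadd hp β h l (l * k + r) (g := fun _ => 1) (fun _ => zero_le_one) ω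
      have p1 : 0 < Zg (tr α) β h l 0 dl ω :=
        lt_of_lt_of_le (mul_pos hpos (Real.exp_pos _)) (Zg_lower hp β h l 0 dl_nonneg ω)
      have p2 : 0 < Zg (tr α) β h (l * k + r) 0 (fun _ => 1) (sh l ω) :=
        lt_of_lt_of_le (by positivity) (Zfree_ge h0 h1 β h _ _)
      rw [e, ← Real.log_mul p1.ne' p2.ne']
      exact Real.log_le_log (mul_pos p1 p2) h3
    have hi3 : Integrable (fun ω => Real.log (Zg (tr α) β h (l * k + r) 0 (fun _ => 1) (sh l ω)))
        (PP ν) := (sh_mp l).integrable_comp_of_integrable (hi (l * k + r))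
    have h4 := integral_mono (hic.add hi3) (hi (l * (k + 1) + r)) hpt
    have e3 : ∫ ω, (Real.log (Zg (tr α) β h l 0 dl ω) +
        Real.log (Zg (tr α) β h (l * k + r) 0 (fun _ => 1) (sh l ω))) ∂(PP ν) =
        ∫ ω, Real.log (Zg (tr α) β h l 0 dl ω) ∂(PP ν) +
        ∫ ω, Real.log (Zg (tr α) β h (l * k + r) 0 (fun _ => 1) ω) ∂(PP ν) := by
      rw [integral_add hic hi3, e2]
    have h5 : ∫ ω, Real.log (Zg (tr α) β h l 0 dl ω) ∂(PP ν) +
        ∫ ω, Real.log (Zg (tr α) β h (l * k + r) 0 (fun _ => 1) ω) ∂(PP ν) ≤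
        ∫ ω, Real.log (Zg (tr α) β h (l * (k + 1) + r) 0 (fun _ => 1) ω) ∂(PP ν) := by
      rw [← e3]; exact h4
    push_cast
    linarith

end Pool.Agent.H646R3.Cop
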