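import Pool.Agent.H646R3.Cop.Explicit

/-!
# Renewal structure, tails, negative side
-/

set_option autoImplicit false

namespace Pool.Agent.H646R3.Cop

open Finset

/-- the weight `3^{-x}` on `x ≤ 0` (extended by the same formula with truncated exponent) -/
noncomputable def ww (x : ℤ) : ℝ := 3 ^ (-x).toNat

lemma ww_one_le (x : ℤ) : 1 ≤ ww x := by unfold ww; exact one_le_pow₀ (by norm_num)

lemma ww_pos (x : ℤ) : 0 < ww x := lt_of_lt_of_le one_pos (ww_one_le x)

lemma ww_zero : ww 0 = 1 := by simp [ww]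

lemma Pop_ww {α : ℝ} {x : ℤ} (hx : x < 0) : Pop (tr α) ww x = 3 / 5 * ww x := by
  unfold Pop
  rw [tr_neg α hx]
  obtain ⟨n, rfl⟩ : ∃ n : ℕ, x = -((n : ℤ) + 1) := ⟨(-x - 1).toNat, by omega⟩
  have e1 : (-(-((n : ℤ) + 1))).toNat = n + 1 := by omega
  have e2 : (-(-((n : ℤ) + 1) + 1)).toNat = n := by omega
  have e3 : (-(-((n : ℤ) + 1) - 1)).toNat = n + 2 := by omega
  simp only [ww, e1, e2, e3]
  ring

lemma Qk_neg {α : ℝ} {f : ℤ → ℝ} (hf : ∀ x ≤ 0, f x ≤ ww x) : ∀ (n : ℕ) (x : ℤ), x ≤ 0 →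
    Qk (tr α) f n x ≤ (3 / 5) ^ n * ww x
  | 0, x, hx => by
    simp only [Qk, pow_zero, one_mul]
    split_ifs
    · exact (ww_pos x).le
    · exact hf x hx
  | n + 1, x, hx => by
    simp only [Qk]
    split_ifs with h
    · have := ww_pos x; positivity
    · have hx' : x < 0 := lt_of_le_of_ne hx h
      have h1 := Qk_neg (α := α) hf n (x + 1) (by omega)
      have h2 := Qk_neg (α := α) hf n (x - 1) (by omega)
      have h3 := Pop_ww (α := α) hx'
      unfold Pop at h3 ⊢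
      rw [tr_neg α hx'] at h3 ⊢
      have e : (3 / 5 : ℝ) ^ (n + 1) * ww x = (3 / 5) ^ n * (3 / 5 * ww x) := by ring
      rw [e, ← h3]
      nlinarith

lemma fp_neg {α : ℝ} : ∀ (n : ℕ) (x : ℤ), x ≤ 0 → fp (tr α) n x ≤ (3 / 5) ^ n * ww x
  | 0, x, hx => by
    simp only [fp, pow_zero, one_mul]
    split_ifs
    · exact ww_one_le x
    · exact (ww_pos x).le
  | n + 1, x, hx => by
    simp only [fp]
    split_ifs with h
    · have := ww_pos x; positivity
    · have hx' : x < 0 := lt_of_le_of_ne hx h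
      have h1 := fp_neg (α := α) n (x + 1) (by omega)
      have h2 := fp_neg (α := α) n (x - 1) (by omega)
      have h3 := Pop_ww (α := α) hx'
      unfold Pop at h3 ⊢
      rw [tr_neg α hx'] at h3 ⊢
      have e : (3 / 5 : ℝ) ^ (n + 1) * ww x = (3 / 5) ^ n * (3 / 5 * ww x) := by ring
      rw [e, ← h3]
      nlinarith

/-! ### Survival probabilities -/

lemma surv_one_odd (α : ℝ) (k : ℕ) : Qk (tr α) (fun _ => 1) (2 * k) 1 = tl α k ∧
    Qk (tr α) (fun _ => 1) (2 * k + 1) 1 = tl α (k + 1) := by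
  have h : ∀ n, Qk (tr α) (fun _ => 1) n 1 = 1 - ∑ m ∈ range (n + 1), fp (tr α) m 1 := by
    intro n
    have := fp_sum_add_surv (p := tr α) n 1
    linarith
  have he : ∀ j : ℕ, fp (tr α) (2 * j) 1 = 0 := fun j =>
    fp_eq_zero_of_parity _ _ (by push_cast; omega)
  have key : ∀ k : ℕ, 1 - ∑ m ∈ range (2 * k), fp (tr α) m 1 = tl α k := by
    intro k
    induction k with
    | zero => simp [tl_zero]
    | succ k ih =>
      have e : 2 * (k + 1) = 2 * k + 1 + 1 := by ring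
      rw [e, Finset.sum_range_succ, Finset.sum_range_succ, he k, fp_one, tl_succ]
      linarith
  constructor
  · rw [h, Finset.sum_range_succ, he k, add_zero, key]
  · rw [h, ← key (k + 1)]
    congr 2

/-- `P_0 (τ_1 > n)` -/
noncomputable def TT (p : ℤ → ℝ) (n : ℕ) : ℝ := 1 - ∑ m ∈ range (n + 1), firstReturn p m

lemma TT_zero {p : ℤ → ℝ} : TT p 0 = 1 := by simp [TT, firstReturn_zero]

lemma TT_succ' {p : ℤ → ℝ} (n : ℕ) : TT p (n + 1) = TT p n - firstReturn p (n + 1) := by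
  unfold TT
  rw [Finset.sum_range_succ _ (n + 1)]
  ring

lemma TT_succ {p : ℤ → ℝ} (n : ℕ) : TT p (n + 1) = Pop p (Qk p (fun _ => 1) n) 0 := by
  unfold TT
  rw [Finset.sum_range_succ', firstReturn_zero, add_zero]
  simp only [firstReturn_succ]
  rw [← Pop_sum]
  have h : (fun y => ∑ i ∈ range (n + 1), fp p i y) = fun y => 1 - Qk p (fun _ => 1) n y := by
    funext y
    have := fp_sum_add_surv (p := p) n y
    linarith
  rw [h]
  unfold Pop
  ring

lemma firstReturn_nonneg {p : ℤ → ℝ} (hp : IsTrans p) (n : ℕ) : 0 ≤ firstReturn p n := by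
  cases n with
  | zero => rw [firstReturn_zero]
  | succ n => rw [firstReturn_succ]; exact Pop_nonneg hp (fp_nonneg hp n) 0

lemma TT_anti {p : ℤ → ℝ} (hp : IsTrans p) : Antitone (TT p) := by
  apply antitone_nat_of_succ_le
  intro n
  rw [TT_succ']
  have := firstReturn_nonneg hp (n + 1)
  linarith

section bounds

variable {α : ℝ} (h0 : 0 < α) (h1 : α < 1)

include h0 h1

lemma TT_even_lower (k : ℕ) : (1 - α) / 2 * ((k : ℝ) + 1) ^ (-α) ≤ TT (tr α) (2 * k + 2) := by
  have e : 2 * k + 2 = (2 * k + 1) + 1 := rfl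
  rw [e, TT_succ]
  unfold Pop
  rw [tr_zero, zero_add, (surv_one_odd α k).2]
  have h2 : 0 ≤ Qk (tr α) (fun _ => 1) (2 * k + 1) (0 - 1) :=
    Qk_nonneg (tr_isTrans h0 h1) (f := fun _ => 1) (fun _ => zero_le_one) (2 * k + 1) (0 - 1)
  have h3 := tl_lower h0 h1 k
  have e3 : (1 - α) / 2 * ((k : ℝ) + 1) ^ (-α) = ((1 - α) * ((k : ℝ) + 1) ^ (-α)) / 2 := by ring
  rw [e3]
  generalize (1 - α) * ((k : ℝ) + 1) ^ (-α) = y at *
  generalize Qk (tr α) (fun _ => 1) (2 * k + 1) (0 - 1) = q at *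
  linarith

lemma TT_lower (n : ℕ) : (1 - α) / 2 * ((n : ℝ) + 1) ^ (-α) ≤ TT (tr α) n := by
  rcases Nat.even_or_odd' n with ⟨k, rfl | rfl⟩
  · cases k with
    | zero =>
      simp only [mul_zero, Nat.cast_zero, zero_add, Real.one_rpow, mul_one, TT_zero]
      linarith
    | succ k =>
      refine le_trans ?_ (TT_even_lower h0 h1 k)
      have : 0 ≤ (1 - α) / 2 := by linarith
      refine mul_le_mul_of_nonneg_left ?_ this
      apply Real.rpow_le_rpow_of_nonpos (by positivity) _ (by linarith)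
      push_cast
      have : (0 : ℝ) ≤ k := Nat.cast_nonneg k
      linarith
  · refine le_trans ?_ ((TT_even_lower h0 h1 k).trans (TT_anti (tr_isTrans h0 h1) (by omega)))
    have : 0 ≤ (1 - α) / 2 := by linarith
    refine mul_le_mul_of_nonneg_left ?_ this
    apply Real.rpow_le_rpow_of_nonpos (by positivity) _ (by linarith)
    push_cast
    have : (0 : ℝ) ≤ k := Nat.cast_nonneg k
    linarith

lemma pow_small (k : ℕ) : (9 / 25 : ℝ) ^ k ≤ ((k : ℝ) + 1) ^ (-α) := by
  have h : (9 / 25 : ℝ) ^ k ≤ 1 / ((k : ℝ) + 1) := by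
    rw [le_div_iff₀ (by positivity)]
    induction k with
    | zero => simp
    | succ k ih =>
      push_cast
      have hk : (0 : ℝ) ≤ k := Nat.cast_nonneg k
      have hp : (0 : ℝ) < (9 / 25 : ℝ) ^ k := by positivity
      calc (9 / 25 : ℝ) ^ (k + 1) * ((k : ℝ) + 1 + 1)
          = (9 / 25 : ℝ) ^ k * (9 / 25 * (k + 1 + 1)) := by ring
        _ ≤ (9 / 25 : ℝ) ^ k * (k + 1) := by
          apply mul_le_mul_of_nonneg_left _ hp.le
          linarith
        _ ≤ 1 := ih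
  refine h.trans ?_
  rw [one_div, ← Real.rpow_neg_one]
  apply Real.rpow_le_rpow_of_exponent_le
  · have : (0 : ℝ) ≤ k := Nat.cast_nonneg k
    linarith
  · linarith

lemma TT_odd_upper (k : ℕ) : TT (tr α) (2 * k + 1) ≤ 2 * ((k : ℝ) + 1) ^ (-α) := by
  rw [TT_succ]
  unfold Pop
  rw [tr_zero, zero_add, (surv_one_odd α k).1]
  have h2 := Qk_neg (α := α) (f := fun _ => 1) (fun x _ => ww_one_le x) (2 * k) (0 - 1) (by norm_num)
  have e : ww (0 - 1) = 3 := by simp [ww]
  rw [e, pow_mul] at h2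
  have h3 := tl_upper h0 h1 k
  have h4 := pow_small h0 h1 k
  norm_num at h2 ⊢
  linarith

lemma TT_upper (n : ℕ) : TT (tr α) n ≤ 8 * ((n : ℝ) + 1) ^ (-α) := by
  have hp2 : (1 / 2 : ℝ) ≤ (2 : ℝ) ^ (-α) := by
    have : (2 : ℝ) ^ (-1 : ℝ) ≤ (2 : ℝ) ^ (-α) :=
      Real.rpow_le_rpow_of_exponent_le (by norm_num) (by linarith)
    rw [Real.rpow_neg_one] at this
    linarith
  have hd : ∀ k : ℕ, ((k : ℝ) + 1) ^ (-α) ≤ 4 * ((4 * (k + 1) : ℝ)) ^ (-α) := by
    intro k
    have e : (4 * ((k : ℝ) + 1)) = 2 * (2 * (k + 1)) := by ring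
    rw [e, Real.mul_rpow (by norm_num) (by positivity), Real.mul_rpow (by norm_num) (by positivity)]
    have : 0 < ((k : ℝ) + 1) ^ (-α) := by positivity
    have h3 : (1 / 4 : ℝ) ≤ (2 : ℝ) ^ (-α) * (2 : ℝ) ^ (-α) := by nlinarith
    nlinarith
  rcases Nat.even_or_odd' n with ⟨k, rfl | rfl⟩
  · cases k with
    | zero => simp [TT_zero]
    | succ k =>
      refine ((TT_anti (tr_isTrans h0 h1) (by omega : 2 * k + 1 ≤ 2 * (k + 1))).trans
        (TT_odd_upper h0 h1 k)).trans ?_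
      have h3 : (4 * ((k : ℝ) + 1)) ^ (-α) ≤ (((2 * (k + 1) : ℕ) : ℝ) + 1) ^ (-α) := by
        apply Real.rpow_le_rpow_of_nonpos (by positivity) _ (by linarith)
        push_cast
        have : (0 : ℝ) ≤ k := Nat.cast_nonneg k
        linarith
      have := hd k
      linarith
  · refine (TT_odd_upper h0 h1 k).trans ?_
    have h3 : (4 * ((k : ℝ) + 1)) ^ (-α) ≤ (((2 * k + 1 : ℕ) : ℝ) + 1) ^ (-α) := by
      apply Real.rpow_le_rpow_of_nonpos (by positivity) _ (by linarith)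
      push_cast
      have : (0 : ℝ) ≤ k := Nat.cast_nonneg k
      linarith
    have := hd k
    linarith

lemma sum_rpow_le (M : ℕ) : ∑ k ∈ range (M + 1), ((k : ℝ) + 1) ^ (-α) ≤
    ((M : ℝ) + 1) ^ (1 - α) / (1 - α) := by
  have hα : 0 < 1 - α := by linarith
  have step : ∀ k : ℕ, ((k : ℝ) + 1) ^ (-α) ≤
      ((k : ℝ) + 1) ^ (1 - α) / (1 - α) - (k : ℝ) ^ (1 - α) / (1 - α) := by
    intro k
    rw [← sub_div, le_div_iff₀ hα]
    have hk : (0 : ℝ) ≤ k := Nat.cast_nonneg k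
    have hk1 : (0 : ℝ) < (k : ℝ) + 1 := by positivity
    have hb : (1 + (-(1 / ((k : ℝ) + 1)))) ^ (1 - α) ≤ 1 + (1 - α) * (-(1 / ((k : ℝ) + 1))) :=
      rpow_one_add_le_one_add_mul_self (by
        have : 1 / ((k : ℝ) + 1) ≤ 1 := by
          rw [div_le_one hk1]; linarith
        linarith) hα.le (by linarith)
    have e1 : (1 + (-(1 / ((k : ℝ) + 1)))) = k / (k + 1) := by field_simp; ring
    rw [e1, Real.div_rpow hk hk1.le, div_le_iff₀ (by positivity)] at hb
    have e2 : ((k : ℝ) + 1) ^ (1 - α) = (k + 1) * ((k : ℝ) + 1) ^ (-α) := by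
      rw [show (1 - α) = 1 + (-α) by ring, Real.rpow_add hk1, Real.rpow_one]
    have e3 : (1 + (1 - α) * -(1 / ((k : ℝ) + 1))) * ((k : ℝ) + 1) ^ (1 - α) =
        ((k : ℝ) + 1) ^ (1 - α) - (1 - α) * ((k : ℝ) + 1) ^ (-α) := by
      rw [e2]
      field_simp
      ring
    rw [e3] at hb
    linarith
  calc ∑ k ∈ range (M + 1), ((k : ℝ) + 1) ^ (-α)
      ≤ ∑ k ∈ range (M + 1), (((k + 1 : ℕ) : ℝ) ^ (1 - α) / (1 - α) - (k : ℝ) ^ (1 - α) / (1 - α)) :=
        Finset.sum_le_sum fun k _ => by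
          have := step k
          push_cast
          exact this
    _ = ((M : ℝ) + 1) ^ (1 - α) / (1 - α) := by
      rw [Finset.sum_range_sub (fun k : ℕ => (k : ℝ) ^ (1 - α) / (1 - α))]
      simp [Real.zero_rpow hα.ne']

end bounds

/-! ### The renewal sequence -/

/-- indicator of `0` -/
noncomputable def dl (x : ℤ) : ℝ := if x = 0 then 1 else 0

/-- `u_n = P_0 (S_n = 0)` -/
noncomputable def uu (p : ℤ → ℝ) (n : ℕ) : ℝ := (Pop p)^[n] dl 0

lemma return_decomp {p : ℤ → ℝ} (f : ℤ → ℝ) (n : ℕ) :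
    (Pop p)^[n + 1] f 0 = Pop p (Qk p f n) 0 +
      ∑ m ∈ range (n + 1), firstReturn p (m + 1) * (Pop p)^[n - m] f 0 := by
  rw [Function.iterate_succ_apply']
  have ih : (Pop p)^[n] f = fun y => Qk p f n y +
      ∑ m ∈ range (n + 1), fp p m y * (Pop p)^[n - m] f 0 := by
    funext y; exact iter_decomp f n y
  conv_lhs => rw [ih]
  rw [Pop_add, Pop_sum]
  congr 1
  refine Finset.sum_congr rfl fun m _ => ?_
  rw [Pop_mul_const, firstReturn_succ]

lemma uu_zero {p : ℤ → ℝ} : uu p 0 = 1 := by simp [uu, dl]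

lemma uu_nonneg {p : ℤ → ℝ} (hp : IsTrans p) (n : ℕ) : 0 ≤ uu p n :=
  iter_nonneg hp (fun x => by unfold dl; split_ifs <;> norm_num) n 0

lemma Qk_dl {p : ℤ → ℝ} : ∀ (n : ℕ) (x : ℤ), Qk p dl n x = 0
  | 0, x => by simp only [Qk, dl]; split_ifs <;> rfl
  | n + 1, x => by simp [Qk, Pop, Qk_dl n]

open PowerSeries in
lemma conv_U {p : ℤ → ℝ} (f : ℤ → ℝ) (b : ℕ → ℝ) (hb0 : b 0 = f 0)
    (hb : ∀ n, b (n + 1) = Pop p (Qk p f n) 0) :
    (PowerSeries.mk fun n => (Pop p)^[n] f 0) * (1 - PowerSeries.mk (firstReturn p)) =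
      PowerSeries.mk b := by
  have h : (PowerSeries.mk fun n => (Pop p)^[n] f 0) = PowerSeries.mk b +
      PowerSeries.mk (firstReturn p) * (PowerSeries.mk fun n => (Pop p)^[n] f 0) := by
    ext n
    rw [map_add, coeff_mk, coeff_mk, coeff_mul, Finset.Nat.sum_antidiagonal_eq_sum_range_succ_mk]
    simp only [coeff_mk]
    cases n with
    | zero => simp [firstReturn_zero, hb0]
    | succ n =>
      rw [return_decomp, hb, Finset.sum_range_succ' (n := n + 1), firstReturn_zero, zero_mul,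
        add_zero]
      congr 1
      refine Finset.sum_congr rfl fun m _ => ?_
      rw [Nat.add_sub_add_right]
  have h2 : (PowerSeries.mk fun n => (Pop p)^[n] f 0) * (1 - PowerSeries.mk (firstReturn p)) =
    (PowerSeries.mk fun n => (Pop p)^[n] f 0) -
      PowerSeries.mk (firstReturn p) * (PowerSeries.mk fun n => (Pop p)^[n] f 0) := by ring
  rw [h2]
  exact sub_eq_of_eq_add h

lemma mk_uu {p : ℤ → ℝ} :
    (PowerSeries.mk (uu p)) * (1 - PowerSeries.mk (firstReturn p)) = 1 := by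
  have h := conv_U (p := p) dl (fun n => if n = 0 then 1 else 0) (by simp [dl])
    (fun n => by
      have : Qk p dl n = fun _ => 0 := funext (Qk_dl n)
      rw [this]; simp [Pop])
  have e : (PowerSeries.mk fun n => if n = 0 then (1 : ℝ) else 0) = 1 := by
    ext n; simp [PowerSeries.coeff_one]
  rw [e] at h
  exact h

/-- `f`-expectation at time `n` as a convolution with the renewal sequence. -/
lemma iter_eq_conv {p : ℤ → ℝ} (f : ℤ → ℝ) (b : ℕ → ℝ) (hb0 : b 0 = f 0)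
    (hb : ∀ n, b (n + 1) = Pop p (Qk p f n) 0) (n : ℕ) :
    (Pop p)^[n] f 0 = ∑ m ∈ range (n + 1), uu p m * b (n - m) := by
  have h1 := conv_U f b hb0 hb
  have h2 := mk_uu (p := p)
  have h3 : (PowerSeries.mk fun n => (Pop p)^[n] f 0) = PowerSeries.mk (uu p) * PowerSeries.mk b := by
    calc (PowerSeries.mk fun n => (Pop p)^[n] f 0)
        = (PowerSeries.mk fun n => (Pop p)^[n] f 0) *
          ((PowerSeries.mk (uu p)) * (1 - PowerSeries.mk (firstReturn p))) := by rw [h2, mul_one]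
      _ = PowerSeries.mk (uu p) * ((PowerSeries.mk fun n => (Pop p)^[n] f 0) *
          (1 - PowerSeries.mk (firstReturn p))) := by ring
      _ = _ := by rw [h1]
  have h4 := congrArg (PowerSeries.coeff n) h3
  rw [PowerSeries.coeff_mk, PowerSeries.coeff_mul,
    Finset.Nat.sum_antidiagonal_eq_sum_range_succ_mk] at h4
  simpa only [PowerSeries.coeff_mk] using h4

/-- last exit decomposition -/
lemma uu_TT {p : ℤ → ℝ} (n : ℕ) : ∑ m ∈ range (n + 1), uu p m * TT p (n - m) = 1 := by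
  rw [← iter_eq_conv (fun _ => 1) (TT p) TT_zero (fun n => TT_succ n)]
  induction n with
  | zero => rfl
  | succ k ih =>
    have h1 : ∀ (k : ℕ) (y : ℤ), (Pop p)^[k] (fun _ => (1 : ℝ)) y = 1 := by
      intro k
      induction k with
      | zero => intro y; rfl
      | succ k ih =>
        intro y
        rw [Function.iterate_succ_apply']
        simp only [Pop, ih]
        ring
    exact h1 _ _

lemma TT_nonneg {p : ℤ → ℝ} (hp : IsTrans p) (n : ℕ) : 0 ≤ TT p n := by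
  cases n with
  | zero => rw [TT_zero]; norm_num
  | succ n => rw [TT_succ]; exact Pop_nonneg hp (Qk_nonneg hp (fun _ => zero_le_one) n) 0

lemma sum_uu_upper {p : ℤ → ℝ} (hp : IsTrans p) (M : ℕ) :
    (∑ m ∈ range (M + 1), uu p m) * TT p M ≤ 1 := by
  rw [← uu_TT (p := p) M, Finset.sum_mul]
  refine Finset.sum_le_sum fun m _ => ?_
  exact mul_le_mul_of_nonneg_left (TT_anti hp (Nat.sub_le M m)) (uu_nonneg hp m)

lemma sum_uu_lower {p : ℤ → ℝ} (hp : IsTrans p) (M : ℕ) :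
    (M : ℝ) + 1 ≤ (∑ m ∈ range (M + 1), uu p m) * ∑ k ∈ range (M + 1), TT p k := by
  have h : ∑ n ∈ range (M + 1), ∑ m ∈ range (n + 1), uu p m * TT p (n - m) = (M : ℝ) + 1 := by
    simp [uu_TT]
  rw [← h, Finset.sum_range_diag_flip (M + 1) (fun m k => uu p m * TT p k), Finset.sum_mul]
  refine Finset.sum_le_sum fun m _ => ?_
  rw [← Finset.mul_sum]
  refine mul_le_mul_of_nonneg_left ?_ (uu_nonneg hp m)
  exact Finset.sum_le_sum_of_subset_of_nonneg
    (fun x hx => Finset.mem_range.2 (by have := Finset.mem_range.1 hx; omega))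
    (fun k _ _ => TT_nonneg hp k)

end Pool.Agent.H646R3.Cop
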