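import Pool.Agent.H646R3.Cop.Renewal

/-!
# Reversibility: `u_{2n}` is nonincreasing; bounds on the renewal sequence
-/

set_option autoImplicit false

namespace Pool.Agent.H646R3.Cop

open Finset

/-- reversible measure -/
noncomputable def rho (p : ℤ → ℝ) : ℤ → ℝ
  | Int.ofNat n => ∏ i ∈ range n, p i / (1 - p (i + 1))
  | Int.negSucc n => ∏ i ∈ range (n + 1), (1 - p (-(i : ℤ))) / p (-(i : ℤ) - 1)

lemma rho_pos {p : ℤ → ℝ} (hp : IsTrans p) (x : ℤ) : 0 < rho p x := by
  cases x with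
  | ofNat n =>
    exact Finset.prod_pos fun i _ => div_pos (hp _).1 (by have := (hp (i + 1)).2; linarith)
  | negSucc n =>
    exact Finset.prod_pos fun i _ => div_pos (by have := (hp (-(i : ℤ))).2; linarith) (hp _).1

lemma rho_rel {p : ℤ → ℝ} (hp : IsTrans p) (x : ℤ) :
    rho p x * p x = rho p (x + 1) * (1 - p (x + 1)) := by
  cases x with
  | ofNat n =>
    have e : Int.ofNat n + 1 = Int.ofNat (n + 1) := rfl
    rw [e]
    simp only [rho]
    rw [Finset.prod_range_succ]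
    have h : 1 - p ((n : ℤ) + 1) ≠ 0 := by have := (hp ((n : ℤ) + 1)).2; linarith
    have e2 : p (Int.ofNat (n + 1)) = p ((n : ℤ) + 1) := by congr 1
    have e3 : p (Int.ofNat n) = p (n : ℤ) := rfl
    rw [e2, e3]
    field_simp
  | negSucc n =>
    cases n with
    | zero =>
      have h : p (-1) ≠ 0 := ((hp (-1)).1).ne'
      have e : Int.negSucc 0 + 1 = Int.ofNat 0 := rfl
      have e2 : Int.negSucc 0 = -1 := rfl
      rw [e]
      simp only [rho]
      rw [e2]
      simp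
      field_simp
    | succ n =>
      have e : Int.negSucc (n + 1) + 1 = Int.negSucc n := by
        simp only [Int.negSucc_eq]; push_cast; ring
      rw [e]
      simp only [rho]
      rw [Finset.prod_range_succ _ (n + 1)]
      have e2 : Int.negSucc (n + 1) = -(((n + 1 : ℕ) : ℤ)) - 1 := by
        simp only [Int.negSucc_eq]; push_cast; ring
      have e3 : Int.negSucc n = -(((n + 1 : ℕ) : ℤ)) := by
        simp only [Int.negSucc_eq]; push_cast; ring
      rw [e2, e3]
      have h : p (-(((n + 1 : ℕ) : ℤ)) - 1) ≠ 0 := ((hp _).1).ne'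
      field_simp

/-- vanishing outside of a bounded interval -/
def FS (f : ℤ → ℝ) : Prop := ∃ N : ℕ, ∀ x : ℤ, (N : ℤ) < |x| → f x = 0

lemma FS.summable {f : ℤ → ℝ} (h : FS f) : Summable f := by
  obtain ⟨N, hN⟩ := h
  apply summable_of_hasFiniteSupport
  refine (Set.finite_Icc (-(N : ℤ)) N).subset fun x hx => ?_
  rw [Set.mem_Icc, ← abs_le]
  by_contra hc
  exact hx (hN x (by omega))

lemma FS.mul_left {f : ℤ → ℝ} (g : ℤ → ℝ) (h : FS f) : FS fun x => g x * f x := by
  obtain ⟨N, hN⟩ := h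
  exact ⟨N, fun x hx => by simp [hN x hx]⟩

lemma FS.mul_right {f : ℤ → ℝ} (g : ℤ → ℝ) (h : FS f) : FS fun x => f x * g x := by
  obtain ⟨N, hN⟩ := h
  exact ⟨N, fun x hx => by simp [hN x hx]⟩

lemma FS.shift {f : ℤ → ℝ} (h : FS f) (c : ℤ) : FS fun x => f (x + c) := by
  obtain ⟨N, hN⟩ := h
  refine ⟨N + c.natAbs, fun x hx => hN _ ?_⟩
  push_cast at hx
  have := abs_sub (x + c) c
  rw [add_sub_cancel_right] at this
  omega

lemma FS_dl : FS dl := ⟨0, fun x hx => by
  have : x ≠ 0 := by intro h; subst h; simp at hx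
  simp [dl, this]⟩

lemma FS.add {f g : ℤ → ℝ} (hf : FS f) (hg : FS g) : FS fun x => f x + g x := by
  obtain ⟨N, hN⟩ := hf
  obtain ⟨M, hM⟩ := hg
  refine ⟨N + M, fun x hx => ?_⟩
  push_cast at hx
  show f x + g x = 0
  rw [hN x (by omega), hM x (by omega), add_zero]

lemma FS.Pop {p f : ℤ → ℝ} (hf : FS f) : FS (Pop p f) :=
  ((hf.shift 1).mul_left p).add ((hf.shift (-1)).mul_left fun x => 1 - p x)

lemma FS_iter {p : ℤ → ℝ} (n : ℕ) : FS ((Pop p)^[n] dl) := by
  induction n with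
  | zero => exact FS_dl
  | succ n ih => rw [Function.iterate_succ_apply']; exact ih.Pop

lemma tsum_up {p : ℤ → ℝ} (hp : IsTrans p) (F : ℤ → ℤ → ℝ) :
    ∑' x, rho p x * p x * F x (x + 1) = ∑' x, rho p x * (1 - p x) * F (x - 1) x := by
  rw [← (Equiv.addRight (1 : ℤ)).tsum_eq (fun x => rho p x * (1 - p x) * F (x - 1) x)]
  refine tsum_congr fun x => ?_
  simp only [Equiv.coe_addRight, add_sub_cancel_right]
  rw [rho_rel hp]

lemma self_adj {p : ℤ → ℝ} (hp : IsTrans p) {f g : ℤ → ℝ} (hf : FS f) (hg : FS g) :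
    ∑' x, rho p x * f x * Pop p g x = ∑' x, rho p x * Pop p f x * g x := by
  have h1 := tsum_up hp (fun x y => f x * g y)
  have h2 := tsum_up hp (fun x y => f y * g x)
  have s1 : Summable fun x => rho p x * p x * (f x * g (x + 1)) :=
    ((hf.mul_right _).mul_left _).summable
  have s2 : Summable fun x => rho p x * (1 - p x) * (f x * g (x - 1)) :=
    ((hf.mul_right _).mul_left _).summable
  have s3 : Summable fun x => rho p x * p x * (f (x + 1) * g x) :=
    ((hg.mul_left _).mul_left _).summable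
  have s4 : Summable fun x => rho p x * (1 - p x) * (f (x - 1) * g x) :=
    ((hg.mul_left _).mul_left _).summable
  calc ∑' x, rho p x * f x * Pop p g x
      = ∑' x, (rho p x * p x * (f x * g (x + 1)) + rho p x * (1 - p x) * (f x * g (x - 1))) := by
        refine tsum_congr fun x => ?_
        unfold Pop; ring
    _ = ∑' x, rho p x * (1 - p x) * (f (x - 1) * g x) + ∑' x, rho p x * p x * (f (x + 1) * g x) := by
        rw [s1.tsum_add s2, h1, h2]
    _ = ∑' x, (rho p x * p x * (f (x + 1) * g x) + rho p x * (1 - p x) * (f (x - 1) * g x)) := by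
        rw [s3.tsum_add s4, add_comm]
    _ = _ := by
        refine tsum_congr fun x => ?_
        unfold Pop; ring

lemma contraction {p : ℤ → ℝ} (hp : IsTrans p) {f : ℤ → ℝ} (hf : FS f) :
    ∑' x, rho p x * (Pop p f x) ^ 2 ≤ ∑' x, rho p x * f x ^ 2 := by
  have h1 := tsum_up hp (fun x y => f x ^ 2)
  have h2 := tsum_up hp (fun x y => f y ^ 2)
  have hf2 : FS fun x => f x ^ 2 := by
    obtain ⟨N, hN⟩ := hf
    exact ⟨N, fun x hx => by simp [hN x hx]⟩
  have s1 : Summable fun x => rho p x * p x * f (x + 1) ^ 2 :=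
    ((hf2.shift 1).mul_left _).summable
  have s2 : Summable fun x => rho p x * (1 - p x) * f (x - 1) ^ 2 :=
    ((hf2.shift (-1)).mul_left _).summable
  have s3 : Summable fun x => rho p x * p x * f x ^ 2 := (hf2.mul_left _).summable
  have s4 : Summable fun x => rho p x * (1 - p x) * f x ^ 2 := (hf2.mul_left _).summable
  calc ∑' x, rho p x * (Pop p f x) ^ 2
      ≤ ∑' x, (rho p x * p x * f (x + 1) ^ 2 + rho p x * (1 - p x) * f (x - 1) ^ 2) := by
        refine Summable.tsum_le_tsum (fun x => ?_) ?_ (s1.add s2)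
        · have hx := rho_pos hp x
          have := (hp x).1
          have := (hp x).2
          unfold Pop
          have key : (p x * f (x + 1) + (1 - p x) * f (x - 1)) ^ 2 ≤
              p x * f (x + 1) ^ 2 + (1 - p x) * f (x - 1) ^ 2 := by
            nlinarith [mul_nonneg (mul_nonneg (hp x).1.le (by linarith : 0 ≤ 1 - p x))
              (sq_nonneg (f (x + 1) - f (x - 1)))]
          calc _ ≤ rho p x * (p x * f (x + 1) ^ 2 + (1 - p x) * f (x - 1) ^ 2) :=
                mul_le_mul_of_nonneg_left key hx.le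
            _ = _ := by ring
        · have : FS fun x => (Pop p f x) ^ 2 := by
            obtain ⟨N, hN⟩ := hf.Pop (p := p)
            exact ⟨N, fun x hx => by simp [hN x hx]⟩
          exact (this.mul_left _).summable
    _ = ∑' x, rho p x * (1 - p x) * f x ^ 2 + ∑' x, rho p x * p x * f x ^ 2 := by
        rw [s1.tsum_add s2, h2, ← h1]
    _ = ∑' x, rho p x * f x ^ 2 := by
        rw [← s4.tsum_add s3]
        refine tsum_congr fun x => ?_
        ring

lemma rho_zero (p : ℤ → ℝ) : rho p 0 = 1 := by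
  have : (0 : ℤ) = Int.ofNat 0 := rfl
  rw [this]; simp [rho]

lemma uu_inner {p : ℤ → ℝ} (hp : IsTrans p) (m : ℕ) : ∀ n : ℕ,
    uu p (m + n) = ∑' x, rho p x * (Pop p)^[n] dl x * (Pop p)^[m] dl x := by
  intro n
  induction n generalizing m with
  | zero =>
    rw [tsum_eq_single 0]
    · simp [rho_zero, dl, uu]
    · intro x hx
      simp [dl, hx]
  | succ n ih =>
    have e : m + (n + 1) = (m + 1) + n := by ring
    rw [e, ih (m + 1), Function.iterate_succ_apply', Function.iterate_succ_apply']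
    exact self_adj hp (FS_iter n) (FS_iter m)

lemma uu_even_anti {p : ℤ → ℝ} (hp : IsTrans p) : Antitone fun n : ℕ => uu p (2 * n) := by
  apply antitone_nat_of_succ_le
  intro n
  have h1 := uu_inner hp n n
  have h2 := uu_inner hp (n + 1) (n + 1)
  have e1 : 2 * n = n + n := by ring
  have e2 : 2 * (n + 1) = (n + 1) + (n + 1) := by ring
  rw [e1, e2, h1, h2, Function.iterate_succ_apply']
  have h3 := contraction hp (FS_iter (p := p) n)
  simp only [sq, ← mul_assoc] at h3
  exact h3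

lemma iter_odd {p : ℤ → ℝ} : ∀ (n : ℕ) (x : ℤ), ((n : ℤ) + x) % 2 = 1 → (Pop p)^[n] dl x = 0
  | 0, x, h => by
    have : x ≠ 0 := by intro h0; subst h0; simp at h
    simp [dl, this]
  | n + 1, x, h => by
    rw [Function.iterate_succ_apply']
    have h1 : ((n : ℤ) + (x + 1)) % 2 = 1 := by push_cast at h; omega
    have h2 : ((n : ℤ) + (x - 1)) % 2 = 1 := by push_cast at h; omega
    simp only [Pop, iter_odd n _ h1, iter_odd n _ h2]
    simp

lemma uu_odd {p : ℤ → ℝ} (n : ℕ) : uu p (2 * n + 1) = 0 :=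
  iter_odd _ _ (by push_cast; omega)

section bounds

variable {α : ℝ} (h0 : 0 < α) (h1 : α < 1)

include h0 h1

lemma sum_uu_le (M : ℕ) : ∑ m ∈ range (M + 1), uu (tr α) m ≤ 2 / (1 - α) * ((M : ℝ) + 1) ^ α := by
  have hp := tr_isTrans h0 h1
  have h2 := sum_uu_upper hp M
  have h3 := TT_lower h0 h1 M
  have hα : 0 < 1 - α := by linarith
  have hy : 0 < ((M : ℝ) + 1) ^ (-α) := by positivity
  have hT : 0 < TT (tr α) M := lt_of_lt_of_le (by positivity) h3
  have hS : 0 ≤ ∑ m ∈ range (M + 1), uu (tr α) m := Finset.sum_nonneg fun m _ => uu_nonneg hp m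
  have h4 : (∑ m ∈ range (M + 1), uu (tr α) m) * ((1 - α) / 2 * ((M : ℝ) + 1) ^ (-α)) ≤ 1 :=
    (mul_le_mul_of_nonneg_left h3 hS).trans h2
  have h5 : ((M : ℝ) + 1) ^ (-α) = (((M : ℝ) + 1) ^ α)⁻¹ := Real.rpow_neg (by positivity) _
  rw [h5] at h4
  have hz : 0 < ((M : ℝ) + 1) ^ α := by positivity
  rw [div_mul_eq_mul_div, le_div_iff₀ hα]
  have e : (∑ m ∈ range (M + 1), uu (tr α) m) * ((1 - α) / 2 * (((M : ℝ) + 1) ^ α)⁻¹) =
    ((∑ m ∈ range (M + 1), uu (tr α) m) * (1 - α)) / (2 * ((M : ℝ) + 1) ^ α) := by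
    field_simp
  rw [e, div_le_one (by positivity)] at h4
  exact h4

lemma sum_uu_ge (M : ℕ) : (1 - α) / 8 * ((M : ℝ) + 1) ^ α ≤ ∑ m ∈ range (M + 1), uu (tr α) m := by
  have hp := tr_isTrans h0 h1
  have hα : 0 < 1 - α := by linarith
  have h2 := sum_uu_lower hp M
  have hS : 0 ≤ ∑ m ∈ range (M + 1), uu (tr α) m := Finset.sum_nonneg fun m _ => uu_nonneg hp m
  have h3 : ∑ k ∈ range (M + 1), TT (tr α) k ≤ 8 * (((M : ℝ) + 1) ^ (1 - α) / (1 - α)) := by
    refine le_trans ?_ (mul_le_mul_of_nonneg_left (sum_rpow_le h0 h1 M) (by norm_num))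
    rw [Finset.mul_sum]
    exact Finset.sum_le_sum fun k _ => TT_upper h0 h1 k
  have h4 := h2.trans (mul_le_mul_of_nonneg_left h3 hS)
  have e : ((M : ℝ) + 1) ^ (1 - α) = ((M : ℝ) + 1) / ((M : ℝ) + 1) ^ α := by
    rw [Real.rpow_sub (by positivity), Real.rpow_one]
  rw [e] at h4
  have hz : 0 < ((M : ℝ) + 1) ^ α := by positivity
  have hM : (0 : ℝ) < (M : ℝ) + 1 := by positivity
  have e2 : (∑ m ∈ range (M + 1), uu (tr α) m) *
      (8 * (((M : ℝ) + 1) / ((M : ℝ) + 1) ^ α / (1 - α))) =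
      ((M : ℝ) + 1) * ((∑ m ∈ range (M + 1), uu (tr α) m) * 8 / (((M : ℝ) + 1) ^ α * (1 - α))) := by
    field_simp
  rw [e2] at h4
  have h5 : 1 ≤ (∑ m ∈ range (M + 1), uu (tr α) m) * 8 / (((M : ℝ) + 1) ^ α * (1 - α)) := by
    by_contra hc
    push Not at hc
    nlinarith
  rw [le_div_iff₀ (by positivity)] at h5
  linarith

lemma uu_even_le (n : ℕ) : uu (tr α) (2 * n) ≤ 8 / (1 - α) * ((2 * n : ℝ) + 1) ^ (α - 1) := by
  have hp := tr_isTrans h0 h1
  have hα : 0 < 1 - α := by linarith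
  have h2 := sum_uu_le h0 h1 (2 * n)
  have h3 : ((n : ℝ) + 1) * uu (tr α) (2 * n) ≤ ∑ m ∈ range (2 * n + 1), uu (tr α) m := by
    have : ∀ k : ℕ, ∑ m ∈ range (2 * k + 1), uu (tr α) m = ∑ j ∈ range (k + 1), uu (tr α) (2 * j) := by
      intro k
      induction k with
      | zero => simp
      | succ k ih =>
        rw [show 2 * (k + 1) + 1 = (2 * k + 1) + 1 + 1 by ring, Finset.sum_range_succ,
          Finset.sum_range_succ, ih, uu_odd, Finset.sum_range_succ _ (k + 1)]
        simp only [add_zero]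
        congr 2
    rw [this]
    have h4 : ∑ j ∈ range (n + 1), uu (tr α) (2 * n) ≤ ∑ j ∈ range (n + 1), uu (tr α) (2 * j) :=
      Finset.sum_le_sum fun j hj => uu_even_anti hp (by have := Finset.mem_range.1 hj; omega)
    simpa using h4
  have h4 := h3.trans h2
  push_cast at h4
  have hn : (0 : ℝ) ≤ n := Nat.cast_nonneg n
  have e : ((2 * n : ℝ) + 1) ^ α = ((2 * n : ℝ) + 1) ^ (α - 1) * ((2 * n : ℝ) + 1) := by
    rw [← Real.rpow_add_one (by positivity)]; congr 1; ring
  rw [e] at h4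
  have hz : 0 < ((2 * n : ℝ) + 1) ^ (α - 1) := by positivity
  have h5 : ((n : ℝ) + 1) * uu (tr α) (2 * n) ≤
      ((n : ℝ) + 1) * (8 / (1 - α) * ((2 * n : ℝ) + 1) ^ (α - 1)) := by
    refine h4.trans ?_
    have : ((2 * n : ℝ) + 1) ≤ 2 * (n + 1) := by linarith
    calc 2 / (1 - α) * (((2 * n : ℝ) + 1) ^ (α - 1) * ((2 * n : ℝ) + 1))
        ≤ 2 / (1 - α) * (((2 * n : ℝ) + 1) ^ (α - 1) * (2 * (n + 1))) := by gcongr
      _ ≤ _ := by
        have : 0 ≤ 1 / (1 - α) * ((2 * n : ℝ) + 1) ^ (α - 1) * (n + 1) := by positivity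
        have e1 : 2 / (1 - α) * (((2 * n : ℝ) + 1) ^ (α - 1) * (2 * ((n : ℝ) + 1))) =
          4 * (1 / (1 - α) * ((2 * n : ℝ) + 1) ^ (α - 1) * (n + 1)) := by ring
        have e2 : ((n : ℝ) + 1) * (8 / (1 - α) * ((2 * n : ℝ) + 1) ^ (α - 1)) =
          8 * (1 / (1 - α) * ((2 * n : ℝ) + 1) ^ (α - 1) * (n + 1)) := by ring
        rw [e1, e2]
        linarith
  exact le_of_mul_le_mul_left h5 (by positivity)

lemma uu_le (n : ℕ) : uu (tr α) n ≤ 8 / (1 - α) * ((n : ℝ) + 1) ^ (α - 1) := by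
  rcases Nat.even_or_odd' n with ⟨k, rfl | rfl⟩
  · have := uu_even_le h0 h1 k
    push_cast
    exact this
  · rw [uu_odd]
    have : 0 < 1 - α := by linarith
    positivity

lemma uu_sq_summable (h2 : α < 1 / 2) : Summable fun n => uu (tr α) n ^ 2 := by
  have hp := tr_isTrans h0 h1
  have hs : Summable fun n : ℕ => (8 / (1 - α)) ^ 2 * ((n : ℝ) + 1) ^ (2 * α - 2) := by
    apply Summable.mul_left
    have h3 : Summable fun n : ℕ => (n : ℝ) ^ (2 * α - 2) := by
      rw [Real.summable_nat_rpow]; linarith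
    have := (summable_nat_add_iff 1).2 h3
    simpa using this
  refine Summable.of_nonneg_of_le (fun n => sq_nonneg _) (fun n => ?_) hs
  have h3 := uu_le h0 h1 n
  have h4 := uu_nonneg hp n
  calc uu (tr α) n ^ 2 ≤ (8 / (1 - α) * ((n : ℝ) + 1) ^ (α - 1)) ^ 2 := by gcongr
    _ = (8 / (1 - α)) ^ 2 * ((n : ℝ) + 1) ^ (2 * α - 2) := by
      rw [mul_pow, ← Real.rpow_natCast (((n : ℝ) + 1) ^ (α - 1)) 2, ← Real.rpow_mul (by positivity)]
      congr 2
      push_cast
      ring

end bounds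

end Pool.Agent.H646R3.Cop
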