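import Pool.Agent.H646R3.Cop.Rev

/-!
# Second moment estimates
-/

set_option autoImplicit false

namespace Pool.Agent.H646R3.Cop

open Finset

lemma conv_comm (a c : ℕ → ℝ) (n : ℕ) :
    ∑ m ∈ range (n + 1), a m * c (n - m) = ∑ m ∈ range (n + 1), c m * a (n - m) := by
  rw [← Finset.Nat.sum_antidiagonal_eq_sum_range_succ_mk (fun x => a x.1 * c x.2),
    ← Finset.Nat.sum_antidiagonal_eq_sum_range_succ_mk (fun x => c x.1 * a x.2),
    ← Finset.Nat.sum_antidiagonal_swap]
  exact Finset.sum_congr rfl fun x _ => mul_comm _ _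

lemma young {u b : ℕ → ℝ} (hb : ∀ n, 0 ≤ b n) {B : ℝ}
    (hB : ∀ N, ∑ k ∈ range N, b k ≤ B) (N : ℕ) :
    ∑ n ∈ range N, (∑ m ∈ range (n + 1), u m * b (n - m)) ^ 2 ≤
      B ^ 2 * ∑ m ∈ range N, u m ^ 2 := by
  have hB0 : 0 ≤ B := by simpa using hB 0
  have h1 : ∀ n, (∑ m ∈ range (n + 1), u m * b (n - m)) ^ 2 ≤
      B * ∑ m ∈ range (n + 1), u m ^ 2 * b (n - m) := by
    intro n
    have h2 : (∑ m ∈ range (n + 1), u m * b (n - m)) ^ 2 ≤
        (∑ m ∈ range (n + 1), b (n - m)) * ∑ m ∈ range (n + 1), u m ^ 2 * b (n - m) :=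
      Finset.sum_sq_le_sum_mul_sum_of_sq_le_mul _ (fun i _ => hb _)
        (fun i _ => mul_nonneg (sq_nonneg _) (hb _)) (fun i _ => le_of_eq (by ring))
    refine h2.trans (mul_le_mul_of_nonneg_right ?_ ?_)
    · rw [← Finset.sum_range_reflect] at *
      refine le_trans (le_of_eq ?_) (hB (n + 1))
      refine Finset.sum_congr rfl fun i hi => ?_
      have := Finset.mem_range.1 hi
      congr 1
      omega
    · exact Finset.sum_nonneg fun i _ => mul_nonneg (sq_nonneg _) (hb _)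
  calc ∑ n ∈ range N, (∑ m ∈ range (n + 1), u m * b (n - m)) ^ 2
      ≤ ∑ n ∈ range N, B * ∑ m ∈ range (n + 1), u m ^ 2 * b (n - m) :=
        Finset.sum_le_sum fun n _ => h1 n
    _ = B * ∑ m ∈ range N, u m ^ 2 * ∑ k ∈ range (N - m), b k := by
        rw [← Finset.mul_sum, Finset.sum_range_diag_flip N (fun m k => u m ^ 2 * b k)]
        simp only [Finset.mul_sum]
    _ ≤ B * ∑ m ∈ range N, u m ^ 2 * B := by
        refine mul_le_mul_of_nonneg_left (Finset.sum_le_sum fun m _ => ?_) hB0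
        exact mul_le_mul_of_nonneg_left (hB _) (sq_nonneg _)
    _ = B ^ 2 * ∑ m ∈ range N, u m ^ 2 := by
        rw [← Finset.sum_mul]; ring

/-- the indicator of `x ≤ 0` -/
noncomputable def ind (x : ℤ) : ℝ := if x ≤ 0 then 1 else 0

lemma ind_nonneg (x : ℤ) : 0 ≤ ind x := by unfold ind; split_ifs <;> norm_num

lemma ind_le_one (x : ℤ) : ind x ≤ 1 := by unfold ind; split_ifs <;> norm_num

noncomputable def aw (x : ℤ) : ℝ := ind x * ww x

lemma aw_nonneg (x : ℤ) : 0 ≤ aw x := mul_nonneg (ind_nonneg x) (ww_pos x).le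

lemma aw_le (x : ℤ) : aw x ≤ ww x := by
  have := ind_le_one x
  have := ww_pos x
  unfold aw
  nlinarith

lemma aw_zero : aw 0 = 1 := by simp [aw, ind, ww_zero]

lemma Qk_aw_pos {p : ℤ → ℝ} : ∀ (n : ℕ) (x : ℤ), 0 ≤ x → Qk p aw n x = 0
  | 0, x, hx => by
    simp only [Qk]
    split_ifs with h
    · rfl
    · have : ¬ x ≤ 0 := by omega
      simp [aw, ind, this]
  | n + 1, x, hx => by
    simp only [Qk]
    split_ifs with h
    · rfl
    · simp [Pop, Qk_aw_pos n (x + 1) (by omega), Qk_aw_pos n (x - 1) (by omega)]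

/-- excursion kernel for `aw` -/
noncomputable def bb (α : ℝ) : ℕ → ℝ
  | 0 => 1
  | n + 1 => Pop (tr α) (Qk (tr α) aw n) 0

lemma bb_nonneg {α : ℝ} (h0 : 0 < α) (h1 : α < 1) (n : ℕ) : 0 ≤ bb α n := by
  cases n with
  | zero => exact zero_le_one
  | succ n => exact Pop_nonneg (tr_isTrans h0 h1) (Qk_nonneg (tr_isTrans h0 h1) aw_nonneg n) 0

lemma bb_le {α : ℝ} (n : ℕ) : bb α (n + 1) ≤ 3 / 2 * (3 / 5) ^ n := by
  show Pop (tr α) (Qk (tr α) aw n) 0 ≤ _
  unfold Pop
  rw [tr_zero, Qk_aw_pos n (0 + 1) (by norm_num)]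
  have h2 := Qk_neg (α := α) (f := aw) (fun x _ => aw_le x) n (0 - 1) (by norm_num)
  have e : ww (0 - 1) = 3 := by simp [ww]
  rw [e] at h2
  linarith

lemma geom_le (r : ℝ) (h0 : 0 ≤ r) (h1 : r < 1) (N : ℕ) :
    ∑ k ∈ range N, r ^ k ≤ 1 / (1 - r) := by
  have h : 0 < 1 - r := by linarith
  rw [le_div_iff₀ h, geom_sum_mul_neg]
  have : 0 ≤ r ^ N := by positivity
  linarith

lemma sum_bb_le {α : ℝ} (h0 : 0 < α) (h1 : α < 1) (N : ℕ) : ∑ k ∈ range N, bb α k ≤ 5 := by
  cases N with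
  | zero => simp
  | succ N =>
    rw [Finset.sum_range_succ']
    have h2 : ∑ k ∈ range N, bb α (k + 1) ≤ ∑ k ∈ range N, 3 / 2 * (3 / 5 : ℝ) ^ k :=
      Finset.sum_le_sum fun k _ => bb_le k
    rw [← Finset.mul_sum] at h2
    have h3 := geom_le (3 / 5) (by norm_num) (by norm_num) N
    have e : bb α 0 = 1 := rfl
    rw [e]
    norm_num at h3 ⊢
    linarith

/-- the function `G_n(x) = E_x [aw (S_n)]` -/
noncomputable def GG (α : ℝ) (n : ℕ) (x : ℤ) : ℝ := (Pop (tr α))^[n] aw x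

lemma GG_nonneg {α : ℝ} (h0 : 0 < α) (h1 : α < 1) (n : ℕ) (x : ℤ) : 0 ≤ GG α n x :=
  iter_nonneg (tr_isTrans h0 h1) aw_nonneg n x

lemma GG_zero_eq (α : ℝ) (n : ℕ) :
    GG α n 0 = ∑ m ∈ range (n + 1), uu (tr α) m * bb α (n - m) :=
  iter_eq_conv aw (bb α) (by rw [aw_zero]; rfl) (fun _ => rfl) n

section

variable {α : ℝ} (h0 : 0 < α) (h1 : α < 1) {U2 : ℝ}
  (hU : ∀ N, ∑ m ∈ range N, uu (tr α) m ^ 2 ≤ U2)

include h0 h1 hU

lemma GG_zero_l2 (N : ℕ) : ∑ n ∈ range N, GG α n 0 ^ 2 ≤ 25 * U2 := by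
  simp only [GG_zero_eq]
  refine (young (bb_nonneg h0 h1) (sum_bb_le h0 h1) N).trans ?_
  have := hU N
  norm_num
  linarith

lemma GG_l2 (N : ℕ) {x : ℤ} (hx : x ≤ 0) :
    ∑ n ∈ range N, GG α n x ^ 2 ≤ (4 + 50 * U2) * ww x ^ 2 := by
  have hp := tr_isTrans h0 h1
  have hfp : ∀ N, ∑ k ∈ range N, fp (tr α) k x ≤ 1 := by
    intro N
    cases N with
    | zero => simp
    | succ N =>
      have h2 := fp_sum_add_surv (p := tr α) N x
      have h3 := Qk_nonneg hp (f := fun _ => 1) (fun _ => zero_le_one) N x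
      linarith
  have hG : ∀ n, GG α n x = Qk (tr α) aw n x +
      ∑ m ∈ range (n + 1), GG α m 0 * fp (tr α) (n - m) x := by
    intro n
    rw [conv_comm (fun m => GG α m 0) (fun m => fp (tr α) m x)]
    exact iter_decomp aw n x
  have hw := ww_one_le x
  have h2 : ∑ n ∈ range N, (Qk (tr α) aw n x) ^ 2 ≤ 2 * ww x ^ 2 := by
    have h3 : ∀ n, (Qk (tr α) aw n x) ^ 2 ≤ ww x ^ 2 * (9 / 25) ^ n := by
      intro n
      have h4 := Qk_neg (α := α) (f := aw) (fun x _ => aw_le x) n x hx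
      have h5 := Qk_nonneg hp aw_nonneg n x
      calc (Qk (tr α) aw n x) ^ 2 ≤ ((3 / 5) ^ n * ww x) ^ 2 := by gcongr
        _ = ww x ^ 2 * (9 / 25) ^ n := by
          rw [mul_pow, ← pow_mul, mul_comm n 2, pow_mul]; norm_num; ring
    refine (Finset.sum_le_sum fun n _ => h3 n).trans ?_
    rw [← Finset.mul_sum]
    have h4 := geom_le (9 / 25) (by norm_num) (by norm_num) N
    have h5 : 0 ≤ ww x ^ 2 := by positivity
    have h6 : ∑ k ∈ range N, (9 / 25 : ℝ) ^ k ≤ 2 := by
      refine h4.trans ?_; norm_num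
    nlinarith
  have h3 : ∑ n ∈ range N, (∑ m ∈ range (n + 1), GG α m 0 * fp (tr α) (n - m) x) ^ 2 ≤ 25 * U2 := by
    refine (young (u := fun m => GG α m 0) (b := fun m => fp (tr α) m x)
      (fun n => fp_nonneg hp n x) hfp N).trans ?_
    have := GG_zero_l2 h0 h1 hU N
    simpa using this
  have hU0 : 0 ≤ U2 := by simpa using hU 0
  calc ∑ n ∈ range N, GG α n x ^ 2
      ≤ ∑ n ∈ range N, (2 * (Qk (tr α) aw n x) ^ 2 +
          2 * (∑ m ∈ range (n + 1), GG α m 0 * fp (tr α) (n - m) x) ^ 2) := by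
        refine Finset.sum_le_sum fun n _ => ?_
        rw [hG n]
        nlinarith [sq_nonneg (Qk (tr α) aw n x -
          ∑ m ∈ range (n + 1), GG α m 0 * fp (tr α) (n - m) x)]
    _ ≤ (4 + 50 * U2) * ww x ^ 2 := by
        rw [Finset.sum_add_distrib, ← Finset.mul_sum, ← Finset.mul_sum]
        have : 1 ≤ ww x ^ 2 := one_le_pow₀ hw
        nlinarith

end

/-! ### Two replicas -/

/-- two-replica transition operator -/
noncomputable def P2 (p : ℤ → ℝ) (f : ℤ → ℤ → ℝ) : ℤ → ℤ → ℝ :=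
  fun x x' => Pop p (fun y => Pop p (fun y' => f y y') x') x

lemma P2_mono {p : ℤ → ℝ} (hp : IsTrans p) {f g : ℤ → ℤ → ℝ} (h : ∀ x x', f x x' ≤ g x x')
    (x x' : ℤ) : P2 p f x x' ≤ P2 p g x x' :=
  Pop_mono hp (fun y => Pop_mono hp (fun y' => h y y') x') x

lemma P2_add {p : ℤ → ℝ} (f g : ℤ → ℤ → ℝ) (x x' : ℤ) :
    P2 p (fun y y' => f y y' + g y y') x x' = P2 p f x x' + P2 p g x x' := by
  unfold P2 Pop; ring

lemma P2_mul {p : ℤ → ℝ} (c : ℝ) (f : ℤ → ℤ → ℝ) (x x' : ℤ) :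
    P2 p (fun y y' => c * f y y') x x' = c * P2 p f x x' := by
  unfold P2 Pop; ring

lemma P2_sum {p : ℤ → ℝ} {ι : Type*} (t : Finset ι) (f : ι → ℤ → ℤ → ℝ) (x x' : ℤ) :
    P2 p (fun y y' => ∑ i ∈ t, f i y y') x x' = ∑ i ∈ t, P2 p (f i) x x' := by
  unfold P2
  have : (fun y => Pop p (fun y' => ∑ i ∈ t, f i y y') x') =
      fun y => ∑ i ∈ t, Pop p (fun y' => f i y y') x' := by
    funext y; exact Pop_sum t (fun i y' => f i y y') x'
  rw [this]
  exact Pop_sum t (fun i y => Pop p (fun y' => f i y y') x') x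

lemma P2_one {p : ℤ → ℝ} (x x' : ℤ) : P2 p (fun _ _ => 1) x x' = 1 := by
  unfold P2 Pop; ring

lemma P2_tensor {p : ℤ → ℝ} (f g : ℤ → ℝ) (n : ℕ) (x x' : ℤ) :
    (P2 p)^[n] (fun y y' => f y * g y') x x' = (Pop p)^[n] f x * (Pop p)^[n] g x' := by
  induction n generalizing x x' with
  | zero => rfl
  | succ n ih =>
    rw [Function.iterate_succ_apply', Function.iterate_succ_apply', Function.iterate_succ_apply']
    have : (P2 p)^[n] (fun y y' => f y * g y') =
      fun y y' => (Pop p)^[n] f y * (Pop p)^[n] g y' := by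
      funext y y'; exact ih y y'
    rw [this]
    unfold P2 Pop
    ring

lemma P2_iter_mono {p : ℤ → ℝ} (hp : IsTrans p) {f g : ℤ → ℤ → ℝ} (h : ∀ x x', f x x' ≤ g x x')
    (n : ℕ) (x x' : ℤ) : (P2 p)^[n] f x x' ≤ (P2 p)^[n] g x x' := by
  induction n generalizing x x' with
  | zero => exact h x x'
  | succ n ih =>
    rw [Function.iterate_succ_apply', Function.iterate_succ_apply']
    exact P2_mono hp ih x x'

lemma P2_iter_mul {p : ℤ → ℝ} (c : ℝ) (f : ℤ → ℤ → ℝ) (n : ℕ) (x x' : ℤ) :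
    (P2 p)^[n] (fun y y' => c * f y y') x x' = c * (P2 p)^[n] f x x' := by
  induction n generalizing x x' with
  | zero => rfl
  | succ n ih =>
    rw [Function.iterate_succ_apply', Function.iterate_succ_apply']
    have : (P2 p)^[n] (fun y y' => c * f y y') = fun y y' => c * (P2 p)^[n] f y y' := by
      funext y y'; exact ih y y'
    rw [this, P2_mul]

/-- two-replica expectation -/
noncomputable def expect2 (p : ℤ → ℝ) (N : ℕ) (x x' : ℤ) (H : (ℕ → ℤ) → (ℕ → ℤ) → ℝ) : ℝ :=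
  expect p N x (fun s => expect p N x' (fun s' => H s s'))

lemma expect2_succ {p : ℤ → ℝ} (N : ℕ) (x x' : ℤ) (H : (ℕ → ℤ) → (ℕ → ℤ) → ℝ) :
    expect2 p (N + 1) x x' H =
      P2 p (fun y y' => expect2 p N y y' (fun s s' => H (cons x s) (cons x' s'))) x x' := by
  simp only [expect2, expect, P2, Pop]
  rw [expect_add, expect_add, expect_mul_left, expect_mul_left, expect_mul_left, expect_mul_left]

lemma expect2_congr {p : ℤ → ℝ} (N : ℕ) (x x' : ℤ) {H H' : (ℕ → ℤ) → (ℕ → ℤ) → ℝ}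
    (h : ∀ s s', s 0 = x → s' 0 = x' → H s s' = H' s s') :
    expect2 p N x x' H = expect2 p N x x' H' :=
  expect_congr N x fun s hs => expect_congr N x' fun s' hs' => h s s' hs hs'

lemma expect2_mono {p : ℤ → ℝ} (hp : IsTrans p) (N : ℕ) (x x' : ℤ)
    {H H' : (ℕ → ℤ) → (ℕ → ℤ) → ℝ}
    (h : ∀ s s', s 0 = x → s' 0 = x' → H s s' ≤ H' s s') :
    expect2 p N x x' H ≤ expect2 p N x x' H' :=
  expect_mono hp N x fun s hs => expect_mono hp N x' fun s' hs' => h s s' hs hs'

lemma expect2_add {p : ℤ → ℝ} (N : ℕ) (x x' : ℤ) (H H' : (ℕ → ℤ) → (ℕ → ℤ) → ℝ) :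
    expect2 p N x x' (fun s s' => H s s' + H' s s') =
      expect2 p N x x' H + expect2 p N x x' H' := by
  simp only [expect2, expect_add]

lemma expect2_mul_left {p : ℤ → ℝ} (N : ℕ) (x x' : ℤ) (c : ℝ) (H : (ℕ → ℤ) → (ℕ → ℤ) → ℝ) :
    expect2 p N x x' (fun s s' => c * H s s') = c * expect2 p N x x' H := by
  simp only [expect2, expect_mul_left]

/-- the exponential moment of the overlap -/
noncomputable def Phi (p : ℤ → ℝ) (κ : ℝ) (N : ℕ) (x x' : ℤ) : ℝ :=
  expect2 p N x x' (fun s s' => ∏ n ∈ range N, (1 + κ * (ind (s (n + 1)) * ind (s' (n + 1)))))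

lemma Phi_zero {p : ℤ → ℝ} (κ : ℝ) (x x' : ℤ) : Phi p κ 0 x x' = 1 := by
  simp [Phi, expect2, expect]

lemma Phi_succ {p : ℤ → ℝ} (κ : ℝ) (N : ℕ) (x x' : ℤ) : Phi p κ (N + 1) x x' =
    P2 p (fun y y' => (1 + κ * (ind y * ind y')) * Phi p κ N y y') x x' := by
  unfold Phi
  rw [expect2_succ]
  congr 1
  funext y y'
  rw [← expect2_mul_left]
  refine expect2_congr N y y' fun s s' hs hs' => ?_
  rw [Finset.prod_range_succ', mul_comm]
  simp only [cons_succ, hs, hs']

lemma Phi_nonneg {p : ℤ → ℝ} (hp : IsTrans p) {κ : ℝ} (hκ : 0 ≤ κ) (N : ℕ) (x x' : ℤ) :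
    0 ≤ Phi p κ N x x' :=
  expect_nonneg hp N x fun s _ => expect_nonneg hp N x' fun s' _ =>
    Finset.prod_nonneg fun n _ => by
      have := mul_nonneg (ind_nonneg (s (n + 1))) (ind_nonneg (s' (n + 1)))
      have := mul_nonneg hκ this
      linarith

lemma Phi_repr {p : ℤ → ℝ} (κ : ℝ) (N : ℕ) (x x' : ℤ) : Phi p κ N x x' = 1 + κ *
    ∑ n ∈ range N, (P2 p)^[n + 1] (fun y y' => ind y * ind y' * Phi p κ (N - 1 - n) y y') x x' := by
  induction N generalizing x x' with
  | zero => simp [Phi_zero]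
  | succ N ih =>
    rw [Phi_succ]
    have e : (fun y y' => (1 + κ * (ind y * ind y')) * Phi p κ N y y') =
        fun y y' => (1 + κ * ∑ n ∈ range N,
          (P2 p)^[n + 1] (fun y y' => ind y * ind y' * Phi p κ (N - 1 - n) y y') y y') +
            κ * (ind y * ind y' * Phi p κ N y y') := by
      funext y y'
      rw [← ih y y']
      ring
    rw [e, P2_add, P2_add, P2_one, P2_mul, P2_mul, P2_sum, Finset.sum_range_succ']
    simp only [zero_add, Function.iterate_one, Nat.add_sub_cancel, Nat.sub_zero]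
    rw [mul_add, ← add_assoc]
    congr 3
    refine Finset.sum_congr rfl fun n hn => ?_
    rw [Function.iterate_succ_apply' _ (n + 1)]
    have : N - (n + 1) = N - 1 - n := by omega
    rw [this]

lemma Phi_le {α : ℝ} (h0 : 0 < α) (h1 : α < 1) {U2 : ℝ}
    (hU : ∀ N, ∑ m ∈ range N, uu (tr α) m ^ 2 ≤ U2) {κ : ℝ} (hκ : 0 ≤ κ)
    (hκ2 : κ * (4 + 50 * U2) ≤ 1 / 2) (N : ℕ) : ∀ x x' : ℤ, x ≤ 0 → x' ≤ 0 →
    Phi (tr α) κ N x x' ≤ 2 * (ww x * ww x') := by
  have hp := tr_isTrans h0 h1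
  induction N using Nat.strong_induction_on with
  | _ N ih =>
    intro x x' hx hx'
    rw [Phi_repr]
    have h2 : ∀ n ∈ range N,
        (P2 (tr α))^[n + 1] (fun y y' => ind y * ind y' * Phi (tr α) κ (N - 1 - n) y y') x x' ≤
          2 * (GG α (n + 1) x * GG α (n + 1) x') := by
      intro n hn
      have hn' := Finset.mem_range.1 hn
      have h3 : ∀ y y', ind y * ind y' * Phi (tr α) κ (N - 1 - n) y y' ≤ 2 * (aw y * aw y') := by
        intro y y'
        by_cases hy : y ≤ 0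
        · by_cases hy' : y' ≤ 0
          · have h4 := ih (N - 1 - n) (by omega) y y' hy hy'
            simp only [aw, ind, hy, hy', if_true, one_mul]
            exact h4
          · simp [aw, ind, hy']
        · simp [aw, ind, hy]
      refine (P2_iter_mono hp h3 (n + 1) x x').trans (le_of_eq ?_)
      rw [P2_iter_mul, P2_tensor]
      rfl
    have h5 : ∑ n ∈ range N,
        (P2 (tr α))^[n + 1] (fun y y' => ind y * ind y' * Phi (tr α) κ (N - 1 - n) y y') x x' ≤
          2 * ((4 + 50 * U2) * (ww x * ww x')) := by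
      refine (Finset.sum_le_sum h2).trans ?_
      rw [← Finset.mul_sum]
      refine mul_le_mul_of_nonneg_left ?_ (by norm_num)
      have hw := ww_pos x
      have hw' := ww_pos x'
      have g1 := GG_l2 h0 h1 hU (N + 1) hx
      have g2 := GG_l2 h0 h1 hU (N + 1) hx'
      rw [Finset.sum_range_succ'] at g1 g2
      have s1 := sq_nonneg (GG α 0 x)
      have s2 := sq_nonneg (GG α 0 x')
      have key : ∀ n, GG α (n + 1) x * GG α (n + 1) x' ≤
          (ww x' / ww x) / 2 * GG α (n + 1) x ^ 2 + (ww x / ww x') / 2 * GG α (n + 1) x' ^ 2 := by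
        intro n
        have e : (ww x' / ww x) / 2 * GG α (n + 1) x ^ 2 + (ww x / ww x') / 2 * GG α (n + 1) x' ^ 2 -
            GG α (n + 1) x * GG α (n + 1) x' =
            (ww x' * GG α (n + 1) x - ww x * GG α (n + 1) x') ^ 2 / (2 * (ww x * ww x')) := by
          field_simp
          ring
        have : 0 ≤ (ww x' * GG α (n + 1) x - ww x * GG α (n + 1) x') ^ 2 / (2 * (ww x * ww x')) := by
          positivity
        linarith
      refine (Finset.sum_le_sum fun n _ => key n).trans ?_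
      rw [Finset.sum_add_distrib, ← Finset.mul_sum, ← Finset.mul_sum]
      have r1 : ∑ n ∈ range N, GG α (n + 1) x ^ 2 ≤ (4 + 50 * U2) * ww x ^ 2 := by linarith
      have r2 : ∑ n ∈ range N, GG α (n + 1) x' ^ 2 ≤ (4 + 50 * U2) * ww x' ^ 2 := by linarith
      calc (ww x' / ww x) / 2 * ∑ n ∈ range N, GG α (n + 1) x ^ 2 +
            (ww x / ww x') / 2 * ∑ n ∈ range N, GG α (n + 1) x' ^ 2
          ≤ (ww x' / ww x) / 2 * ((4 + 50 * U2) * ww x ^ 2) +
            (ww x / ww x') / 2 * ((4 + 50 * U2) * ww x' ^ 2) := by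
            gcongr
        _ = (4 + 50 * U2) * (ww x * ww x') := by
            field_simp
            ring
    have hw1 := ww_one_le x
    have hw2 := ww_one_le x'
    have hww : 1 ≤ ww x * ww x' := by nlinarith
    have h6 := mul_le_mul_of_nonneg_left h5 hκ
    have h7 : κ * (2 * ((4 + 50 * U2) * (ww x * ww x'))) =
      2 * (κ * (4 + 50 * U2)) * (ww x * ww x') := by ring
    rw [h7] at h6
    have h8 : 2 * (κ * (4 + 50 * U2)) * (ww x * ww x') ≤ 1 * (ww x * ww x') :=
      mul_le_mul_of_nonneg_right (by linarith) (by linarith)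
    linarith

/-! ### Number of visits to `0` -/

/-- number of visits to `0` at times `0, ..., j` -/
noncomputable def NN (s : ℕ → ℤ) (j : ℕ) : ℝ := ∑ i ∈ range (j + 1), dl (s i)

lemma dl_nonneg (x : ℤ) : 0 ≤ dl x := by unfold dl; split_ifs <;> norm_num

lemma NN_nonneg (s : ℕ → ℤ) (j : ℕ) : 0 ≤ NN s j := Finset.sum_nonneg fun _ _ => dl_nonneg _

lemma expect_NN {p : ℤ → ℝ} (M : ℕ) :
    expect p M 0 (fun s => NN s M) = ∑ i ∈ range (M + 1), uu p i := by
  unfold NN
  rw [expect_sum]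
  refine Finset.sum_congr rfl fun i hi => ?_
  have := Finset.mem_range.1 hi
  rw [expect_at (by omega : i ≤ M)]
  rfl

lemma expect_pair {p : ℤ → ℝ} {i j M : ℕ} (hij : i ≤ j) (hj : j ≤ M) :
    expect p M 0 (fun s => dl (s i) * dl (s j)) = uu p i * uu p (j - i) := by
  obtain ⟨b, rfl⟩ := Nat.exists_eq_add_of_le (hij.trans hj)
  rw [expect_markov]
  have h : ∀ s : ℕ → ℤ, expect p b (s i) (fun s' => dl (splice i s s' i) * dl (splice i s s' j)) =
      dl (s i) * uu p (j - i) := by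
    intro s
    have h2 : ∀ s' : ℕ → ℤ, dl (splice i s s' i) * dl (splice i s s' j) =
        dl (s' 0) * dl (s' (j - i)) := by
      intro s'
      have : ¬ j < i := by omega
      simp [splice, this]
    simp only [h2]
    rw [expect_congr b (s i) (G := fun s' => dl (s i) * dl (s' (j - i)))
      (fun s' hs' => by rw [hs']), expect_mul_left, expect_at (by omega : j - i ≤ b)]
    unfold dl
    by_cases hs : s i = 0
    · rw [hs]; rfl
    · simp [hs]
  simp only [h]
  rw [expect_mul_right, expect_at le_rfl]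
  rfl

lemma expect_NN_sq {p : ℤ → ℝ} (hp : IsTrans p) (M : ℕ) :
    expect p M 0 (fun s => NN s M ^ 2) ≤ 2 * (∑ i ∈ range (M + 1), uu p i) ^ 2 := by
  have e : ∀ s, NN s M ^ 2 = ∑ i ∈ range (M + 1), ∑ j ∈ range (M + 1), dl (s i) * dl (s j) := by
    intro s
    unfold NN
    rw [sq, Finset.sum_mul_sum]
  simp only [e]
  rw [expect_sum]
  simp only [expect_sum]
  have h : ∀ i ∈ range (M + 1), ∀ j ∈ range (M + 1),
      expect p M 0 (fun s => dl (s i) * dl (s j)) ≤
        (if i ≤ j then uu p i * uu p (j - i) else 0) +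
          (if j ≤ i then uu p j * uu p (i - j) else 0) := by
    intro i hi j hj
    have hi' := Finset.mem_range.1 hi
    have hj' := Finset.mem_range.1 hj
    by_cases hij : i ≤ j
    · rw [expect_pair hij (by omega), if_pos hij]
      have : 0 ≤ (if j ≤ i then uu p j * uu p (i - j) else 0) := by
        split_ifs
        · exact mul_nonneg (uu_nonneg hp _) (uu_nonneg hp _)
        · exact le_rfl
      linarith
    · have hji : j ≤ i := by omega
      have : ∀ s : ℕ → ℤ, dl (s i) * dl (s j) = dl (s j) * dl (s i) := fun s => mul_comm _ _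
      simp only [this]
      rw [expect_pair hji (by omega), if_neg hij, if_pos hji, zero_add]
  have hrow : ∀ i ∈ range (M + 1), ∑ j ∈ range (M + 1),
      (if i ≤ j then uu p i * uu p (j - i) else 0) ≤ uu p i * ∑ k ∈ range (M + 1), uu p k := by
    intro i hi
    have hi' := Finset.mem_range.1 hi
    have e2 : ∑ j ∈ range (M + 1), (if i ≤ j then uu p i * uu p (j - i) else 0) =
        ∑ k ∈ range (M + 1 - i), uu p i * uu p k := by
      have e3 : M + 1 = i + (M + 1 - i) := by omega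
      conv_lhs => rw [e3, Finset.sum_range_add]
      have z : ∑ x ∈ range i, (if i ≤ x then uu p i * uu p (x - i) else 0) = 0 := by
        refine Finset.sum_eq_zero fun x hx => ?_
        have := Finset.mem_range.1 hx
        rw [if_neg (by omega)]
      rw [z, zero_add]
      refine Finset.sum_congr rfl fun k _ => ?_
      rw [if_pos (by omega), Nat.add_sub_cancel_left]
    rw [e2, ← Finset.mul_sum]
    refine mul_le_mul_of_nonneg_left ?_ (uu_nonneg hp i)
    exact Finset.sum_le_sum_of_subset_of_nonneg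
      (fun x hx => Finset.mem_range.2 (by have := Finset.mem_range.1 hx; omega))
      (fun k _ _ => uu_nonneg hp k)
  calc ∑ i ∈ range (M + 1), ∑ j ∈ range (M + 1), expect p M 0 (fun s => dl (s i) * dl (s j))
      ≤ ∑ i ∈ range (M + 1), ∑ j ∈ range (M + 1),
        ((if i ≤ j then uu p i * uu p (j - i) else 0) +
          (if j ≤ i then uu p j * uu p (i - j) else 0)) :=
        Finset.sum_le_sum fun i hi => Finset.sum_le_sum fun j hj => h i hi j hj
    _ = ∑ i ∈ range (M + 1), ∑ j ∈ range (M + 1), (if i ≤ j then uu p i * uu p (j - i) else 0) +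
        ∑ i ∈ range (M + 1), ∑ j ∈ range (M + 1), (if i ≤ j then uu p i * uu p (j - i) else 0) := by
        simp only [Finset.sum_add_distrib]
        congr 1
        rw [Finset.sum_comm]
    _ ≤ 2 * (∑ i ∈ range (M + 1), uu p i) ^ 2 := by
        have := Finset.sum_le_sum hrow
        rw [← Finset.sum_mul] at this
        nlinarith

end Pool.Agent.H646R3.Cop
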