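import Pool.Agent.H646R3.Cop.Lower

/-!
# Annealed upper bound
-/

set_option autoImplicit false

namespace Pool.Agent.H646R3.Cop

open Finset MeasureTheory ProbabilityTheory

section Psi

variable {p : ℤ → ℝ} (hp : IsTrans p)

include hp

lemma sum_fp_le (N : ℕ) (x : ℤ) : ∑ n ∈ range N, fp p n x ≤ 1 := by
  cases N with
  | zero => simp
  | succ N =>
    have h2 := fp_sum_add_surv (p := p) N x
    have h3 := Qk_nonneg hp (f := fun _ => 1) (fun _ => zero_le_one) N x
    linarith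

lemma fp_summable (x : ℤ) : Summable fun n => fp p n x :=
  summable_of_sum_range_le (fun n => fp_nonneg hp n x) (fun N => sum_fp_le hp N x)

lemma fp_le_one (n : ℕ) (x : ℤ) : fp p n x ≤ 1 := by
  have h := sum_fp_le hp (n + 1) x
  rw [Finset.sum_range_succ] at h
  have : 0 ≤ ∑ k ∈ range n, fp p k x := Finset.sum_nonneg fun k _ => fp_nonneg hp k x
  linarith

lemma fpl_summable {l : ℝ} (hl : 0 ≤ l) (hl1 : l < 1) (x : ℤ) :
    Summable fun n => fp p n x * l ^ n := by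
  refine Summable.of_nonneg_of_le (fun n => ?_) (fun n => ?_)
    (summable_geometric_of_lt_one hl hl1)
  · exact mul_nonneg (fp_nonneg hp n x) (pow_nonneg hl n)
  · have := fp_le_one hp n x
    have := pow_nonneg hl n
    nlinarith [fp_nonneg hp n x]

end Psi

/-- `E_x [l ^ T_0]` -/
noncomputable def Psi (p : ℤ → ℝ) (l : ℝ) (x : ℤ) : ℝ := ∑' n, fp p n x * l ^ n

lemma Psi_zero (p : ℤ → ℝ) (l : ℝ) : Psi p l 0 = 1 := by
  unfold Psi
  rw [tsum_eq_single 0]
  · simp [fp]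
  · intro n hn
    obtain ⟨m, rfl⟩ := Nat.exists_eq_succ_of_ne_zero hn
    simp [fp]

lemma Psi_nonneg {p : ℤ → ℝ} (hp : IsTrans p) {l : ℝ} (hl : 0 ≤ l) (x : ℤ) : 0 ≤ Psi p l x :=
  tsum_nonneg fun n => mul_nonneg (fp_nonneg hp n x) (pow_nonneg hl n)

lemma Psi_harm {p : ℤ → ℝ} (hp : IsTrans p) {l : ℝ} (hl : 0 ≤ l) (hl1 : l < 1) {x : ℤ}
    (hx : x ≠ 0) : Psi p l x = l * Pop p (Psi p l) x := by
  have hs := fpl_summable hp hl hl1
  have h1 : Psi p l x = ∑' n, fp p (n + 1) x * l ^ (n + 1) := by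
    unfold Psi
    rw [(hs x).tsum_eq_zero_add]
    simp [fp, hx]
  rw [h1]
  unfold Pop Psi
  rw [← tsum_mul_left (a := p x), ← tsum_mul_left (a := 1 - p x),
    ← ((hs (x + 1)).mul_left (p x)).tsum_add ((hs (x - 1)).mul_left (1 - p x)), ← tsum_mul_left]
  refine tsum_congr fun n => ?_
  have : fp p (n + 1) x = p x * fp p n (x + 1) + (1 - p x) * fp p n (x - 1) := by
    simp [fp, hx, Pop]
  rw [this, pow_succ]
  ring

lemma Psi_one_le {p : ℤ → ℝ} (hp : IsTrans p) {l : ℝ} (hl : 0 ≤ l) (hl1 : l < 1) (x : ℤ)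
    (m : ℕ) : Psi p l x ≤ 1 - Qk p (fun _ => 1) m x * (1 - l ^ (m + 1)) := by
  have hs := fpl_summable hp hl hl1 x
  have hf := fp_summable hp x
  unfold Psi
  rw [← hs.sum_add_tsum_nat_add (m + 1)]
  have h1 : ∑ i ∈ range (m + 1), fp p i x * l ^ i ≤ ∑ i ∈ range (m + 1), fp p i x := by
    refine Finset.sum_le_sum fun i _ => ?_
    have := pow_le_one₀ hl hl1.le (n := i)
    have := fp_nonneg hp i x
    nlinarith
  have hs2 : Summable fun i => fp p (i + (m + 1)) x * l ^ (i + (m + 1)) :=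
    (summable_nat_add_iff (f := fun n => fp p n x * l ^ n) (m + 1)).2 hs
  have hf2 : Summable fun i => fp p (i + (m + 1)) x :=
    (summable_nat_add_iff (f := fun n => fp p n x) (m + 1)).2 hf
  have h2 : ∑' i, fp p (i + (m + 1)) x * l ^ (i + (m + 1)) ≤
      ∑' i, l ^ (m + 1) * fp p (i + (m + 1)) x := by
    refine hs2.tsum_le_tsum (fun i => ?_) (hf2.mul_left _)
    rw [pow_add]
    have h3 := pow_le_one₀ hl hl1.le (n := i)
    have h4 := fp_nonneg hp (i + (m + 1)) x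
    have h5 := pow_nonneg hl (m + 1)
    have h6 : 0 ≤ l ^ (m + 1) * fp p (i + (m + 1)) x := mul_nonneg h5 h4
    nlinarith
  rw [tsum_mul_left] at h2
  have h3 := hf.sum_add_tsum_nat_add (m + 1)
  have h4 : ∑' n, fp p n x ≤ 1 :=
    Real.tsum_le_of_sum_range_le (fun n => fp_nonneg hp n x) (fun N => sum_fp_le hp N x)
  have h5 := fp_sum_add_surv (p := p) m x
  have h6 : ∑' i, fp p (i + (m + 1)) x ≤ Qk p (fun _ => 1) m x := by linarith
  have h7 := pow_nonneg hl (m + 1)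
  nlinarith

section tr

variable {α : ℝ} (h0 : 0 < α) (h1 : α < 1)

include h0 h1

lemma surv_ge (m : ℕ) : (1 - α) * ((m : ℝ) + 1) ^ (-α) ≤ Qk (tr α) (fun _ => 1) m 1 := by
  have hα : 0 ≤ 1 - α := by linarith
  rcases Nat.even_or_odd' m with ⟨k, rfl | rfl⟩
  · rw [(surv_one_odd α k).1]
    refine le_trans ?_ ((tl_lower h0 h1 k).trans (tl_anti h0 h1 k))
    refine mul_le_mul_of_nonneg_left ?_ hα
    apply Real.rpow_le_rpow_of_nonpos (by positivity) _ (by linarith)
    push_cast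
    have : (0 : ℝ) ≤ k := Nat.cast_nonneg k
    linarith
  · rw [(surv_one_odd α k).2]
    refine le_trans ?_ (tl_lower h0 h1 k)
    refine mul_le_mul_of_nonneg_left ?_ hα
    apply Real.rpow_le_rpow_of_nonpos (by positivity) _ (by linarith)
    push_cast
    have : (0 : ℝ) ≤ k := Nat.cast_nonneg k
    linarith

lemma Psi_gap {f : ℝ} (hf : 0 < f) (hf1 : f ≤ 1) :
    Psi (tr α) (Real.exp (-f)) 1 ≤ 1 - (1 - α) / 6 * f ^ α := by
  have hp := tr_isTrans h0 h1
  have hα : 0 < 1 - α := by linarith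
  have hl : 0 ≤ Real.exp (-f) := (Real.exp_pos _).le
  have hl1 : Real.exp (-f) < 1 := by rw [Real.exp_lt_one_iff]; linarith
  set m := ⌈1 / f⌉₊ with hm
  have h2 := Psi_one_le hp hl hl1 1 m
  have h3 := surv_ge h0 h1 m
  have hm1 : 1 / f ≤ m := Nat.le_ceil _
  have hm2 : (m : ℝ) < 1 / f + 1 := Nat.ceil_lt_add_one (by positivity)
  have h4 : Real.exp (-f) ^ (m + 1) ≤ 1 / 2 := by
    rw [← Real.exp_nat_mul]
    have e : ((m + 1 : ℕ) : ℝ) * -f ≤ -1 := by
      push_cast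
      have : 1 ≤ m * f := by
        rw [div_le_iff₀ hf] at hm1; exact hm1
      nlinarith
    have h5 : Real.exp (-1) ≤ 1 / 2 := by
      rw [Real.exp_neg]
      have := Real.add_one_le_exp (1 : ℝ)
      rw [one_div]
      apply inv_anti₀ (by norm_num) (by linarith)
    exact (Real.exp_le_exp.2 e).trans h5
  have h6 : f ^ α / 3 ≤ ((m : ℝ) + 1) ^ (-α) := by
    have h7 : (m : ℝ) + 1 ≤ 3 / f := by
      have : 1 ≤ 1 / f := by rw [le_div_iff₀ hf]; linarith
      have : 3 / f = 3 * (1 / f) := by ring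
      rw [this]; linarith
    have h8 : (3 / f) ^ (-α) ≤ ((m : ℝ) + 1) ^ (-α) :=
      Real.rpow_le_rpow_of_nonpos (by positivity) h7 (by linarith)
    refine le_trans ?_ h8
    rw [Real.rpow_neg (by positivity), Real.div_rpow (by norm_num) hf.le, inv_div]
    have h9 : (3 : ℝ) ^ α ≤ 3 := by
      calc (3 : ℝ) ^ α ≤ (3 : ℝ) ^ (1 : ℝ) :=
            Real.rpow_le_rpow_of_exponent_le (by norm_num) h1.le
        _ = 3 := Real.rpow_one 3
    have h10 : 0 < f ^ α := by positivity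
    gcongr
  have h7 : (1 - α) * (f ^ α / 3) ≤ Qk (tr α) (fun _ => 1) m 1 :=
    (mul_le_mul_of_nonneg_left h6 hα.le).trans h3
  have h8 : 0 ≤ (1 - α) * (f ^ α / 3) := by positivity
  have h9 : (1 - α) * (f ^ α / 3) * (1 / 2) ≤ Qk (tr α) (fun _ => 1) m 1 *
      (1 - Real.exp (-f) ^ (m + 1)) := by
    apply mul_le_mul h7 (by linarith) (by norm_num) (h8.trans h7)
  have e : (1 - α) * (f ^ α / 3) * (1 / 2) = (1 - α) / 6 * f ^ α := by ring
  rw [e] at h9
  linarith

end tr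

/-- supersolution -/
noncomputable def VV (α δ l : ℝ) (x : ℤ) : ℝ :=
  if x ≤ 0 then (1 + 2 * δ) ^ (-x).toNat else Real.exp δ * Psi (tr α) l x

lemma VV_super {α : ℝ} (h0 : 0 < α) (h1 : α < 1) {δ f : ℝ} (hδ : 0 < δ) (hδ1 : δ ≤ 1 / 10)
    (hf : 0 < f) (hf1 : f ≤ 1) (hfδ : 6 * δ ≤ (1 - α) / 6 * f ^ α) (x : ℤ) :
    Pop (tr α) (fun y => Real.exp (δ * ind y) * VV α δ (Real.exp (-f)) y) x ≤
      Real.exp f * VV α δ (Real.exp (-f)) x := by
  have hp := tr_isTrans h0 h1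
  have hl : 0 ≤ Real.exp (-f) := (Real.exp_pos _).le
  have hl1 : Real.exp (-f) < 1 := by rw [Real.exp_lt_one_iff]; linarith
  have hef : 1 ≤ Real.exp f := Real.one_le_exp hf.le
  have hdd : 0 < 1 + 2 * δ := by linarith
  have hexpδ : Real.exp δ ≤ 1 + δ + δ ^ 2 := by
    have h2 := Real.abs_exp_sub_one_sub_id_le (x := δ) (by rw [abs_of_pos hδ]; linarith)
    have := (abs_le.1 h2).2
    linarith
  have hVn : ∀ y : ℤ, 0 ≤ y → Real.exp (δ * ind y) * VV α δ (Real.exp (-f)) y =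
      Real.exp δ * Psi (tr α) (Real.exp (-f)) y := by
    intro y hy
    rcases eq_or_lt_of_le hy with h | h
    · subst h
      simp [ind, VV, Psi_zero]
    · have : ¬ y ≤ 0 := by omega
      simp [ind, VV, this]
  rcases lt_trichotomy x 0 with hx | hx | hx
  · -- negative side
    have hx0 : x ≤ 0 := hx.le
    obtain ⟨n, rfl⟩ : ∃ n : ℕ, x = -((n : ℤ) + 1) := ⟨(-x - 1).toNat, by omega⟩
    have e1 : (-(-((n : ℤ) + 1))).toNat = n + 1 := by omega
    have e2 : (-(-((n : ℤ) + 1) + 1)).toNat = n := by omega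
    have e3 : (-(-((n : ℤ) + 1) - 1)).toNat = n + 2 := by omega
    have c1 : -((n : ℤ) + 1) + 1 ≤ 0 := by omega
    have c2 : -((n : ℤ) + 1) - 1 ≤ 0 := by omega
    unfold Pop
    rw [tr_neg α hx]
    simp only [VV, ind, c1, c2, hx0, if_true, e1, e2, e3, mul_one]
    have hP : 0 < (1 + 2 * δ) ^ n := by positivity
    have key : Real.exp δ * (9 / 10 + 1 / 10 * (1 + 2 * δ) ^ 2) ≤ 1 + 2 * δ := by
      have h3 : 0 < 9 / 10 + 1 / 10 * (1 + 2 * δ) ^ 2 := by positivity
      calc Real.exp δ * (9 / 10 + 1 / 10 * (1 + 2 * δ) ^ 2)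
          ≤ (1 + δ + δ ^ 2) * (9 / 10 + 1 / 10 * (1 + 2 * δ) ^ 2) := by gcongr
        _ ≤ 1 + 2 * δ := by nlinarith [mul_pos hδ hδ, mul_pos (mul_pos hδ hδ) hδ]
    calc 9 / 10 * (Real.exp δ * (1 + 2 * δ) ^ n) + (1 - 9 / 10) * (Real.exp δ * (1 + 2 * δ) ^ (n + 2))
        = (1 + 2 * δ) ^ n * (Real.exp δ * (9 / 10 + 1 / 10 * (1 + 2 * δ) ^ 2)) := by ring
      _ ≤ (1 + 2 * δ) ^ n * (1 + 2 * δ) := by gcongr
      _ = 1 * (1 + 2 * δ) ^ (n + 1) := by ring
      _ ≤ Real.exp f * (1 + 2 * δ) ^ (n + 1) := by gcongr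
  · subst hx
    unfold Pop
    beta_reduce
    rw [hVn (0 + 1) (by norm_num), tr_zero]
    have c2 : (0 : ℤ) - 1 ≤ 0 := by norm_num
    have e3 : (-((0 : ℤ) - 1)).toNat = 1 := by norm_num
    have e4 : VV α δ (Real.exp (-f)) 0 = 1 := by simp [VV]
    rw [e4]
    simp only [VV, ind, c2, if_true, e3, mul_one, pow_one]
    have hg := Psi_gap h0 h1 hf hf1
    rw [zero_add]
    have h5 : Real.exp δ * (1 - 2 * δ) ≤ 1 := by
      have := Real.add_one_le_exp (-(2 * δ))
      calc Real.exp δ * (1 - 2 * δ) ≤ Real.exp δ * Real.exp (-(2 * δ)) := by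
            gcongr; linarith
        _ = Real.exp (-δ) := by rw [← Real.exp_add]; congr 1; ring
        _ ≤ 1 := by rw [Real.exp_le_one_iff]; linarith
    have h6 : 1 / 2 * Psi (tr α) (Real.exp (-f)) 1 + (1 - 1 / 2) * (1 + 2 * δ) ≤ 1 - 2 * δ := by
      linarith
    calc 1 / 2 * (Real.exp δ * Psi (tr α) (Real.exp (-f)) 1) +
          (1 - 1 / 2) * (Real.exp δ * (1 + 2 * δ))
        = Real.exp δ * (1 / 2 * Psi (tr α) (Real.exp (-f)) 1 + (1 - 1 / 2) * (1 + 2 * δ)) := by ring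
      _ ≤ Real.exp δ * (1 - 2 * δ) := by gcongr
      _ ≤ 1 := h5
      _ ≤ _ := hef
  · unfold Pop
    beta_reduce
    rw [hVn (x + 1) (by omega), hVn (x - 1) (by omega)]
    have hx0 : ¬ x ≤ 0 := by omega
    have e : VV α δ (Real.exp (-f)) x = Real.exp δ * Psi (tr α) (Real.exp (-f)) x := by
      simp [VV, hx0]
    rw [e, Psi_harm hp hl hl1 (by omega : x ≠ 0)]
    unfold Pop
    have e5 : Real.exp f * Real.exp (-f) = 1 := by rw [← Real.exp_add]; simp
    apply le_of_eq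
    linear_combination (-(Real.exp δ * (tr α x * Psi (tr α) (Real.exp (-f)) (x + 1) +
      (1 - tr α x) * Psi (tr α) (Real.exp (-f)) (x - 1)))) * e5

lemma VV_iter {α : ℝ} (h0 : 0 < α) (h1 : α < 1) {δ f : ℝ} (hδ : 0 < δ) (hδ1 : δ ≤ 1 / 10)
    (hf : 0 < f) (hf1 : f ≤ 1) (hfδ : 6 * δ ≤ (1 - α) / 6 * f ^ α) (j : ℕ) : ∀ x : ℤ,
    expect (tr α) j x (fun s => VV α δ (Real.exp (-f)) (s j) *
      Real.exp (δ * ∑ n ∈ range j, ind (s (n + 1)))) ≤
      Real.exp (f * j) * VV α δ (Real.exp (-f)) x := by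
  have hp := tr_isTrans h0 h1
  induction j with
  | zero => intro x; simp [expect]
  | succ j ih =>
    intro x
    have hA : ∀ y : ℤ, expect (tr α) j y (fun s => VV α δ (Real.exp (-f)) (cons x s (j + 1)) *
        Real.exp (δ * ∑ n ∈ range (j + 1), ind (cons x s (n + 1)))) ≤
        Real.exp (f * j) * (Real.exp (δ * ind y) * VV α δ (Real.exp (-f)) y) := by
      intro y
      have e : expect (tr α) j y (fun s => VV α δ (Real.exp (-f)) (cons x s (j + 1)) *
        Real.exp (δ * ∑ n ∈ range (j + 1), ind (cons x s (n + 1)))) =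
        Real.exp (δ * ind y) * expect (tr α) j y (fun s => VV α δ (Real.exp (-f)) (s j) *
          Real.exp (δ * ∑ n ∈ range j, ind (s (n + 1)))) := by
        rw [← expect_mul_left]
        refine expect_congr j y fun s hs => ?_
        rw [Finset.sum_range_succ', mul_add, Real.exp_add]
        simp only [cons_succ, hs]
        ring
      rw [e]
      calc _ ≤ Real.exp (δ * ind y) * (Real.exp (f * j) * VV α δ (Real.exp (-f)) y) :=
            mul_le_mul_of_nonneg_left (ih y) (Real.exp_pos _).le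
        _ = _ := by ring
    rw [expect]
    have h2 := hp x
    have h3 : 0 ≤ 1 - tr α x := by linarith [h2.2]
    have h4 := VV_super h0 h1 hδ hδ1 hf hf1 hfδ x
    have e6 : Real.exp (f * ((j + 1 : ℕ) : ℝ)) = Real.exp (f * j) * Real.exp f := by
      rw [← Real.exp_add]; congr 1; push_cast; ring
    rw [e6]
    calc _ ≤ tr α x * (Real.exp (f * j) * (Real.exp (δ * ind (x + 1)) *
          VV α δ (Real.exp (-f)) (x + 1))) + (1 - tr α x) * (Real.exp (f * j) *
          (Real.exp (δ * ind (x - 1)) * VV α δ (Real.exp (-f)) (x - 1))) := by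
          have h5 := hA (x + 1)
          have h6 := hA (x - 1)
          have := h2.1.le
          gcongr
      _ = Real.exp (f * j) * Pop (tr α) (fun y => Real.exp (δ * ind y) *
          VV α δ (Real.exp (-f)) y) x := by unfold Pop; ring
      _ ≤ Real.exp (f * j) * (Real.exp f * VV α δ (Real.exp (-f)) x) := by gcongr
      _ = _ := by ring

lemma annealed_upper {α : ℝ} (h0 : 0 < α) (h1 : α < 1) {δ f : ℝ} (hδ : 0 < δ) (hδ1 : δ ≤ 1 / 10)
    (hf : 0 < f) (hf1 : f ≤ 1) (hfδ : 6 * δ ≤ (1 - α) / 6 * f ^ α) (N : ℕ) :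
    expect (tr α) N 0 (fun s => Real.exp (δ * ∑ n ∈ range N, ind (s (n + 1)))) ≤
      ((N : ℝ) + 1) * Real.exp (f * N) := by
  have hp := tr_isTrans h0 h1
  have hl : 0 ≤ Real.exp (-f) := (Real.exp_pos _).le
  induction N with
  | zero => simp [expect]
  | succ N ih =>
    have hV : ∀ y, ind y ≤ VV α δ (Real.exp (-f)) y := by
      intro y
      unfold ind VV
      split_ifs with h
      · exact one_le_pow₀ (by linarith)
      · exact mul_nonneg (Real.exp_pos _).le (Psi_nonneg hp hl y)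
    have hb := VV_iter h0 h1 hδ hδ1 hf hf1 hfδ (N + 1) 0
    have e4 : VV α δ (Real.exp (-f)) 0 = 1 := by simp [VV]
    rw [e4, mul_one] at hb
    have hext : expect (tr α) (N + 1) 0 (fun s => Real.exp (δ * ∑ n ∈ range N, ind (s (n + 1)))) =
        expect (tr α) N 0 (fun s => Real.exp (δ * ∑ n ∈ range N, ind (s (n + 1)))) := by
      apply expect_extend
      intro s s' hs
      congr 2
      refine Finset.sum_congr rfl fun n hn => ?_
      rw [hs (n + 1) (by have := Finset.mem_range.1 hn; omega)]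
    have hpt : ∀ s : ℕ → ℤ, Real.exp (δ * ∑ n ∈ range (N + 1), ind (s (n + 1))) ≤
        Real.exp (δ * ∑ n ∈ range N, ind (s (n + 1))) + VV α δ (Real.exp (-f)) (s (N + 1)) *
          Real.exp (δ * ∑ n ∈ range (N + 1), ind (s (n + 1))) := by
      intro s
      have h3 := hV (s (N + 1))
      have h5 := Real.exp_pos (δ * ∑ n ∈ range (N + 1), ind (s (n + 1)))
      have h6 := Real.exp_pos (δ * ∑ n ∈ range N, ind (s (n + 1)))
      by_cases hs : s (N + 1) ≤ 0
      · have h7 : ind (s (N + 1)) = 1 := by simp [ind, hs]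
        rw [h7] at h3
        nlinarith
      · have h7 : ind (s (N + 1)) = 0 := by simp [ind, hs]
        rw [h7] at h3
        rw [Finset.sum_range_succ _ N, h7, add_zero]
        have := mul_nonneg h3 h6.le
        linarith
    have h8 := expect_mono hp (N + 1) 0 (fun s _ => hpt s)
    rw [expect_add, hext] at h8
    have h9 : Real.exp (f * N) ≤ Real.exp (f * ((N + 1 : ℕ) : ℝ)) := by
      apply Real.exp_le_exp.2
      push_cast
      nlinarith
    have hN : (0 : ℝ) ≤ (N : ℝ) + 1 := by positivity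
    calc _ ≤ _ := h8
      _ ≤ ((N : ℝ) + 1) * Real.exp (f * N) + Real.exp (f * ((N + 1 : ℕ) : ℝ)) := add_le_add ih hb
      _ ≤ ((N : ℝ) + 1) * Real.exp (f * ((N + 1 : ℕ) : ℝ)) + Real.exp (f * ((N + 1 : ℕ) : ℝ)) := by
          gcongr
      _ = (((N + 1 : ℕ) : ℝ) + 1) * Real.exp (f * ((N + 1 : ℕ) : ℝ)) := by push_cast; ring

variable {ν : Measure ℝ} [IsProbabilityMeasure ν]

lemma one_iter (p : ℤ → ℝ) : ∀ (k : ℕ) (y : ℤ), (Pop p)^[k] (fun _ => (1 : ℝ)) y = 1 := by
  intro k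
  induction k with
  | zero => intro y; rfl
  | succ k ih =>
    intro y
    rw [Function.iterate_succ_apply']
    simp only [Pop, ih]
    ring

lemma Zfree_mean {p : ℤ → ℝ} (hexp : ExpMom ν) (β h : ℝ) (N : ℕ) :
    Integrable (Zg p β h N 0 (fun _ => 1)) (PP ν) ∧
    ∫ ω, Zg p β h N 0 (fun _ => 1) ω ∂(PP ν) = expect p N 0 (fun s =>
      Real.exp ((cgf id ν β - h) * ∑ n ∈ range N, ind (s (n + 1)))) := by
  have e : ∀ ω, Zg p β h N 0 (fun _ => 1) ω =
      expect p N 0 (fun s => bw β h N (fun n => ind (s (n + 1))) ω) := by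
    intro ω
    unfold Zg bw
    simp only [one_mul]
  have h2 := integral_expect (p := p) (P := PP ν) N 0
    (fun s ω => bw β h N (fun n => ind (s (n + 1))) ω)
    (fun s => bw_integrable hexp β h N _)
  have e' : Zg p β h N 0 (fun _ => 1) = fun ω =>
      expect p N 0 (fun s => bw β h N (fun n => ind (s (n + 1))) ω) := funext e
  rw [e']
  refine ⟨h2.1, h2.2.trans ?_⟩
  refine expect_congr N 0 fun s _ => ?_
  rw [integral_bw01 hexp]
  intro n
  unfold ind
  split_ifs <;> simp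

/-- Jensen -/
lemma log_mean_le {p : ℤ → ℝ} (hp : IsTrans p) (hexp : ExpMom ν) (β h : ℝ) (N : ℕ) {t : ℝ}
    (ht : expect p N 0 (fun s =>
      Real.exp ((cgf id ν β - h) * ∑ n ∈ range N, ind (s (n + 1)))) ≤ t) :
    ∫ ω, Real.log (Zg p β h N 0 (fun _ => 1) ω) ∂(PP ν) ≤ Real.log t := by
  have hZ := Zfree_mean (p := p) hexp β h N
  have hpos : 0 < expect p N 0 (fun s =>
      Real.exp ((cgf id ν β - h) * ∑ n ∈ range N, ind (s (n + 1)))) :=
    expect_pos hp N 0 fun s _ => Real.exp_pos _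
  have htpos : 0 < t := lt_of_lt_of_le hpos ht
  have hi : Integrable (fun ω => Real.log (Zg p β h N 0 (fun _ => 1) ω)) (PP ν) :=
    log_Zg_integrable hexp hp β h N 0 (fun _ => zero_le_one) (by rw [one_iter]; norm_num)
  have hpt : ∀ ω, Real.log (Zg p β h N 0 (fun _ => 1) ω) ≤
      t⁻¹ * Zg p β h N 0 (fun _ => 1) ω + (Real.log t - 1) := by
    intro ω
    have hzpos : 0 < Zg p β h N 0 (fun _ => 1) ω :=
      expect_pos hp N 0 fun s _ => by rw [one_mul]; exact Real.exp_pos _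
    have h3 := Real.log_le_sub_one_of_pos (div_pos hzpos htpos)
    rw [Real.log_div hzpos.ne' htpos.ne'] at h3
    have : Zg p β h N 0 (fun _ => 1) ω / t = t⁻¹ * Zg p β h N 0 (fun _ => 1) ω := by
      field_simp
    linarith
  have h4 := integral_mono hi ((hZ.1.const_mul _).add (integrable_const _)) hpt
  refine h4.trans ?_
  have e5 : ∫ ω, (t⁻¹ * Zg p β h N 0 (fun _ => 1) ω + (Real.log t - 1)) ∂(PP ν) =
      t⁻¹ * ∫ ω, Zg p β h N 0 (fun _ => 1) ω ∂(PP ν) + (Real.log t - 1) := by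
    rw [integral_add (hZ.1.const_mul _) (integrable_const _), integral_const_mul]
    simp
  have h6 : t⁻¹ * ∫ ω, Zg p β h N 0 (fun _ => 1) ω ∂(PP ν) ≤ 1 := by
    rw [hZ.2]
    calc _ ≤ t⁻¹ * t := by gcongr
      _ = 1 := inv_mul_cancel₀ htpos.ne'
  have h7 : ∫ ω, (t⁻¹ * Zg p β h N 0 (fun _ => 1) ω + (Real.log t - 1)) ∂(PP ν) ≤ Real.log t := by
    rw [e5]; linarith
  exact h7

end Pool.Agent.H646R3.Cop
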